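import Mathlib

/-! The abstract logarithm attached to a cyclic action with a twisted trace. -/

namespace Pool.Agent.WhDet

/-- An action of the additive group of `R` on an `R`-algebra with a twisted trace. -/
structure Tw (R : Type*) (T : Type*) [CommRing R] [Ring T] [Algebra R T] where
  s : R → T →ₐ[R] T
  τ : T →ₗ[R] R
  s_zero : ∀ x, s 0 x = x
  s_add : ∀ i j x, s (i + j) x = s i (s j x)
  τ_s : ∀ i x, τ (s i x) = τ x
  τ_mul : ∀ z x, τ (z * x) = τ (x * s 1 z)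

namespace Tw

variable {R T : Type*} [CommRing R] [Fintype R] [Ring T] [Algebra R T] (S : Tw R T)

/-- The norm operator. -/
def N (y : T) : T := ∑ j, S.s j y

/-- The derivative operator. -/
def D (y : T) : T := ∑ j, j • S.s j y

/-- Invariant elements. -/
def Inv (x : T) : Prop := ∀ i, S.s i x = x

/-- The logarithm. -/
def L (y u : T) : R := S.τ (y * u * (1 + S.D y))

theorem inv_N (y : T) : S.Inv (S.N y) := fun i => by
  rw [N, map_sum, ← Equiv.sum_comp (Equiv.addLeft i) (fun j => S.s j y)]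
  simp [S.s_add]

theorem s_D (i : R) (y : T) : S.s i (S.D y) = S.D y - i • S.N y := by
  rw [D, N, map_sum, Finset.smul_sum, ← Finset.sum_sub_distrib,
    ← Equiv.sum_comp (Equiv.addLeft i) (fun j => j • S.s j y - i • S.s j y)]
  simp [S.s_add, add_smul]

theorem N_add (x y : T) : S.N (x + y) = S.N x + S.N y := by simp [N, Finset.sum_add_distrib]

theorem N_sub (x y : T) : S.N (x - y) = S.N x - S.N y := by simp [N]

theorem D_add (x y : T) : S.D (x + y) = S.D x + S.D y := by simp [D, Finset.sum_add_distrib]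

theorem D_sub (x y : T) : S.D (x - y) = S.D x - S.D y := by simp [D, smul_sub]

omit [Fintype R] in
theorem s_comm (i j : R) (x : T) : S.s i (S.s j x) = S.s j (S.s i x) := by
  rw [← S.s_add, add_comm, S.s_add]

theorem N_s (i : R) (y : T) : S.N (S.s i y) = S.N y := by
  rw [← S.inv_N y i, N, N, map_sum]
  simp only [S.s_comm i]

theorem D_s (i : R) (y : T) : S.D (S.s i y) = S.D y - i • S.N y := by
  rw [← S.s_D, D, D, map_sum]
  simp only [S.s_comm i, map_smul]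

variable {S}

omit [Fintype R] in
theorem Inv.mul {a b : T} (ha : S.Inv a) (hb : S.Inv b) : S.Inv (a * b) := fun i => by
  rw [map_mul, ha, hb]

omit [Fintype R] in
theorem Inv.one_add {a : T} (ha : S.Inv a) : S.Inv (1 + a) := fun i => by
  rw [map_add, map_one, ha]

omit [Fintype R] in
theorem Inv.of_inv {a u : T} (ha : S.Inv a) (h1 : u * a = 1) (h2 : a * u = 1) : S.Inv u :=
  fun i => by
    have := congrArg (S.s i) h1
    rw [map_mul, ha, map_one] at this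
    rw [← mul_one (S.s i u), ← h2, ← mul_assoc, this, one_mul]

omit [Fintype R] in
theorem Inv.τ_comm {a : T} (ha : S.Inv a) (x : T) : S.τ (a * x) = S.τ (x * a) := by
  rw [S.τ_mul, ha]

theorem Inv.N_mul {a : T} (ha : S.Inv a) (x : T) : S.N (a * x) = a * S.N x := by
  simp [N, ha _, Finset.mul_sum]

theorem Inv.N_mul' {a : T} (ha : S.Inv a) (x : T) : S.N (x * a) = S.N x * a := by
  simp [N, ha _, Finset.sum_mul]

theorem Inv.D_mul {a : T} (ha : S.Inv a) (x : T) : S.D (a * x) = a * S.D x := by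
  simp [D, ha _, Finset.mul_sum]

theorem Inv.D_mul' {a : T} (ha : S.Inv a) (x : T) : S.D (x * a) = S.D x * a := by
  simp [D, ha _, Finset.sum_mul]

variable (S)

omit [Fintype R] in
theorem τ_mul_s (i : R) (a b : T) : S.τ (a * S.s i b) = S.τ (S.s (-i) a * b) := by
  rw [← S.τ_s (-i), map_mul, ← S.s_add, neg_add_cancel, S.s_zero]

theorem τ_N (a b : T) : S.τ (a * S.N b) = S.τ (S.N a * b) := by
  rw [N, N, Finset.mul_sum, Finset.sum_mul, map_sum, map_sum,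
    ← Equiv.sum_comp (Equiv.neg R) (fun j => S.τ (S.s j a * b))]
  simp [τ_mul_s]

theorem τ_D (a b : T) : S.τ (a * S.D b) = S.τ (b * S.N a) - S.τ (b * S.D a) := by
  rw [N, D, D, Finset.mul_sum, Finset.mul_sum, Finset.mul_sum, map_sum, map_sum, map_sum,
    ← Finset.sum_sub_distrib, ← Equiv.sum_comp (Equiv.subLeft 1)]
  refine Finset.sum_congr rfl fun j _ => ?_
  rw [mul_smul_comm, mul_smul_comm, map_smul, map_smul, τ_mul_s, S.τ_mul, ← S.s_add]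
  simp [sub_mul]

theorem N_mul_D (a b : T) : S.N (a * S.D b) = S.N a * S.D b - S.D a * S.N b := by
  rw [N]
  simp only [map_mul, s_D, mul_sub, Finset.sum_sub_distrib, ← Finset.sum_mul, mul_smul_comm,
    ← smul_mul_assoc]
  rfl

theorem N_D_mul (a b : T) : S.N (S.D a * b) = S.D a * S.N b - S.N a * S.D b := by
  rw [N]
  simp only [map_mul, s_D, sub_mul, Finset.sum_sub_distrib, ← Finset.mul_sum, smul_mul_assoc,
    ← mul_smul_comm]
  rfl

theorem L_indep (y z u : T) (h1 : u * (1 + S.N y) = 1) (h2 : (1 + S.N y) * u = 1) :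
    S.L (y + (S.s 1 z - z)) u = S.L y u := by
  have hu : S.Inv u := (S.inv_N y).one_add.of_inv h1 h2
  have hn : u * S.N y = S.N y * u := by
    rw [mul_add, mul_one] at h1
    rw [add_mul, one_mul] at h2
    exact add_left_cancel (h1.trans h2.symm)
  have e1 : S.D (y + (S.s 1 z - z)) = S.D y - S.N z := by
    rw [D_add, D_sub, D_s, one_smul]; abel
  have e2 : S.τ (S.s 1 z * u * (1 + (S.D y - S.N z))) =
      S.τ (z * u * (1 + (S.D y - S.N z))) + S.τ (z * u * S.N y) := by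
    rw [← S.τ_s (-1), ← map_add, map_mul (S.s _), map_mul (S.s _), ← S.s_add, neg_add_cancel,
      S.s_zero, hu, map_add (S.s _), map_sub (S.s _), map_one (S.s _), s_D, S.inv_N]
    congr 1
    rw [neg_smul, one_smul]
    noncomm_ring
  have e3 : S.τ (y * u * S.N z) = S.τ (z * u * S.N y) := by
    rw [τ_N, hu.N_mul', ((S.inv_N y).mul hu).τ_comm, mul_assoc, hn]
  rw [L, L, e1, add_mul, add_mul, sub_mul, sub_mul, map_add, map_sub, e2, ← e3, ← add_sub_assoc 1,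
    mul_sub, map_sub]
  abel

theorem L_conj (y u g g' : T) (hg : S.Inv g) (h1 : g' * g = 1) (h2 : g * g' = 1) :
    S.L (g * y * g') (g * u * g') = S.L y u := by
  have hg' : S.Inv g' := hg.of_inv h1 h2
  rw [L, L, hg'.D_mul', hg.D_mul, show g * y * g' * (g * u * g') * (1 + g * S.D y * g') =
    g * (y * (g' * g) * u * (g' + (g' * g) * S.D y * g')) by noncomm_ring, h1, hg.τ_comm]
  congr 1
  rw [show y * 1 * u * (g' + 1 * S.D y * g') * g = y * u * (1 + S.D y) * (g' * g) by noncomm_ring,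
    h1, mul_one]

theorem L_add (y₁ y₂ u₁ u₂ : T) (h1 : u₁ * (1 + S.N y₁) = 1) (h1' : (1 + S.N y₁) * u₁ = 1)
    (h2 : u₂ * (1 + S.N y₂) = 1) (h2' : (1 + S.N y₂) * u₂ = 1) :
    S.L (y₁ + (1 + S.N y₁) * y₂) (u₂ * u₁) = S.L y₁ u₁ + S.L y₂ u₂ := by
  have hn₁ := S.inv_N y₁
  have hW := hn₁.one_add
  have hu₁ : S.Inv u₁ := hW.of_inv h1 h1'
  have hu₂ : S.Inv u₂ := (S.inv_N y₂).one_add.of_inv h2 h2'
  rw [L, L, L, D_add, hW.D_mul]
  have k1 : u₁ * S.N y₁ = 1 - u₁ := by rw [← h1]; noncomm_ring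
  have k2 : u₂ * S.N y₂ = 1 - u₂ := by rw [← h2]; noncomm_ring
  have k2' : S.N y₂ * u₂ = 1 - u₂ := by rw [← h2']; noncomm_ring
  have nb : S.N (y₂ * u₂) = 1 - u₂ := by rw [hu₂.N_mul', k2']
  have db : S.D (y₂ * u₂) = S.D y₂ * u₂ := hu₂.D_mul' _
  have nbu : S.N (y₂ * u₂ * u₁) = (1 - u₂) * u₁ := by rw [hu₁.N_mul', nb]
  have t1 : S.τ (S.N y₁ * (y₂ * u₂ * S.D y₂)) =
      S.τ (y₁ * (S.D y₂ * u₂)) - S.τ (y₁ * u₂ * S.D y₂) := by
    rw [← τ_N, N_mul_D, nb, db, ← map_sub, mul_assoc (S.D y₂), k2]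
    congr 1
    noncomm_ring
  have t2 : S.τ (y₁ * (S.D y₂ * u₂)) = S.τ (y₂ * u₂ * S.N y₁) - S.τ (y₂ * u₂ * S.D y₁) := by
    rw [← db, τ_D]
  have t3 : S.τ (y₁ * ((1 - u₂) * u₁)) = S.τ (y₂ * u₂) - S.τ (y₂ * u₂ * u₁) := by
    rw [← nbu, τ_N, hn₁.τ_comm, mul_assoc, k1, ← map_sub, mul_sub, mul_one]
  have t4 : S.τ (y₁ * ((1 - u₂) * u₁) * S.D y₁) = S.τ (y₂ * u₂ * u₁ *
      (S.D y₁ * S.N y₁ - S.N y₁ * S.D y₁ + S.N y₁ * S.N y₁)) := by
    have : S.D y₁ = S.s 1 (S.D y₁ + S.N y₁) := by rw [map_add, s_D, hn₁, one_smul, sub_add_cancel]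
    rw [this, ← S.τ_mul, ← this, ← nbu, ← mul_assoc, τ_N, (S.inv_N _).τ_comm, add_mul, N_add,
      N_D_mul, hn₁.N_mul]
  have t5 : S.τ ((1 + S.N y₁) * (y₂ * u₂ * u₁ * (1 + S.D y₁))) =
      S.τ (y₂ * u₂) + S.τ (y₂ * u₂ * u₁ * S.D y₁ * (1 + S.N y₁)) := by
    rw [hW.τ_comm, ← map_add]
    congr 1
    rw [show y₂ * u₂ * u₁ * (1 + S.D y₁) * (1 + S.N y₁) = y₂ * u₂ * (u₁ * (1 + S.N y₁)) +
      y₂ * u₂ * u₁ * S.D y₁ * (1 + S.N y₁) by noncomm_ring, h1, mul_one]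
  have t6 : y₂ * u₂ * u₁ * (S.D y₁ * S.N y₁ - S.N y₁ * S.D y₁ + S.N y₁ * S.N y₁) =
      y₂ * u₂ * u₁ * S.D y₁ * (1 + S.N y₁) - y₂ * u₂ * S.D y₁ + y₂ * u₂ * S.N y₁ - y₂ * u₂ +
        y₂ * u₂ * u₁ := by
    rw [show y₂ * u₂ * u₁ * (S.D y₁ * S.N y₁ - S.N y₁ * S.D y₁ + S.N y₁ * S.N y₁) =
      y₂ * u₂ * u₁ * S.D y₁ * S.N y₁ - y₂ * u₂ * (u₁ * S.N y₁) * S.D y₁ +
        y₂ * u₂ * (u₁ * S.N y₁) * S.N y₁ by noncomm_ring, k1,
      show y₂ * u₂ * (1 - u₁) * S.N y₁ = y₂ * u₂ * S.N y₁ - y₂ * u₂ * (u₁ * S.N y₁) by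
        noncomm_ring, k1]
    noncomm_ring
  have t7 : (y₁ + (1 + S.N y₁) * y₂) * (u₂ * u₁) * (1 + (S.D y₁ + (1 + S.N y₁) * S.D y₂)) =
      y₁ * u₁ * (1 + S.D y₁) - y₁ * ((1 - u₂) * u₁) - y₁ * ((1 - u₂) * u₁) * S.D y₁ +
        y₁ * u₂ * S.D y₂ + (1 + S.N y₁) * (y₂ * u₂ * u₁ * (1 + S.D y₁)) + y₂ * u₂ * S.D y₂ +
        S.N y₁ * (y₂ * u₂ * S.D y₂) := by
    rw [show (y₁ + (1 + S.N y₁) * y₂) * (u₂ * u₁) * (1 + (S.D y₁ + (1 + S.N y₁) * S.D y₂)) =
      (y₁ + (1 + S.N y₁) * y₂) * (u₂ * u₁) * (1 + S.D y₁) +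
        (y₁ + (1 + S.N y₁) * y₂) * u₂ * (u₁ * (1 + S.N y₁)) * S.D y₂ by noncomm_ring, h1]
    noncomm_ring
  rw [t7, mul_add (y₂ * u₂) 1, mul_one]
  simp only [map_add, map_sub, t1, t2, t3, t4, t5, t6]
  ring

end Tw

end Pool.Agent.WhDet
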