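import Pool.Agent.Lib.MP_63c928_gt.WH.Pow
import Pool.Agent.Lib.MP_63c928_gt.WH.Abs

/-! The integral logarithm on the units of a monoid ring. -/

namespace Pool.Agent.WhDet

open MonoidAlgebra

theorem Tw.L_map {R T T' : Type*} [CommRing R] [Fintype R] [Ring T] [Algebra R T] [Ring T']
    [Algebra R T'] (S : Tw R T) (S' : Tw R T') (F : T →ₐ[R] T')
    (h1 : ∀ i x, F (S.s i x) = S'.s i (F x)) (h2 : ∀ x, S'.τ (F x) = S.τ x) (y u : T) :
    S'.L (F y) (F u) = S.L y u := by
  rw [Tw.L, Tw.L, ← h2, map_mul F, map_mul F, map_add F, map_one F, Tw.D, Tw.D, map_sum F]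
  simp only [map_smul F, h1]

variable {M M' : Type*} {R : Type*} [CommRing R]

/-- The linear extension of a function on `M`. -/
noncomputable def lin (f : M → R) : R[M] →ₗ[R] R :=
  (Finsupp.linearCombination R f).comp (coeffLinearEquiv R).toLinearMap

theorem lin_single (f : M → R) (x : M) (c : R) : lin f (single x c) = c * f x := by
  simp [lin]

theorem lin_mapDomain (f : M' → R) (φ : M → M') (x : R[M]) :
    lin f (mapDomain φ x) = lin (f ∘ φ) x := by
  induction x using MonoidAlgebra.induction_linear with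
  | zero => simp [mapDomain_zero]
  | add a b ha hb => rw [mapDomain_add, map_add, map_add, ha, hb]
  | single x c => rw [mapDomain_single, lin_single, lin_single]; rfl

variable [Monoid M] [Monoid M']

/-- The product `x₀ x₁ ⋯ x_{m-1}`. -/
def word {m : ℕ} (x : ZMod m → M) : M := ((List.range m).map fun j : ℕ => x j).prod

theorem word_aux (x z : ℕ → M) (n : ℕ) :
    z 0 * ((List.range n).map fun j => x j * z (j + 1)).prod =
      ((List.range n).map fun j => z j * x j).prod * z n := by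
  induction n with
  | zero => simp
  | succ n ih =>
    simp only [List.range_succ, List.map_append, List.prod_append, List.map_cons, List.map_nil,
      List.prod_cons, List.prod_nil, mul_one]
    rw [← mul_assoc, ih]
    simp only [mul_assoc]

theorem word_mul {m : ℕ} [NeZero m] {A : Type*} {f : M → A} (hf : ∀ a b, f (a * b) = f (b * a))
    (z x : ZMod m → M) : f (word (z * x)) = f (word (x * sh 1 z)) := by
  obtain ⟨n, hn⟩ := Nat.exists_eq_add_one_of_ne_zero (NeZero.ne m)
  have h := word_aux (fun j => x j) (fun j => z j) n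
  have h0 : ((n : ZMod m) + 1) = 0 := by rw [← Nat.cast_succ, Nat.succ_eq_add_one, ← hn]; simp
  have h1 : List.range m = List.range n ++ [n] := by rw [← List.range_succ, hn]
  simp only [word, h1, List.map_append, List.prod_append, List.map_cons, List.map_nil,
    List.prod_cons, List.prod_nil, mul_one, Pi.mul_apply, sh, MonoidHom.coe_mk, OneHom.coe_mk, h0]
  simp only [Nat.cast_zero, Nat.cast_add, Nat.cast_one] at h
  rw [← mul_assoc, ← h, mul_assoc, hf, mul_assoc]

theorem word_map {m : ℕ} (φ : M →* M') (x : ZMod m → M) : word (φ ∘ x) = φ (word x) := by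
  simp [word, map_list_prod, Function.comp_def]

theorem word_comm {M : Type*} [CommMonoid M] {m : ℕ} [NeZero m] (x : ZMod m → M) :
    word x = ∏ j, x j := by
  obtain ⟨n, rfl⟩ := Nat.exists_eq_add_one_of_ne_zero (NeZero.ne m)
  have h : word x = ∏ j ∈ Finset.range (n + 1), x j := by
    rw [word, ← Multiset.prod_coe, ← Multiset.map_coe]; rfl
  rw [h, Finset.prod_range]
  exact Finset.prod_congr rfl fun j _ => congrArg x (ZMod.natCast_zmod_val (n := n + 1) j)

/-- The twisted trace attached to a class function. -/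
noncomputable def tw {m : ℕ} [NeZero m] (f : M → ZMod m) (hf : ∀ a b, f (a * b) = f (b * a)) :
    Tw (ZMod m) (ZMod m)[ZMod m → M] :=
  have hmul : ∀ z x : (ZMod m)[ZMod m → M], lin (f ∘ word) (z * x) =
      lin (f ∘ word) (x * mapDomainAlgHom (ZMod m) (ZMod m) (sh 1) z) := fun z x => by
    induction z using MonoidAlgebra.induction_linear with
    | zero => simp
    | add a b ha hb => simp only [add_mul, mul_add, map_add, ha, hb]
    | single z c =>
      induction x using MonoidAlgebra.induction_linear with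
      | zero => simp
      | add a b ha hb => simp only [add_mul, mul_add, map_add, ha, hb]
      | single x d =>
        simp only [mapDomainAlgHom_apply, mapDomain_single, single_mul_single, lin_single,
          Function.comp_apply, word_mul hf z x, mul_comm]
  have hzero : ∀ x : (ZMod m)[ZMod m → M], mapDomainAlgHom (ZMod m) (ZMod m) (sh 0) x = x :=
    fun x => by
      have : sh (M := M) (0 : ZMod m) = MonoidHom.id _ := by ext x j; simp [sh]
      simp [this]
  have hadd : ∀ (i j : ZMod m) (x : (ZMod m)[ZMod m → M]),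
      mapDomainAlgHom (ZMod m) (ZMod m) (sh (i + j)) x = mapDomainAlgHom (ZMod m) (ZMod m) (sh i)
        (mapDomainAlgHom (ZMod m) (ZMod m) (sh j) x) := fun i j x => by
    simp only [mapDomainAlgHom_apply, mapDomain_comp']
    congr 1
    ext x l
    simp [sh, add_assoc]
  { s := fun i => mapDomainAlgHom (ZMod m) (ZMod m) (sh i)
    τ := lin (f ∘ word)
    s_zero := hzero
    s_add := hadd
    τ_s := fun i x => by
      rw [← ZMod.natCast_zmod_val i]
      induction i.val with
      | zero => rw [Nat.cast_zero, hzero]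
      | succ n ih =>
        have := hmul (mapDomainAlgHom (ZMod m) (ZMod m) (sh (n : ZMod m)) x) 1
        rw [mul_one, one_mul] at this
        rw [Nat.cast_succ, add_comm, hadd, ← ih, this]
    τ_mul := hmul }

/-- Reduction of coefficients. -/
noncomputable abbrev red (m : ℕ) (X : Type*) [Monoid X] : ℤ[X] →+* (ZMod m)[X] :=
  mapRingHom X (Int.castRingHom (ZMod m))

theorem red_mapDomain (m : ℕ) (φ : M →* M') (y : ℤ[M]) :
    red m M' (mapDomain φ y) = mapDomainAlgHom (ZMod m) (ZMod m) φ (red m M y) :=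
  DFunLike.congr_fun (mapRingHom_comp_mapDomainRingHom (Int.castRingHom (ZMod m)) φ) y

variable (p k : ℕ) [hp : Fact p.Prime]

/-- The subgroup of order `p`. -/
def K0 : AddSubgroup (ZMod (p ^ (k + 1))) :=
  AddSubgroup.zmultiples ((p ^ k : ℕ) : ZMod (p ^ (k + 1)))

noncomputable instance : Fintype (ZMod (p ^ (k + 1)) ⧸ K0 p k) := Fintype.ofFinite _

theorem card_K0 : Nat.card (K0 p k) = p := by
  rw [K0, Nat.card_zmultiples, ZMod.addOrderOf_coe _ (NeZero.ne _),
    Nat.gcd_eq_right (pow_dvd_pow p k.le_succ), pow_succ,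
    Nat.mul_div_cancel_left _ (pow_pos hp.out.pos k)]

theorem card_quot_K0 : Fintype.card (ZMod (p ^ (k + 1)) ⧸ K0 p k) = p ^ k := by
  have := AddSubgroup.card_eq_card_quotient_mul_card_addSubgroup (K0 p k)
  rw [card_K0, Nat.card_zmod, Nat.card_eq_fintype_card] at this
  exact Nat.eq_of_mul_eq_mul_right hp.out.pos (this.symm.trans (pow_succ p k))

theorem K0_le (L : AddSubgroup (ZMod (p ^ (k + 1)))) (hL : L ≠ ⊥) :
    K0 p k ≤ L ∧ ∃ r, Nat.card L = p ^ (r + 1) := by
  constructor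
  · obtain ⟨⟨x, hx⟩, hx0⟩ := AddSubgroup.ne_bot_iff_exists_ne_zero.1 hL
    have hx1 : x.val ≠ 0 := by simpa using hx0
    obtain ⟨a, b, hb, hab⟩ := Nat.exists_eq_pow_mul_and_not_dvd hx1 p hp.out.ne_one
    have ha : a ≤ k := by
      by_contra h
      have h1 : p ^ (k + 1) ∣ x.val := hab ▸ (pow_dvd_pow p (by omega)).mul_right b
      exact hx1 (Nat.eq_zero_of_dvd_of_lt h1 x.val_lt)
    obtain ⟨u, hu⟩ : IsUnit (b : ZMod (p ^ (k + 1))) :=
      (ZMod.isUnit_iff_coprime _ _).2 ((Nat.coprime_comm.1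
        ((Nat.Prime.coprime_iff_not_dvd hp.out).2 hb)).pow_right _)
    obtain ⟨c, rfl⟩ := Nat.exists_eq_add_of_le ha
    rw [K0, AddSubgroup.zmultiples_le]
    convert L.nsmul_mem hx ((p : ZMod (p ^ (a + c + 1))) ^ c * (u⁻¹).val).val using 1
    rw [nsmul_eq_mul, ZMod.natCast_zmod_val, ← ZMod.natCast_zmod_val x, hab]
    push_cast
    rw [← hu]
    linear_combination (-(p : ZMod (p ^ (a + c + 1))) ^ (a + c)) * u.inv_mul
  · have h := AddSubgroup.card_addSubgroup_dvd_card L
    rw [Nat.card_zmod, Nat.dvd_prime_pow hp.out] at h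
    obtain ⟨r, -, hr⟩ := h
    rcases r with _ | r
    · exact absurd (AddSubgroup.eq_bot_of_card_eq _ (by simpa using hr)) hL
    · exact ⟨r, hr⟩

/-- `y` is a witness for `a`: `P(a) D(a)⁻¹ = 1 + N y`. -/
def Wit (a : ℤ[M]ˣ) (y : ℤ[ZMod (p ^ (k + 1)) → M]) : Prop :=
  1 + ∑ i, mapDomain (sh i) y = Pw _ a.val * Dg (K0 p k) (a⁻¹).val

/-- The inverse of `P(a) D(a)⁻¹`. -/
noncomputable def Uinv (a : ℤ[M]ˣ) : ℤ[ZMod (p ^ (k + 1)) → M] :=
  Dg (K0 p k) a.val * Pw _ (a⁻¹).val

variable {p k}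

theorem exists_wit (hodd : Odd p) (a : ℤ[M]ˣ) : ∃ y, Wit p k a y := by
  obtain ⟨y, hy⟩ := exists_norm_Pw_sub_Dg (K0 p k) hp.out hodd (card_K0 p k) (K0_le p k) a.val
  refine ⟨y * Dg (K0 p k) (a⁻¹).val, ?_⟩
  simp only [Wit, mapDomain_mul, sh_Dg, ← Finset.sum_mul, hy, sub_mul, ← Dg_mul, Units.mul_inv,
    Dg_one, add_sub_cancel]

variable (f : M → ZMod (p ^ (k + 1))) (hf : ∀ a b, f (a * b) = f (b * a))

theorem N_red (y : ℤ[ZMod (p ^ (k + 1)) → M]) :
    (tw f hf).N (red _ _ y) = red _ _ (∑ i, mapDomain (sh i) y) := by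
  rw [map_sum]
  exact Finset.sum_congr rfl fun i _ => (red_mapDomain _ _ _).symm

theorem Wit.left {a : ℤ[M]ˣ} {y} (h : Wit p k a y) :
    red _ _ (Uinv p k a) * (1 + (tw f hf).N (red _ _ y)) = 1 := by
  rw [N_red, ← map_one (red _ _), ← map_add, h, ← map_mul, Uinv, mul_assoc, ← mul_assoc (Pw _ _),
    ← Pw_mul, Units.inv_mul, Pw_one, one_mul, ← Dg_mul, Units.mul_inv, Dg_one]

theorem Wit.right {a : ℤ[M]ˣ} {y} (h : Wit p k a y) :
    (1 + (tw f hf).N (red _ _ y)) * red _ _ (Uinv p k a) = 1 := by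
  rw [N_red, ← map_one (red _ _), ← map_add, h, ← map_mul, Uinv, mul_assoc, ← mul_assoc (Dg _ _),
    ← Dg_mul, Units.inv_mul, Dg_one, one_mul, ← Pw_mul, Units.mul_inv, Pw_one]

variable (hodd : Odd p)

/-- The logarithm as a function. -/
noncomputable def lg (a : ℤ[M]ˣ) : ZMod (p ^ (k + 1)) :=
  (tw f hf).L (red _ _ (exists_wit hodd a).choose) (red _ _ (Uinv p k a))

theorem lg_eq {a : ℤ[M]ˣ} {y} (h : Wit p k a y) :
    lg f hf hodd a = (tw f hf).L (red _ _ y) (red _ _ (Uinv p k a)) := by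
  have h' := (exists_wit (k := k) hodd a).choose_spec
  obtain ⟨z, hz⟩ := exists_sub_of_sum_sh (1 : ZMod (p ^ (k + 1)))
    (fun i => ⟨i.val, by simp⟩) ((exists_wit (k := k) hodd a).choose - y) (by
      simp only [← mapDomainRingHom_apply, map_sub, Finset.sum_sub_distrib]
      exact sub_eq_zero.2 (add_left_cancel (h'.trans h.symm)))
  rw [lg, eq_add_of_sub_eq' hz, map_add, map_sub, red_mapDomain]
  exact (tw f hf).L_indep _ _ _ (h.left f hf) (h.right f hf)

theorem conj_aux {T : Type*} [Monoid T] {g g' a b : T} (e1 : g' * g = 1) (e2 : g * g' = 1)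
    (h : a * b = 1) : g * a * g' * (g * b * g') = 1 := by
  rw [show g * a * g' * (g * b * g') = g * (a * (g' * g) * b) * g' by simp only [mul_assoc], e1,
    mul_one, h, mul_one, e2]

theorem lg_mul (a b : ℤ[M]ˣ) : lg f hf hodd (a * b) = lg f hf hodd a + lg f hf hodd b := by
  obtain ⟨y, hy⟩ := exists_wit (k := k) hodd a
  obtain ⟨z, hz⟩ := exists_wit (k := k) hodd b
  have d1 : Dg (K0 p k) (a⁻¹).val * Dg (K0 p k) a.val = 1 := by
    rw [← Dg_mul, Units.inv_mul, Dg_one]
  have d2 : Dg (K0 p k) a.val * Dg (K0 p k) (a⁻¹).val = 1 := by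
    rw [← Dg_mul, Units.mul_inv, Dg_one]
  have hw : Wit p k (a * b) (y + (1 + ∑ i, mapDomain (sh i) y) *
      (Dg (K0 p k) a.val * z * Dg (K0 p k) (a⁻¹).val)) := by
    rw [Wit] at hy hz ⊢
    rw [hy]
    simp only [mapDomain_add, mapDomain_mul, sh_Dg, sh_Pw, Finset.sum_add_distrib,
      ← Finset.mul_sum, ← Finset.sum_mul, mul_inv_rev, Units.val_mul, Pw_mul, Dg_mul]
    rw [← add_assoc, hy, eq_sub_of_add_eq' hz]
    simp only [mul_sub, sub_mul, mul_one, d2, mul_assoc]
    rw [← mul_assoc (Dg _ (a⁻¹).val), d1, one_mul, add_sub_cancel]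
  have hinv : (tw f hf).Inv (red _ _ (Dg (K0 p k) a.val)) := fun i =>
    (red_mapDomain _ _ _).symm.trans (congrArg _ (sh_Dg _ i _))
  have hinv' : (tw f hf).Inv (red _ _ (Dg (K0 p k) (a⁻¹).val)) := fun i =>
    (red_mapDomain _ _ _).symm.trans (congrArg _ (sh_Dg _ i _))
  have e1 := congrArg (red (p ^ (k + 1)) _) d1
  have e2 := congrArg (red (p ^ (k + 1)) _) d2
  rw [map_mul, map_one] at e1 e2
  have hu : Uinv p k (a * b) = Dg (K0 p k) a.val * Uinv p k b * Dg (K0 p k) (a⁻¹).val *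
      Uinv p k a := by
    simp only [Uinv, mul_inv_rev, Units.val_mul, Pw_mul, Dg_mul, mul_assoc]
    rw [← mul_assoc (Dg _ (a⁻¹).val), d1, one_mul]
  rw [lg_eq f hf hodd hw, lg_eq f hf hodd hy, lg_eq f hf hodd hz, hu,
    ← (tw f hf).L_conj (red _ _ z) _ _ _ hinv e1 e2]
  simp only [map_add, map_mul, map_one, ← N_red f hf]
  have hl := hz.left f hf
  have hr := hz.right f hf
  generalize red _ _ (Dg (K0 p k) a.val) = g at *
  generalize red _ _ (Dg (K0 p k) (a⁻¹).val) = g' at *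
  have hN : 1 + (tw f hf).N (g * red _ _ z * g') = g * (1 + (tw f hf).N (red _ _ z)) * g' := by
    rw [hinv'.N_mul', hinv.N_mul, mul_add, add_mul, mul_one, e2]
  refine (tw f hf).L_add _ _ _ _ (hy.left f hf) (hy.right f hf) ?_ ?_
  · rw [hN, conj_aux e1 e2 hl]
  · rw [hN, conj_aux e1 e2 hr]

theorem lg_map (f' : M' → ZMod (p ^ (k + 1))) (hf' : ∀ a b, f' (a * b) = f' (b * a)) (φ : M →* M')
    (hφ : ∀ x, f' (φ x) = f x) (a : ℤ[M]ˣ) (b : ℤ[M']ˣ) (hb : b.val = mapDomain φ a.val) :
    lg f' hf' hodd b = lg f hf hodd a := by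
  obtain ⟨y, hy⟩ := exists_wit (k := k) hodd a
  have hb' : (b⁻¹).val = mapDomain φ (a⁻¹).val := by
    refine (Units.eq_inv_of_mul_eq_one_left ?_).symm
    rw [hb, ← mapDomain_mul, Units.mul_inv, mapDomain_one]
  let Φ : (ZMod (p ^ (k + 1)) → M) →* (ZMod (p ^ (k + 1)) → M') := φ.compLeft _
  have hw : Wit p k b (mapDomain Φ y) := by
    have := congrArg (mapDomain Φ) hy
    rw [mapDomain_add, mapDomain_one, mapDomain_finsum, mapDomain_mul] at this
    rw [Wit, hb, hb', Pw_mapDomain, Dg_mapDomain]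
    simp only [mapDomain_comp'] at this ⊢
    exact this
  have hu : Uinv p k b = mapDomain Φ (Uinv p k a) := by
    rw [Uinv, Uinv, hb, hb', Pw_mapDomain, Dg_mapDomain, mapDomain_mul]
    rfl
  rw [lg_eq f' hf' hodd hw, lg_eq f hf hodd hy, hu, red_mapDomain, red_mapDomain]
  refine Tw.L_map _ _ _ (fun i x => ?_) (fun x => ?_) _ _
  · simp only [tw, mapDomainAlgHom_apply, mapDomain_comp']
    rfl
  · simp only [tw, mapDomainAlgHom_apply, lin_mapDomain]
    congr 2
    ext x
    exact (congrArg f' (word_map φ x)).trans (hφ _)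

section Comm

variable {M : Type*} [CommMonoid M]

theorem Wit.prod {a : ℤ[M]ˣ} {y} (h : Wit p k a y) :
    p ^ (k + 1) • mapDomain (fun x => ∏ j, x j) y =
      a.val ^ p ^ (k + 1) * mapDomain (powMonoidHom p) (a⁻¹).val ^ p ^ k - 1 := by
  let μ : (ZMod (p ^ (k + 1)) → M) →* M := ∏ j, Pi.evalMonoidHom _ j
  have hμ : ⇑μ = fun x => ∏ j, x j := by ext x; simp [μ]
  have := congrArg (mapDomain μ) h
  rw [mapDomain_add, mapDomain_one, mapDomain_finsum, mapDomain_mul, hμ, mapDomain_prod_Pw,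
    ZMod.card, Dg, mapDomain_comp'] at this
  have h1 : ∀ i : ZMod (p ^ (k + 1)), (fun x : ZMod (p ^ (k + 1)) → M => ∏ j, x j) ∘ sh i =
      fun x => ∏ j, x j := fun i => funext fun x => Equiv.prod_comp (Equiv.addRight i) x
  have h2 : (fun x : ZMod (p ^ (k + 1)) → M => ∏ j, x j) ∘ infl (K0 p k) =
      powMonoidHom p ∘ fun x => ∏ j, x j := funext fun x => by
    have := prod_of_invariant (K0 p k) (fun i => x i) fun i κ hκ => by
      rw [QuotientAddGroup.mk_add_of_mem _ hκ]
    simp only [card_K0, QuotientAddGroup.out_eq'] at this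
    exact this
  simp only [mapDomain_comp', h1, Finset.sum_const, Finset.card_univ, ZMod.card] at this
  rw [h2, ← mapDomain_comp', mapDomain_prod_Pw, card_quot_K0] at this
  rw [eq_sub_iff_add_eq', this]
  exact congrArg _ (map_pow (mapDomainRingHom ℤ (powMonoidHom p)) _ _)

include hodd in
theorem exists_w (a : ℤ[M]ˣ) : ∃ w : ℤ[M], p ^ (k + 1) • w =
    a.val ^ p ^ (k + 1) * mapDomain (powMonoidHom p) (a⁻¹).val ^ p ^ k - 1 :=
  ⟨_, (exists_wit (k := k) hodd a).choose_spec.prod⟩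

theorem lg_comm (f : M → ZMod (p ^ (k + 1))) (hf : ∀ a b, f (a * b) = f (b * a)) (a : ℤ[M]ˣ)
    (w : ℤ[M]) (hw : p ^ (k + 1) • w =
      a.val ^ p ^ (k + 1) * mapDomain (powMonoidHom p) (a⁻¹).val ^ p ^ k - 1) :
    lg f hf hodd a = lin f (red _ _ w) := by
  obtain ⟨y, hy⟩ := exists_wit (k := k) hodd a
  let μ : (ZMod (p ^ (k + 1)) → M) →* M := ∏ j, Pi.evalMonoidHom _ j
  have hμ : ⇑μ = fun x => ∏ j, x j := by ext x; simp [μ]
  have hwy : w = mapDomain μ y := by
    rw [← hy.prod, ← hμ] at hw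
    ext x
    have := congrArg (fun t => t.coeff x) hw
    simp only [coeff_smul_apply] at this
    exact nsmul_right_injective (NeZero.ne _) this
  let S : Tw (ZMod (p ^ (k + 1))) (ZMod (p ^ (k + 1)))[M] :=
    ⟨fun _ => AlgHom.id _ _, lin f, fun _ => rfl, fun _ _ _ => rfl, fun _ _ => rfl,
      fun z x => by rw [mul_comm]; rfl⟩
  have hs : ∀ i x, mapDomainAlgHom (ZMod (p ^ (k + 1))) _ μ ((tw f hf).s i x) =
      mapDomainAlgHom (ZMod (p ^ (k + 1))) _ μ x := by
    intro i x
    simp only [tw, mapDomainAlgHom_apply, mapDomain_comp', hμ]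
    exact congrArg (mapDomain · x) (funext fun x => Equiv.prod_comp (Equiv.addRight i) x)
  rw [lg_eq f hf hodd hy, ← Tw.L_map (tw f hf) S (mapDomainAlgHom _ _ μ) hs (fun x => by
    simp only [tw, S, mapDomainAlgHom_apply, lin_mapDomain, hμ]
    congr 2
    ext x
    simp [word_comm])]
  have h1 := congrArg (mapDomainAlgHom (ZMod (p ^ (k + 1))) (ZMod (p ^ (k + 1))) μ) (hy.left f hf)
  rw [map_mul, map_add, map_one, Tw.N, map_sum] at h1
  simp only [hs, Finset.sum_const, Finset.card_univ, ZMod.card] at h1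
  rw [← Nat.cast_smul_eq_nsmul (ZMod (p ^ (k + 1))), ZMod.natCast_self, zero_smul, add_zero,
    mul_one] at h1
  have h2 : ∑ j : ZMod (p ^ (k + 1)), j = 0 := by
    have h3 := Equiv.sum_comp (Equiv.neg (ZMod (p ^ (k + 1)))) fun j => j
    simp only [Equiv.neg_apply] at h3
    rw [Finset.sum_neg_distrib] at h3
    have h4 : IsUnit ((2 : ℕ) : ZMod (p ^ (k + 1))) :=
      (ZMod.isUnit_iff_coprime _ _).2 (Nat.coprime_two_left.2 hodd.pow)
    refine h4.mul_right_eq_zero.1 ?_
    push_cast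
    linear_combination -h3
  rw [Tw.L, h1, Tw.D, hwy, red_mapDomain]
  simp only [S, AlgHom.id_apply, ← Finset.sum_smul, h2, zero_smul, add_zero, mul_one]

end Comm

end Pool.Agent.WhDet
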