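import Mathlib

/-! Rational matrix representations of a finite group with equal characters are isomorphic. -/

namespace Pool.Agent.WhDet

open Matrix Kronecker

theorem idem_trace {X : Type*} [Fintype X] [DecidableEq X] {e : Matrix X X ℚ} (he : e * e = e) :
    ∃ n : ℕ, e.trace = n ∧ (n = 0 → e = 0) := by
  have h : IsIdempotentElem (toLin' e) := by
    rw [IsIdempotentElem, Module.End.mul_eq_comp, ← toLin'_mul, he]
  refine ⟨_, by rw [← trace_toLin'_eq, (LinearMap.IsIdempotentElem.isProj_range _ h).trace], fun h0 => ?_⟩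
  rw [Submodule.finrank_eq_zero, LinearMap.range_eq_bot] at h0
  exact toLin'.map_eq_zero_iff.1 h0

theorem exists_pinv {X Y : Type*} [Fintype X] [DecidableEq X] [Fintype Y] [DecidableEq Y]
    (f : Matrix Y X ℚ) : ∃ g : Matrix X Y ℚ, f * g * f = f := by
  obtain ⟨r, hr⟩ := (toLin' f).rangeRestrict.exists_rightInverse_of_surjective
    (toLin' f).range_rangeRestrict
  obtain ⟨g, hg⟩ := r.exists_extend
  refine ⟨LinearMap.toMatrix' g, toLin'.injective ?_⟩
  rw [toLin'_mul, toLin'_mul, toLin'_toMatrix']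
  refine LinearMap.ext fun v => ?_
  have h1 := LinearMap.congr_fun hg ⟨toLin' f v, v, rfl⟩
  have h2 := congrArg Subtype.val (LinearMap.congr_fun hr ⟨toLin' f v, v, rfl⟩)
  simp only [LinearMap.comp_apply, Submodule.subtype_apply] at h1 ⊢
  rw [h1]
  exact h2

variable {H X Y : Type*} [Group H] [Fintype H] [Fintype X] [DecidableEq X] [Fintype Y]
  [DecidableEq Y]

theorem avg_comm (ρ : H →* Matrix X X ℚ) (σ : H →* Matrix Y Y ℚ) (F : Matrix Y X ℚ) (k : H) :
    (∑ h, σ h * F * ρ h⁻¹) * ρ k = σ k * ∑ h, σ h * F * ρ h⁻¹ := by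
  rw [Matrix.sum_mul, Matrix.mul_sum, ← Equiv.sum_comp (Equiv.mulLeft k)]
  refine Finset.sum_congr rfl fun h _ => ?_
  simp only [Equiv.coe_mulLeft, Matrix.mul_assoc, ← map_mul]
  simp [Matrix.mul_assoc]

theorem eq_zero_of_char (ρ : H →* Matrix X X ℚ) {p : Matrix X X ℚ} (hp : p * p = p)
    (hc : ∀ h, p * ρ h = ρ h * p) (h0 : ∑ h, (ρ h * p).trace * (p * ρ h⁻¹).trace = 0) :
    p = 0 := by
  have hH : (Fintype.card H : ℚ) ≠ 0 := Nat.cast_ne_zero.2 Fintype.card_ne_zero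
  set K := ∑ h, (ρ h * p) ⊗ₖ (p * ρ h⁻¹)ᵀ with hK
  have h1 : ∀ h k, ρ h * p * (ρ k * p) = ρ (h * k) * p := fun h k => by
    rw [map_mul, ← hc k, mul_assoc, ← mul_assoc p, hp, hc, mul_assoc]
  have h2 : ∀ h k, p * ρ h * (p * ρ k) = p * ρ (h * k) := fun h k => by
    rw [map_mul, hc h, mul_assoc, ← mul_assoc p, hp, ← mul_assoc, ← hc, mul_assoc]
  have hKK : K * K = (Fintype.card H : ℚ) • K := by
    rw [hK, Finset.sum_mul, Nat.cast_smul_eq_nsmul, ← Finset.card_univ, ← Finset.sum_const]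
    refine Finset.sum_congr rfl fun h _ => ?_
    rw [Finset.mul_sum, ← Equiv.sum_comp (Equiv.mulLeft h) (fun h => (ρ h * p) ⊗ₖ (p * ρ h⁻¹)ᵀ)]
    refine Finset.sum_congr rfl fun k _ => ?_
    rw [← mul_kronecker_mul, ← transpose_mul, h1, h2]
    simp
  obtain ⟨n, hn, hn0⟩ := idem_trace (e := (Fintype.card H : ℚ)⁻¹ • K) (by
    rw [smul_mul_assoc, mul_smul_comm, hKK, smul_smul, smul_smul, inv_mul_cancel_right₀ hH])
  have htr : K.trace = 0 := by
    rw [hK, trace_sum, ← h0]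
    simp only [trace_kronecker, trace_transpose]
  rw [trace_smul, htr, smul_zero] at hn
  have hK0 : K = 0 := by
    simpa [hH] using hn0 (by exact_mod_cast hn.symm)
  ext a d
  have h3 : ∑ b, K (a, d) (b, b) = Fintype.card H * p a d := by
    simp only [hK, Matrix.sum_apply, kroneckerMap_apply, transpose_apply]
    rw [Finset.sum_comm]
    simp only [← mul_apply]
    have : ∀ h, ρ h * p * (p * ρ h⁻¹) = p := fun h => by
      rw [hc h⁻¹, h1]; simp
    simp [this]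
  simpa [hK0, hH] using h3

theorem exists_equivariant (ρ : H →* Matrix X X ℚ) (σ : H →* Matrix Y Y ℚ) {p : Matrix X X ℚ}
    {q : Matrix Y Y ℚ} (hp : p * p = p) (hq : q * q = q) (hc : ∀ h, p * ρ h = ρ h * p)
    (hd : ∀ h, q * σ h = σ h * q) (htr : ∀ h, (ρ h * p).trace = (σ h * q).trace) (hp0 : p ≠ 0) :
    ∃ f : Matrix Y X ℚ, f ≠ 0 ∧ q * f = f ∧ f * p = f ∧ ∀ h, f * ρ h = σ h * f := by
  by_contra hne
  push Not at hne
  have key : ∀ F : Matrix Y X ℚ, ∑ h, σ h * (q * F * p) * ρ h⁻¹ = 0 := by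
    intro F
    by_contra h0
    obtain ⟨h, hh⟩ := hne _ h0 (by
      rw [Matrix.mul_sum]
      refine Finset.sum_congr rfl fun h _ => ?_
      simp only [← Matrix.mul_assoc]
      rw [hd, mul_assoc _ q, hq]) (by
      rw [Matrix.sum_mul]
      refine Finset.sum_congr rfl fun h _ => ?_
      simp only [Matrix.mul_assoc]
      rw [← hc, ← mul_assoc p, hp])
    exact hh (avg_comm ρ σ _ h)
  refine hp0 (eq_zero_of_char ρ hp hc ?_)
  simp only [htr]
  have h1 : ∀ y x, ∑ h, (σ h * q) y y * (p * ρ h⁻¹) x x = 0 := fun y x => by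
    have := congrFun (congrFun (key (single y x 1)) y) x
    rw [Matrix.sum_apply] at this
    refine Eq.trans (Finset.sum_congr rfl fun h _ => ?_) this
    rw [show σ h * (q * single y x (1 : ℚ) * p) * ρ h⁻¹ =
      σ h * q * single y x (1 : ℚ) * (p * ρ h⁻¹) by simp only [Matrix.mul_assoc]]
    generalize σ h * q = A
    generalize p * ρ h⁻¹ = B
    simp [mul_apply, single_apply, ite_and]
  simp only [trace, diag_apply, Finset.sum_mul_sum]
  rw [Finset.sum_comm]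
  refine Finset.sum_eq_zero fun y _ => ?_
  rw [Finset.sum_comm]
  exact Finset.sum_eq_zero fun x _ => h1 y x

theorem exists_equivariant_pinv (ρ : H →* Matrix X X ℚ) (σ : H →* Matrix Y Y ℚ)
    {p : Matrix X X ℚ} {q : Matrix Y Y ℚ} (hp : p * p = p) (hq : q * q = q)
    (hc : ∀ h, p * ρ h = ρ h * p) (hd : ∀ h, q * σ h = σ h * q) {f : Matrix Y X ℚ}
    (hf1 : q * f = f) (hf2 : f * p = f) (hf : ∀ h, f * ρ h = σ h * f) :
    ∃ g : Matrix X Y ℚ, f * g * f = f ∧ g * f * g = g ∧ p * g = g ∧ g * q = g ∧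
      ∀ h, g * σ h = ρ h * g := by
  have hH : (Fintype.card H : ℚ) ≠ 0 := Nat.cast_ne_zero.2 Fintype.card_ne_zero
  obtain ⟨g0, h0⟩ := exists_pinv f
  obtain ⟨g, hg1, hg2⟩ : ∃ g : Matrix X Y ℚ, f * g * f = f ∧ ∀ h, g * σ h = ρ h * g := by
    refine ⟨(Fintype.card H : ℚ)⁻¹ • ∑ h, ρ h * g0 * σ h⁻¹, ?_, fun h => ?_⟩
    · have : ∀ h, f * (ρ h * g0 * σ h⁻¹) * f = f := fun h => by
        calc f * (ρ h * g0 * σ h⁻¹) * f = f * ρ h * g0 * (σ h⁻¹ * f) := by
              simp only [Matrix.mul_assoc]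
          _ = σ h * (f * g0 * f) * ρ h⁻¹ := by rw [hf h, ← hf h⁻¹]; simp only [Matrix.mul_assoc]
          _ = f := by rw [h0, ← hf, Matrix.mul_assoc, ← map_mul]; simp
      rw [Matrix.mul_smul, Matrix.smul_mul, Matrix.mul_sum, Matrix.sum_mul]
      simp only [this, Finset.sum_const, Finset.card_univ]
      rw [← Nat.cast_smul_eq_nsmul ℚ, smul_smul, inv_mul_cancel₀ hH, one_smul]
    · rw [Matrix.smul_mul, Matrix.mul_smul, avg_comm]
  have e1 : ∀ Z : Matrix X Y ℚ, f * (p * Z) = f * Z := fun Z => by rw [← Matrix.mul_assoc, hf2]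
  have e2 : ∀ Z : Matrix X Y ℚ, q * (f * Z) = f * Z := fun Z => by rw [← Matrix.mul_assoc, hf1]
  have e3 : ∀ Z : Matrix X Y ℚ, f * (g * (f * Z)) = f * Z := fun Z => by
    rw [← Matrix.mul_assoc, ← Matrix.mul_assoc, hg1]
  have e4 : f * (g * f) = f := by rw [← Matrix.mul_assoc, hg1]
  refine ⟨p * g * f * g * q, ?_, ?_, ?_, ?_, fun h => ?_⟩
  · simp only [Matrix.mul_assoc, e1, hf1, e4]
  · simp only [Matrix.mul_assoc, e1, e2, e3]
  · simp only [← Matrix.mul_assoc, hp]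
  · simp only [Matrix.mul_assoc, hq]
  · have t1 : ∀ Z : Matrix Y Y ℚ, g * (σ h * Z) = ρ h * (g * Z) := fun Z => by
      rw [← Matrix.mul_assoc, hg2, Matrix.mul_assoc]
    have t2 : ∀ Z : Matrix X Y ℚ, f * (ρ h * Z) = σ h * (f * Z) := fun Z => by
      rw [← Matrix.mul_assoc, hf, Matrix.mul_assoc]
    have t3 : ∀ Z : Matrix X Y ℚ, p * (ρ h * Z) = ρ h * (p * Z) := fun Z => by
      rw [← Matrix.mul_assoc, hc, Matrix.mul_assoc]
    simp only [Matrix.mul_assoc, hd, t1, t2, t3]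

theorem exists_iso_aux (ρ : H →* Matrix X X ℚ) (σ : H →* Matrix Y Y ℚ) (n : ℕ) :
    ∀ (p : Matrix X X ℚ) (q : Matrix Y Y ℚ), p * p = p → q * q = q → (∀ h, p * ρ h = ρ h * p) →
      (∀ h, q * σ h = σ h * q) → (∀ h, (ρ h * p).trace = (σ h * q).trace) → p.trace = n →
      ∃ (φ : Matrix Y X ℚ) (ψ : Matrix X Y ℚ), ψ * φ = p ∧ φ * ψ = q ∧ φ * p = φ ∧ p * ψ = ψ ∧
        ∀ h, φ * ρ h = σ h * φ := by
  induction n using Nat.strong_induction_on with
  | _ n ih =>
  intro p q hp hq hc hd htr hn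
  by_cases hp0 : p = 0
  · obtain ⟨m, hm, hm0⟩ := idem_trace hq
    have h1 := htr 1
    rw [map_one, map_one, one_mul, one_mul, hp0, trace_zero, hm] at h1
    exact ⟨0, 0, by simp [hp0], by simp [hm0 (by exact_mod_cast h1.symm)], by simp, by simp,
      by simp⟩
  obtain ⟨f, hf0, hf1, hf2, hf⟩ := exists_equivariant ρ σ hp hq hc hd htr hp0
  obtain ⟨g, hg1, hg2, hg3, hg4, hg⟩ := exists_equivariant_pinv ρ σ hp hq hc hd hf1 hf2 hf
  have a1 : g * f * (g * f) = g * f := by rw [← Matrix.mul_assoc, hg2]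
  have a2 : f * g * (f * g) = f * g := by rw [← Matrix.mul_assoc, hg1]
  have a3 : p * (g * f) = g * f := by rw [← Matrix.mul_assoc, hg3]
  have a4 : g * f * p = g * f := by rw [Matrix.mul_assoc, hf2]
  have a5 : q * (f * g) = f * g := by rw [← Matrix.mul_assoc, hf1]
  have a6 : f * g * q = f * g := by rw [Matrix.mul_assoc, hg4]
  have hp' : (p - g * f) * (p - g * f) = p - g * f := by
    rw [mul_sub, sub_mul, sub_mul, hp, a1, a3, a4, sub_self, sub_zero]
  obtain ⟨k, hk, hk0⟩ := idem_trace a1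
  obtain ⟨m, hm, -⟩ := idem_trace hp'
  have hk1 : k ≠ 0 := fun h => hf0 (by rw [← hg1, Matrix.mul_assoc, hk0 h, Matrix.mul_zero])
  have hmn : m < n := by
    rw [trace_sub, hn, hk] at hm
    have : n = m + k := by exact_mod_cast sub_eq_iff_eq_add.1 hm
    omega
  obtain ⟨φ, ψ, b1, b2, b3, b4, b5⟩ := ih m hmn (p - g * f) (q - f * g) hp'
    (by rw [mul_sub, sub_mul, sub_mul, hq, a2, a5, a6, sub_self, sub_zero])
    (fun h => by rw [mul_sub, sub_mul, hc, Matrix.mul_assoc, hf, ← Matrix.mul_assoc, hg,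
      Matrix.mul_assoc])
    (fun h => by rw [mul_sub, sub_mul, hd, Matrix.mul_assoc, hg, ← Matrix.mul_assoc, hf,
      Matrix.mul_assoc])
    (fun h => by
      rw [mul_sub, mul_sub, trace_sub, trace_sub, htr, ← Matrix.mul_assoc, trace_mul_comm _ f,
        ← Matrix.mul_assoc, hf, Matrix.mul_assoc]) hm
  have b6 : (q - f * g) * φ = φ := by rw [← b2, Matrix.mul_assoc, b1, b3]
  have b7 : ψ * (q - f * g) = ψ := by rw [← b2, ← Matrix.mul_assoc, b1, b4]
  have c1 : ψ * f = 0 := by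
    rw [← b7, Matrix.mul_assoc, Matrix.sub_mul, hf1, hg1, sub_self, Matrix.mul_zero]
  have c2 : g * φ = 0 := by
    rw [← b6, ← Matrix.mul_assoc, Matrix.mul_sub, hg4, ← Matrix.mul_assoc, hg2, sub_self,
      Matrix.zero_mul]
  have c3 : φ * g = 0 := by
    rw [← b3, Matrix.mul_assoc, Matrix.sub_mul, hg3, hg2, sub_self, Matrix.mul_zero]
  have c4 : f * ψ = 0 := by
    rw [← b4, ← Matrix.mul_assoc, Matrix.mul_sub, hf2, ← Matrix.mul_assoc, hg1, sub_self,
      Matrix.zero_mul]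
  refine ⟨φ + f, ψ + g, ?_, ?_, ?_, ?_, fun h => ?_⟩
  · rw [Matrix.mul_add, Matrix.add_mul, Matrix.add_mul, b1, c1, c2]; abel
  · rw [Matrix.mul_add, Matrix.add_mul, Matrix.add_mul, b2, c3, c4]; abel
  · rw [Matrix.add_mul, hf2, ← b3, Matrix.mul_assoc, sub_mul, hp, a4]
  · rw [Matrix.mul_add, hg3, ← b4, ← Matrix.mul_assoc, mul_sub, hp, a3]
  · rw [Matrix.add_mul, Matrix.mul_add, b5, hf]

theorem exists_int_mul {X Y : Type*} [Fintype X] [Fintype Y] (φ : Matrix Y X ℚ) :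
    ∃ (n : ℕ) (φ' : Matrix Y X ℤ), n ≠ 0 ∧ φ'.map (Int.castRingHom ℚ) = (n : ℚ) • φ := by
  obtain ⟨⟨b, hb⟩, h⟩ := IsLocalization.exist_integer_multiples_of_finite (nonZeroDivisors ℤ)
    (fun a : Y × X => φ a.1 a.2)
  have hb0 : b ≠ 0 := nonZeroDivisors.ne_zero hb
  choose c hc using h
  refine ⟨(b * b).natAbs, of fun y x => b * c (y, x), by simpa using hb0, ?_⟩
  ext y x
  have := hc (y, x)
  simp only [eq_intCast, zsmul_eq_mul, algebraMap_int_eq] at this
  simp only [map_apply, of_apply, eq_intCast, Int.cast_mul, this, Matrix.smul_apply, smul_eq_mul]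
  rw [← mul_assoc, Nat.cast_natAbs, abs_mul_self, Int.cast_mul]

/-- Integral representations with equal characters are isomorphic up to an integer. -/
theorem exists_int_iso (ρ : H →* Matrix X X ℤ) (σ : H →* Matrix Y Y ℤ)
    (htr : ∀ h, (ρ h).trace = (σ h).trace) :
    ∃ (N : ℕ) (φ : Matrix Y X ℤ) (ψ : Matrix X Y ℤ), N ≠ 0 ∧ ψ * φ = N • 1 ∧ φ * ψ = N • 1 ∧
      ∀ h, φ * ρ h = σ h * φ := by
  let c := Int.castRingHom ℚ
  have hinj : Function.Injective c := Int.cast_injective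
  obtain ⟨φ, ψ, h1, h2, -, -, h3⟩ := exists_iso_aux (c.mapMatrix.toMonoidHom.comp ρ)
    (c.mapMatrix.toMonoidHom.comp σ) (Fintype.card X) 1 1 (one_mul _) (one_mul _) (by simp)
    (by simp) (fun h => by
      simp only [mul_one]
      exact (AddMonoidHom.map_trace c (ρ h)).symm.trans
        ((congrArg c (htr h)).trans (AddMonoidHom.map_trace c (σ h)))) (by simp)
  obtain ⟨n, φ', hn, hφ⟩ := exists_int_mul φ
  obtain ⟨m, ψ', hm, hψ⟩ := exists_int_mul ψ
  refine ⟨m * n, φ', ψ', mul_ne_zero hm hn, map_injective hinj ?_, map_injective hinj ?_,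
    fun h => map_injective hinj ?_⟩
  · change (ψ' * φ').map c = ((m * n) • (1 : Matrix X X ℤ)).map c
    rw [Matrix.map_mul, hφ, hψ, Matrix.smul_mul, Matrix.mul_smul, h1, smul_smul]
    ext i j
    rw [map_apply, Matrix.smul_apply, Matrix.smul_apply]
    simp [one_apply, c]
  · change (φ' * ψ').map c = ((m * n) • (1 : Matrix Y Y ℤ)).map c
    rw [Matrix.map_mul, hφ, hψ, Matrix.smul_mul, Matrix.mul_smul, h2, smul_smul]
    ext i j
    rw [map_apply, Matrix.smul_apply, Matrix.smul_apply]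
    simp [one_apply, c, mul_comm]
  · change (φ' * ρ h).map c = (σ h * φ').map c
    rw [Matrix.map_mul, Matrix.map_mul, hφ, Matrix.smul_mul, Matrix.mul_smul]
    exact congrArg _ (h3 h)

end Pool.Agent.WhDet
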