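import Pool.Agent.Lib.MP_63c928_gt.WH.SK1
import Pool.Agent.Lib.MP_63c928_gt.WH.Rep

/-! Artin induction for `K₁(ℤH)` up to torsion. -/

namespace Pool.Agent.WhDet

open Matrix hiding single smul_single
open MonoidAlgebra hiding mul_apply of of_apply

universe u

variable {H : Type u} [Group H] {X Y ι : Type*} [Fintype X] [DecidableEq X] [Fintype Y]
  [DecidableEq Y] [Fintype ι] [DecidableEq ι]

/-- The ring homomorphism `ℤH → M_X(ℤH)`, `h ↦ ρ(h) h`. -/
noncomputable def twist (ρ : H →* Matrix X X ℤ) : ℤ[H] →+* Matrix X X ℤ[H] :=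
  (MonoidAlgebra.lift ℤ (Matrix X X ℤ[H]) H
    { toFun := fun h => (ρ h).map fun c => single h c
      map_one' := by
        ext i j : 1
        by_cases h : i = j <;> simp [h, one_def, one_apply]
      map_mul' := fun h k => by
        ext i j : 1
        simp only [map_mul, map_apply, mul_apply, single_mul_single]
        exact map_sum (singleAddHom (h * k)) _ _ }).toRingHom

theorem twist_single (ρ : H →* Matrix X X ℤ) (h : H) (c : ℤ) (x y : X) :
    twist ρ (single h c) x y = single h (c * ρ h x y) := by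
  simp [twist]

/-- The induced homomorphism on matrices. -/
noncomputable def Psi (ρ : H →* Matrix X X ℤ) (ι : Type*) [Fintype ι] [DecidableEq ι] :
    Matrix ι ι ℤ[H] →+* Matrix (ι × X) (ι × X) ℤ[H] :=
  (compRingEquiv ι X ℤ[H]).toRingHom.comp (twist ρ).mapMatrix

theorem Psi_apply (ρ : H →* Matrix X X ℤ) (A : Matrix ι ι ℤ[H]) (a b : ι × X) :
    Psi ρ ι A a b = twist ρ (A a.1 b.1) a.2 b.2 := rfl

/-- An integer matrix repeated along the diagonal. -/
noncomputable def big (H : Type u) [Group H] (ι : Type*) [DecidableEq ι] {X Y : Type*} (φ : Matrix Y X ℤ) :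
    Matrix (ι × Y) (ι × X) ℤ[H] :=
  of fun a b => if a.1 = b.1 then (φ a.2 b.2 : ℤ[H]) else 0

omit [DecidableEq Y] [Fintype X] in
theorem big_mul_big (ψ : Matrix X Y ℤ) (φ : Matrix Y X ℤ) (N : ℕ) (h : ψ * φ = N • 1) :
    big H ι ψ * big H ι φ = N • 1 := by
  ext ⟨i, x⟩ ⟨j, y⟩ : 1
  have := congrArg (Int.cast (R := ℤ[H])) (congrFun (congrFun h x) y)
  rw [mul_apply, Matrix.smul_apply] at this
  rw [mul_apply, Matrix.smul_apply, Fintype.sum_prod_type]
  by_cases hij : i = j
  · subst hij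
    simpa [big, one_apply] using this
  · simp [big, one_apply, hij]

theorem big_mul_Psi (ρ : H →* Matrix X X ℤ) (σ : H →* Matrix Y Y ℤ) (φ : Matrix Y X ℤ)
    (h : ∀ g, φ * ρ g = σ g * φ) (B : Matrix ι ι ℤ[H]) :
    big H ι φ * Psi ρ ι B = Psi σ ι B * big H ι φ := by
  ext ⟨i, y⟩ ⟨j, x⟩ : 1
  simp only [mul_apply, Fintype.sum_prod_type, big, of_apply, Psi_apply, ite_mul, zero_mul,
    mul_ite, mul_zero, Finset.sum_ite_irrel, Finset.sum_const_zero, Finset.sum_ite_eq,
    Finset.sum_ite_eq', Finset.mem_univ, if_true]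
  induction B i j using MonoidAlgebra.induction_linear with
  | zero => simp
  | add a b ha hb =>
    simp only [map_add, Matrix.add_apply, mul_add, add_mul, Finset.sum_add_distrib, ha, hb]
  | single g c =>
    have := congrArg (fun t => c * t) (congrFun (congrFun (h g) y) x)
    simp only [mul_apply, Finset.mul_sum] at this
    simp only [twist_single, ← zsmul_eq_mul, ← zsmul_eq_mul', smul_single, smul_eq_mul]
    refine ((map_sum (singleAddHom g) _ _).symm.trans ?_).trans (map_sum (singleAddHom g) _ _)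
    congr 1
    convert this using 2 <;> ring

theorem theta_eq [Finite H] (ρ : H →* Matrix X X ℤ) (σ : H →* Matrix Y Y ℤ)
    (htr : ∀ h, (ρ h).trace = (σ h).trace) {A : Matrix ι ι ℤ[H]} (hA : IsUnit A) :
    cl (Psi ρ ι A) - cl (Psi σ ι A) ∈ sat (⊥ : AddSubgroup (K1 ℤ[H])) := by
  have := Fintype.ofFinite H
  obtain ⟨N, φ, ψ, hN, h1, h2, h3⟩ := exists_int_iso ρ σ htr
  obtain ⟨r, B, hr, hB⟩ := exists_pow_eq_one hN hA
  refine ⟨r, hr, ?_⟩
  rw [AddSubgroup.mem_bot, smul_sub, ← cl_pow (hA.map _), ← cl_pow (hA.map _), ← map_pow,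
    ← map_pow, hB, map_add, map_add, map_one, map_one, map_nsmul, map_nsmul, sub_eq_zero]
  calc cl (1 + N • Psi ρ ι B) = cl (1 + big H ι ψ * (big H ι φ * Psi ρ ι B)) := by
        rw [← Matrix.mul_assoc, big_mul_big ψ φ N h1, smul_mul_assoc, one_mul]
    _ = cl (1 + N • Psi σ ι B) := by
        rw [cl_swap, big_mul_Psi ρ σ φ h3, Matrix.mul_assoc, big_mul_big φ ψ N h2, mul_smul_comm,
          mul_one]

/-- Direct sum of representations. -/
def dsum (ρ : H →* Matrix X X ℤ) (σ : H →* Matrix Y Y ℤ) : H →* Matrix (X ⊕ Y) (X ⊕ Y) ℤ where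
  toFun h := fromBlocks (ρ h) 0 0 (σ h)
  map_one' := by simp
  map_mul' h k := by simp [fromBlocks_multiply]

theorem trace_dsum (ρ : H →* Matrix X X ℤ) (σ : H →* Matrix Y Y ℤ) (h : H) :
    (dsum ρ σ h).trace = (ρ h).trace + (σ h).trace := by
  simp [dsum, trace]

theorem twist_dsum (ρ : H →* Matrix X X ℤ) (σ : H →* Matrix Y Y ℤ) (a : ℤ[H]) :
    twist (dsum ρ σ) a = fromBlocks (twist ρ a) 0 0 (twist σ a) := by
  induction a using MonoidAlgebra.induction_linear with
  | zero => simp
  | add a b ha hb => simp [ha, hb, fromBlocks_add]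
  | single g c =>
    ext x y : 1
    rcases x with x | x <;> rcases y with y | y <;> simp [twist_single, dsum]

theorem theta_dsum (ρ : H →* Matrix X X ℤ) (σ : H →* Matrix Y Y ℤ) {A : Matrix ι ι ℤ[H]}
    (hA : IsUnit A) : cl (Psi (dsum ρ σ) ι A) = cl (Psi ρ ι A) + cl (Psi σ ι A) := by
  rw [← cl_diag (hA.map _) (hA.map _), ← cl_reindex (Equiv.prodSumDistrib ι X Y)]
  congr 1
  ext a b : 1
  rcases a with a | a <;> rcases b with b | b <;> simp [Psi_apply, twist_dsum]

/-- Pairs (class of the twisted matrix, character) of virtual representations. -/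
def Good {A : Matrix ι ι ℤ[H]} (hA : IsUnit A) : AddSubgroup (K1 ℤ[H] × (H → ℤ)) where
  carrier := {z | ∃ (X Y : Type u) (_ : Fintype X) (_ : DecidableEq X) (_ : Fintype Y)
    (_ : DecidableEq Y) (ρ : H →* Matrix X X ℤ) (σ : H →* Matrix Y Y ℤ),
      z.1 = cl (Psi ρ ι A) - cl (Psi σ ι A) ∧ ∀ h, z.2 h = (ρ h).trace - (σ h).trace}
  zero_mem' := ⟨PUnit, PUnit, _, _, _, _, 1, 1, by simp, by simp⟩
  add_mem' := by
    rintro z w ⟨X, Y, _, _, _, _, ρ, σ, h1, h2⟩ ⟨X', Y', _, _, _, _, ρ', σ', h3, h4⟩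
    refine ⟨X ⊕ X', Y ⊕ Y', _, _, _, _, dsum ρ ρ', dsum σ σ', ?_, fun h => ?_⟩
    · rw [theta_dsum _ _ hA, theta_dsum _ _ hA, Prod.fst_add, h1, h3]; abel
    · rw [trace_dsum, trace_dsum, Prod.snd_add, Pi.add_apply, h2, h4]; abel
  neg_mem' := by
    rintro z ⟨X, Y, _, _, _, _, ρ, σ, h1, h2⟩
    exact ⟨Y, X, _, _, _, _, σ, ρ, by simp [h1], by simp [h2]⟩

theorem good_of {A : Matrix ι ι ℤ[H]} (hA : IsUnit A) {X : Type u} [Fintype X] [DecidableEq X]
    (ρ : H →* Matrix X X ℤ) : (cl (Psi ρ ι A), fun h => (ρ h).trace) ∈ Good hA :=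
  ⟨X, PEmpty, _, _, _, _, ρ, 1, by
    rw [Subsingleton.elim (Psi (1 : H →* Matrix PEmpty PEmpty ℤ) ι A) 1, cl_one, sub_zero],
    by simp⟩

theorem good_one {A : Matrix ι ι ℤ[H]} (hA : IsUnit A) : (cl A, 1) ∈ Good hA := by
  convert good_of hA (1 : H →* Matrix PUnit PUnit ℤ) using 2
  · rw [← cl_reindex (Equiv.prodUnique ι PUnit)]
    congr 1
    ext i j : 1
    simp only [reindex_apply, submatrix_apply, Psi_apply, Equiv.prodUnique_symm_apply]
    induction A i j using MonoidAlgebra.induction_linear with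
    | zero => simp
    | add a b ha hb => simp only [map_add, Matrix.add_apply, ← ha, ← hb]
    | single g c => simp [twist_single]
  · ext; simp

theorem good_zero [Finite H] {A : Matrix ι ι ℤ[H]} (hA : IsUnit A) {a : K1 ℤ[H]}
    (h : (a, 0) ∈ Good hA) : a ∈ sat (⊥ : AddSubgroup (K1 ℤ[H])) := by
  obtain ⟨X, Y, _, _, _, _, ρ, σ, h1, h2⟩ := h
  rw [show a = _ from h1]
  exact theta_eq ρ σ (fun h => sub_eq_zero.1 (h2 h).symm) hA

/-- The permutation representation. -/
def perm (H : Type u) [Group H] (X : Type*) [Fintype X] [DecidableEq X] [MulAction H X] :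
    H →* Matrix X X ℤ where
  toFun h := of fun x y => if x = h • y then 1 else 0
  map_one' := by ext x y; simp [one_apply]
  map_mul' h k := by ext x y; simp [mul_apply, mul_smul]

theorem cl_mem_range {R S : Type*} [Ring R] [Ring S] (φ : S →+* R) (hφ : Function.Injective φ)
    {B B' : Matrix ι ι R} (h1 : B * B' = 1) (h2 : B' * B = 1) (hB : ∀ i j, B i j ∈ φ.range)
    (hB' : ∀ i j, B' i j ∈ φ.range) : cl B ∈ (K1.map φ).range := by
  choose b hb using hB
  choose b' hb' using hB'
  have e : φ.mapMatrix (of b) = B := by ext i j; exact hb i j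
  have e' : φ.mapMatrix (of b') = B' := by ext i j; exact hb' i j
  have hinj : Function.Injective (φ.mapMatrix : Matrix ι ι S → Matrix ι ι R) :=
    Matrix.map_injective hφ
  have hu : IsUnit (of b) := ⟨⟨of b, of b', hinj (by rw [map_mul, e, e', h1, map_one]),
    hinj (by rw [map_mul, e, e', h2, map_one])⟩, rfl⟩
  exact ⟨cl (of b), by rw [cl_map φ hu, ← e]; rfl⟩

theorem theta_quot_mem (C : Subgroup H) [Fintype (H ⧸ C)] [DecidableEq (H ⧸ C)]
    {A : Matrix ι ι ℤ[H]} (hA : IsUnit A) :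
    cl (Psi (perm H (H ⧸ C)) ι A) ∈ (K1.map (mapDomainRingHom ℤ C.subtype)).range := by
  let D : (Matrix (ι × (H ⧸ C)) (ι × (H ⧸ C)) ℤ[H])ˣ :=
    ⟨diagonal fun a => single a.2.out 1, diagonal fun a => single a.2.out⁻¹ 1,
      by simp [diagonal_mul_diagonal, single_mul_single, ← one_def],
      by simp [diagonal_mul_diagonal, single_mul_single, ← one_def]⟩
  have key : ∀ (B : Matrix ι ι ℤ[H]) a b, ((D⁻¹).val * Psi (perm H (H ⧸ C)) ι B * D.val) a b ∈
      (mapDomainRingHom ℤ C.subtype).range := by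
    intro B a b
    simp only [D, Units.inv_mk]
    rw [mul_diagonal, diagonal_mul, Psi_apply]
    induction B a.1 b.1 using MonoidAlgebra.induction_linear with
    | zero => simp
    | add x y hx hy =>
      rw [map_add, Matrix.add_apply, mul_add, add_mul]
      exact add_mem hx hy
    | single g c =>
      rw [twist_single, single_mul_single, single_mul_single]
      by_cases h : a.2 = g • b.2
      · refine ⟨single ⟨a.2.out⁻¹ * g * b.2.out, ?_⟩ c, by simp [perm, h]⟩
        rw [mul_assoc, ← QuotientGroup.eq, QuotientGroup.out_eq', h]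
        conv_lhs => rw [← QuotientGroup.out_eq' b.2]
        rfl
      · simp [perm, h]
  obtain ⟨U, rfl⟩ := hA
  clear_value D
  have hm : ∀ B B' : Matrix ι ι ℤ[H], B * B' = 1 → (D⁻¹).val * Psi (perm H (H ⧸ C)) ι B * D.val *
      ((D⁻¹).val * Psi (perm H (H ⧸ C)) ι B' * D.val) = 1 := fun B B' h => by
    simp only [mul_assoc, Units.mul_inv_cancel_left]
    rw [← mul_assoc (Psi _ _ _), ← map_mul, h, map_one, one_mul, Units.inv_mul]
  have h := cl_mem_range _ (mapDomain_injective C.subtype_injective) (hm _ _ U.mul_inv)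
    (hm _ _ U.inv_mul) (key U.val) (key (U⁻¹).val)
  rwa [cl_mul ((D⁻¹).isUnit.mul (U.isUnit.map _)) D.isUnit, cl_mul (D⁻¹).isUnit (U.isUnit.map _),
    add_right_comm, ← cl_mul (D⁻¹).isUnit D.isUnit, Units.inv_mul, cl_one, zero_add] at h

open Classical in
theorem card_mul_trace [Fintype H] (C : Subgroup H) [Fintype (H ⧸ C)] [DecidableEq (H ⧸ C)]
    (h : H) : (Nat.card C : ℤ) * (perm H (H ⧸ C) h).trace =
      ∑ g : H, if Subgroup.zpowers (g⁻¹ * h * g) ≤ C then 1 else 0 := by
  have h1 := QuotientGroup.card_preimage_mk C {x | x = h • x}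
  have h2 : (perm H (H ⧸ C) h).trace = Nat.card {x : H ⧸ C | x = h • x} := by
    simp [perm, trace, Fintype.card_subtype]
  rw [h2, ← Nat.cast_mul, ← h1, Finset.sum_boole, Nat.card_eq_fintype_card, Fintype.card_subtype]
  congr 2
  ext g
  simp only [Set.mem_preimage, Set.mem_ofPred_eq, Finset.mem_filter, Finset.mem_univ, true_and,
    Subgroup.zpowers_le, mul_assoc]
  exact QuotientGroup.eq

/-- The subgroup generated by the images of the `K₁` of the cyclic subgroups. -/
noncomputable def cycInd (H : Type u) [Group H] : AddSubgroup (K1 ℤ[H]) :=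
  ⨆ c : H, (K1.map (mapDomainRingHom ℤ (Subgroup.zpowers c).subtype)).range

theorem artin_cl [Finite H] {A : Matrix ι ι ℤ[H]} (hA : IsUnit A) : cl A ∈ sat (cycInd H) := by
  classical
  have := Fintype.ofFinite H
  have := Fintype.ofFinite (Subgroup H)
  let J : AddSubgroup (H → ℤ) := (Good hA ⊓ (cycInd H).comap (AddMonoidHom.fst _ _)).map
    (AddMonoidHom.snd _ _)
  let η : Subgroup H → H → ℤ := fun C h =>
    ∑ g : H, if Subgroup.zpowers (g⁻¹ * h * g) = C then 1 else 0
  have hη : ∀ C, η C ∈ J := by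
    intro C
    induction C using WellFoundedLT.induction with
    | _ C ih =>
    by_cases hC : ∃ c, Subgroup.zpowers c = C
    · obtain ⟨c, hc⟩ := hC
      have h1 : (fun h => (perm H (H ⧸ C) h).trace) ∈ J :=
        ⟨_, ⟨good_of hA (perm H (H ⧸ C)), by
          subst hc
          exact AddSubgroup.mem_iSup_of_mem c (theta_quot_mem _ hA)⟩, rfl⟩
      have h2 : η C = Nat.card C • (fun h => (perm H (H ⧸ C) h).trace) -
          ∑ C' with C' < C, η C' := by
        ext h
        rw [Pi.sub_apply, Pi.smul_apply, nsmul_eq_mul, card_mul_trace]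
        simp only [Finset.sum_apply, η]
        rw [Finset.sum_comm, ← Finset.sum_sub_distrib]
        refine Finset.sum_congr rfl fun g _ => ?_
        simp only [Finset.sum_ite_eq, Finset.mem_filter, Finset.mem_univ, true_and, le_iff_lt_or_eq]
        by_cases h3 : Subgroup.zpowers (g⁻¹ * h * g) = C
        · simp [h3]
        · simp [h3]
      rw [h2]
      exact sub_mem (J.nsmul_mem h1 _) (sum_mem fun C' hC' => ih C' (by simpa using hC'))
    · have : η C = 0 := by
        ext h
        exact Finset.sum_eq_zero fun g _ => if_neg fun h' => hC ⟨_, h'⟩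
      rw [this]
      exact zero_mem _
  obtain ⟨⟨a, χ⟩, ⟨h1, h2⟩, h3⟩ : ∑ C, η C ∈ J := sum_mem fun C _ => hη C
  have h4 := sub_mem ((Good hA).nsmul_mem (good_one hA) (Fintype.card H)) h1
  have h5 : Fintype.card H • (1 : H → ℤ) - χ = 0 := by
    rw [show χ = _ from h3]
    ext h
    simp only [Pi.sub_apply, Finset.sum_apply, η]
    rw [Finset.sum_comm]
    simp
  rw [Prod.smul_mk, Prod.mk_sub_mk, h5] at h4
  refine sat_of_nsmul (Fintype.card_ne_zero (α := H)) ?_
  rw [← sub_add_cancel (Fintype.card H • cl A) a]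
  exact add_mem (sat_map (AddMonoidHom.id _) (by simp) (good_zero hA h4)) (le_sat h2)

theorem artin [Finite H] (x : K1 ℤ[H]) : x ∈ sat (cycInd H) := by
  induction x using K1.induction_on with
  | mk n A => exact cl_mk A ▸ artin_cl A.isUnit
  | zero => exact zero_mem _
  | add x y hx hy => exact add_mem hx hy
  | neg x hx => exact neg_mem hx

end Pool.Agent.WhDet
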