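import Pool.Agent.Lib.MP_63c928_gt.WH.K1

/-! `SK₁` of a commutative ring that is finite free over `ℤ` is a torsion group. -/

namespace Pool.Agent.WhDet

open Matrix

universe u v

/-- The saturation of a subgroup. -/
def sat {E : Type*} [AddCommGroup E] (V : AddSubgroup E) : AddSubgroup E where
  carrier := {x | ∃ n : ℕ, n ≠ 0 ∧ n • x ∈ V}
  zero_mem' := ⟨1, one_ne_zero, by simp⟩
  add_mem' := by
    rintro x y ⟨n, hn, hx⟩ ⟨m, hm, hy⟩
    refine ⟨n * m, mul_ne_zero hn hm, ?_⟩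
    rw [smul_add]
    refine V.add_mem ?_ ?_
    · rw [mul_comm, mul_smul]; exact V.nsmul_mem hx m
    · rw [mul_smul]; exact V.nsmul_mem hy n
  neg_mem' := by
    rintro x ⟨n, hn, hx⟩
    exact ⟨n, hn, by rw [smul_neg]; exact V.neg_mem hx⟩

section
variable {E F : Type*} [AddCommGroup E] [AddCommGroup F] {V : AddSubgroup E}

theorem le_sat {x : E} (h : x ∈ V) : x ∈ sat V := ⟨1, one_ne_zero, by simpa⟩

theorem sat_of_nsmul {x : E} {n : ℕ} (hn : n ≠ 0) (h : n • x ∈ sat V) : x ∈ sat V := by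
  obtain ⟨m, hm, h⟩ := h
  exact ⟨m * n, mul_ne_zero hm hn, by rwa [mul_smul]⟩

theorem sat_map {W : AddSubgroup F} (f : E →+ F) (h : ∀ x ∈ V, f x ∈ sat W) {x : E}
    (hx : x ∈ sat V) : f x ∈ sat W := by
  obtain ⟨n, hn, hx⟩ := hx
  exact sat_of_nsmul hn (by rw [← map_nsmul]; exact h _ hx)

end

theorem exists_pow_eq {S : Type*} [Ring S] [Module.Finite ℤ S] {N : ℕ} (hN : N ≠ 0) (x : S) :
    ∃ (s r : ℕ) (y : S), r ≠ 0 ∧ x ^ s * (x ^ r - 1) = N • y := by
  have : AddGroup.FG S := Module.Finite.iff_addGroup_fg.1 inferInstance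
  have : Finite (S ⧸ (nsmulAddMonoidHom (α := S) N).range) := by
    refine AddCommGroup.finite_of_fg_isAddTorsion _ fun q => ?_
    induction q using QuotientAddGroup.induction_on with
    | H z =>
      refine isOfFinAddOrder_iff_nsmul_eq_zero.2 ⟨N, Nat.pos_of_ne_zero hN, ?_⟩
      rw [← QuotientAddGroup.mk_nsmul, QuotientAddGroup.eq_zero_iff]
      exact ⟨z, rfl⟩
  obtain ⟨a, b, hab, h⟩ := Finite.exists_ne_map_eq_of_infinite
    (fun n : ℕ => (QuotientAddGroup.mk (x ^ n) : S ⧸ (nsmulAddMonoidHom (α := S) N).range))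
  wlog hlt : a < b generalizing a b
  · exact this b a hab.symm h.symm (lt_of_le_of_ne (not_lt.1 hlt) hab.symm)
  obtain ⟨y, hy⟩ := QuotientAddGroup.eq.1 h
  obtain ⟨r, rfl⟩ := Nat.exists_eq_add_of_le hlt.le
  refine ⟨a, r, y, by omega, ?_⟩
  rw [mul_sub, ← pow_add, mul_one, sub_eq_neg_add, ← hy]
  rfl

theorem exists_pow_eq_one {S : Type*} [Ring S] [Module.Finite ℤ S] {N : ℕ} (hN : N ≠ 0) {x : S}
    (hx : IsUnit x) : ∃ (r : ℕ) (y : S), r ≠ 0 ∧ x ^ r = 1 + N • y := by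
  obtain ⟨s, r, y, hr, h⟩ := exists_pow_eq hN x
  obtain ⟨u, hu⟩ := hx.pow s
  refine ⟨r, (u⁻¹).val * y, hr, ?_⟩
  rw [← mul_smul_comm, ← h, ← hu, Units.inv_mul_cancel_left, add_sub_cancel]

section Ring

variable {R : Type u} [Ring R] {ι : Type*} [Fintype ι] [DecidableEq ι]

theorem col_op {A : Matrix ι ι R} (hA : IsUnit A) (j : ι) (v : ι → R) (hv : v j = 0) :
    ∃ B : Matrix ι ι R, IsUnit B ∧ cl B = cl A ∧ (∀ i, B i j = A i j + ∑ k, A i k * v k) ∧
      ∀ i k, k ≠ j → B i k = A i k := by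
  have h : replicateRow Unit (Pi.single j (1 : R)) * replicateCol Unit v = 0 := by
    ext; simp [hv]
  refine ⟨A * (1 + replicateCol Unit v * replicateRow Unit (Pi.single j 1)),
    hA.mul (isUnit_elem h), by rw [cl_mul hA (isUnit_elem h), cl_elem h, add_zero], ?_, ?_⟩
  · intro i; rw [mul_add, mul_one]; simp [mul_apply]
  · intro i k hk; rw [mul_add, mul_one]; simp [mul_apply, hk]

theorem cl_pivot_fin {n : ℕ} {A : Matrix (Fin (n + 1)) (Fin (n + 1)) R} (hA : IsUnit A)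
    (i : Fin (n + 1)) (h : A i i = 1) (B : Matrix (Fin n) (Fin n) R)
    (hB : ∀ j k, B j k = A (i.succAbove j) (i.succAbove k) - A (i.succAbove j) i * A i (i.succAbove k)) :
    IsUnit B ∧ cl A = cl B := by
  let e : Fin (n + 1) ≃ Unit ⊕ Fin n :=
    (finSuccEquiv' i).trans ((Equiv.optionEquivSumPUnit _).trans (Equiv.sumComm _ _))
  have he : reindex e e A = fromBlocks 1 (of fun _ k => A i (i.succAbove k))
      (of fun j _ => A (i.succAbove j) i) (of fun j k => A (i.succAbove j) (i.succAbove k)) := by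
    ext a b
    rcases a with a | a <;> rcases b with b | b <;> simp [e, h]
  have h2 := cl_pivot _ _ _ (he ▸ (isUnit_reindex_iff e A).2 hA)
  rw [← he, cl_reindex] at h2
  convert h2 <;> (ext j k; simp [hB, mul_apply])

/-- The class of a `1 × 1` matrix. -/
noncomputable def ucl (a : R) : K1 R := cl (scalar (Fin 1) a)

theorem ucl_mul {a b : R} (ha : IsUnit a) (hb : IsUnit b) : ucl (a * b) = ucl a + ucl b := by
  rw [ucl, map_mul, cl_mul (ha.map _) (hb.map _)]; rfl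

theorem ucl_one : ucl (1 : R) = 0 := by rw [ucl, map_one, cl_one]

variable (R) in
/-- The classes of units as a homomorphism. -/
noncomputable def uclHom : Additive Rˣ →+ K1 R where
  toFun u := ucl u.toMul.val
  map_zero' := ucl_one
  map_add' u v := ucl_mul u.toMul.isUnit v.toMul.isUnit

theorem cl_fin_one_mem {A : Matrix (Fin 1) (Fin 1) R} (hA : IsUnit A) :
    cl A ∈ (uclHom R).range := by
  obtain ⟨U, rfl⟩ := hA
  have h1 := congrFun (congrFun U.mul_inv 0) 0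
  have h2 := congrFun (congrFun U.inv_mul 0) 0
  simp only [mul_apply, Finset.univ_unique, Finset.sum_singleton, one_apply_eq] at h1 h2
  refine ⟨Additive.ofMul ⟨U.val 0 0, (U⁻¹).val 0 0, h1, h2⟩, ?_⟩
  change cl _ = _
  congr 1
  ext i j
  fin_cases i; fin_cases j
  simp

end Ring

section CommRing

variable {R : Type u} [CommRing R]

theorem menn_mul {a b c d b' c' d' : R} (h : a * d - b * c = 1) (h' : a * d' - b' * c' = 1) :
    cl !![a, b * b'; -(c * c'), d - c * d' * b] = cl !![a, b; c, d] + cl !![a, b'; c', d'] := by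
  have u1 : IsUnit !![a, b, 0; c, d, 0; 0, 0, 1] := by
    rw [isUnit_iff_isUnit_det, det_fin_three]; simp [h]
  have u2 : IsUnit !![d', 0, -c'; 0, 1, 0; -b', 0, a] := by
    have : d' * a - c' * b' = 1 := by linear_combination h'
    rw [isUnit_iff_isUnit_det, det_fin_three]; simp [this]
  have u3 : IsUnit !![1, 0, c'; 0, 1, 0; 0, 0, (1 : R)] := by
    rw [isUnit_iff_isUnit_det, det_fin_three]; simp
  have uJ : IsUnit !![0, 1; -1, (0 : R)] := by
    rw [isUnit_iff_isUnit_det, det_fin_two]; simp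
  have uA : IsUnit !![a, b'; c', d'] := by
    rw [isUnit_iff_isUnit_det, det_fin_two]; simp [h']
  have e1 := (cl_pivot_fin u1 2 rfl !![a, b; c, d] (by
    intro j k; fin_cases j <;> fin_cases k <;> simp [Fin.succAbove])).2
  obtain ⟨u4, e2⟩ := cl_pivot_fin u2 1 rfl !![d', -c'; -b', a] (by
    intro j k; fin_cases j <;> fin_cases k <;> simp [Fin.succAbove])
  have e3 := (cl_pivot_fin u3 0 rfl 1 (by
    intro j k; fin_cases j <;> fin_cases k <;> simp)).2
  have e4 : cl !![d', -c'; -b', a] = cl !![a, b'; c', d'] := by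
    refine add_right_cancel (b := cl !![0, 1; -1, (0 : R)]) ?_
    rw [← cl_mul u4 uJ, add_comm, ← cl_mul uJ uA]
    congr 1
    simp
  have hX : !![1, 0, c'; 0, 1, 0; 0, 0, (1 : R)] *
      (!![a, b, 0; c, d, 0; 0, 0, 1] * !![d', 0, -c'; 0, 1, 0; -b', 0, a]) =
      !![1, b, 0; c * d', d, -(c * c'); -b', 0, a] := by
    ext i j
    fin_cases i <;> fin_cases j <;> simp
    · linear_combination h'
    · ring
  have e5 := (cl_pivot_fin (hX ▸ u3.mul (u1.mul u2)) 0 rfl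
    (reindex (Equiv.swap 0 1) (Equiv.swap 0 1) !![a, b * b'; -(c * c'), d - c * d' * b]) (by
    intro j k; fin_cases j <;> fin_cases k <;> simp [mul_comm])).2
  rw [cl_reindex, ← hX, cl_mul u3 (u1.mul u2), cl_mul u1 u2, e1, e2, e3, e4, cl_one,
    zero_add] at e5
  exact e5.symm

theorem menn_pow {a b c d : R} (h : a * d - b * c = 1) (r : ℕ) :
    ∃ c' d', a * d' - b ^ (r + 1) * c' = 1 ∧
      cl !![a, b ^ (r + 1); c', d'] = (r + 1) • cl !![a, b; c, d] := by
  induction r with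
  | zero => exact ⟨c, d, by simpa using h, by simp⟩
  | succ r ih =>
    obtain ⟨c', d', h1, h2⟩ := ih
    refine ⟨-(c' * c), d' - c' * d * b ^ (r + 1), by
      linear_combination h1 - b ^ (r + 1) * c' * h, ?_⟩
    rw [pow_succ b (r + 1), menn_mul h1 h, h2, succ_nsmul _ (r + 1)]

variable [Module.Finite ℤ R]

theorem exists_dvd_nat [Module.Free ℤ R] (y : R) :
    ∃ m : ℕ, m ≠ 0 ∧ 1 + 2 • y ∣ (m : R) := by
  obtain ⟨r, hr⟩ := Algebra.norm_one_add_smul (2 : ℤ) y
  set a : R := 1 + (2 : ℤ) • y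
  have ha : 1 + 2 • y = a := by simp [a]
  have h0 : (Algebra.lmul ℤ R a).charpoly.coeff 0 ≠ 0 := by
    intro h
    rw [Algebra.norm_apply, LinearMap.det_eq_sign_charpoly_coeff, h] at hr
    omega
  have h1 := Algebra.aeval_self_charpoly_lmul (R := ℤ) a
  rw [← Polynomial.X_mul_divX_add (Algebra.lmul ℤ R a).charpoly, map_add, map_mul,
    Polynomial.aeval_X, Polynomial.aeval_C] at h1
  refine ⟨_, Int.natAbs_ne_zero.2 h0, ?_⟩
  have h2 : a ∣ (((Algebra.lmul ℤ R a).charpoly.coeff 0 : ℤ) : R) :=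
    ⟨_, by rw [mul_neg]; exact eq_neg_of_add_eq_zero_right h1⟩
  rw [ha]
  rcases Int.natAbs_eq ((Algebra.lmul ℤ R a).charpoly.coeff 0) with h | h
  · rw [h] at h2; simpa using h2
  · rw [h] at h2; simpa using h2

theorem exists_coprime {a b c : R} {m : ℕ} (hm : m ≠ 0) (ha : a ∣ (m : R)) {r s : R}
    (h : a * r + (b * s + c) = 1) : ∃ t, IsCoprime a (b + t * c) := by
  obtain ⟨k, d, y, hd, hy⟩ := exists_pow_eq hm b
  refine ⟨1 - b ^ d, ?_⟩
  rw [← Ideal.isCoprime_span_singleton_iff, Ideal.isCoprime_iff_sup_eq]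
  by_contra hne
  obtain ⟨M, hM, hle⟩ := Ideal.exists_le_maximal _ hne
  have h1 : a ∈ M := hle (Ideal.mem_sup_left (Ideal.mem_span_singleton_self _))
  have h2 : b + (1 - b ^ d) * c ∈ M := hle (Ideal.mem_sup_right (Ideal.mem_span_singleton_self _))
  have hb : b ∈ M := by
    have h3 : b ^ k * (b ^ d - 1) ∈ M := by
      rw [hy, nsmul_eq_mul]
      exact M.mul_mem_right _ (M.mem_of_dvd ha h1)
    rcases hM.isPrime.mem_or_mem h3 with h3 | h3
    · exact hM.isPrime.mem_of_pow_mem _ h3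
    · convert M.add_mem h2 (M.mul_mem_right c h3) using 1
      ring
  apply hM.ne_top
  rw [Ideal.eq_top_iff_one]
  have h4 : b ^ d ∈ M := M.pow_mem_of_mem hb d (Nat.pos_of_ne_zero hd)
  convert M.add_mem (M.add_mem (M.mul_mem_right r h1) (M.mul_mem_right (s - 1) hb))
    (M.add_mem h2 (M.mul_mem_right c h4)) using 1
  linear_combination -h

theorem cl_two_mem {A : Matrix (Fin 2) (Fin 2) R} (hA : IsUnit A) {m : ℕ} (hm : m ≠ 0)
    (ha : A 0 0 ∣ (m : R)) : cl A ∈ sat (uclHom R).range := by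
  obtain ⟨δ, hδ⟩ := (isUnit_iff_isUnit_det A).1 hA
  have h : A 0 0 * (δ⁻¹.val * A 1 1) - A 0 1 * (δ⁻¹.val * A 1 0) = 1 := by
    rw [det_fin_two] at hδ
    linear_combination -δ⁻¹.val * hδ + δ.inv_mul
  have uD : IsUnit !![1, 0; 0, δ.val] := by
    rw [isUnit_iff_isUnit_det, det_fin_two]; simp
  have uB : IsUnit !![A 0 0, A 0 1; δ⁻¹.val * A 1 0, δ⁻¹.val * A 1 1] := by
    rw [isUnit_iff_isUnit_det, det_fin_two]; simp only [of_apply, cons_val', cons_val_zero,
      cons_val_one, cons_val_fin_one, h, isUnit_one]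
  have hAe : A = !![1, 0; 0, δ.val] * !![A 0 0, A 0 1; δ⁻¹.val * A 1 0, δ⁻¹.val * A 1 1] := by
    ext i j
    fin_cases i <;> fin_cases j <;> simp
  obtain ⟨uD', eD⟩ := cl_pivot_fin uD 0 rfl !![δ.val] (by
    intro j k; fin_cases j; fin_cases k; simp)
  rw [hAe, cl_mul uD uB, eD]
  refine add_mem (le_sat (cl_fin_one_mem uD')) ?_
  generalize δ⁻¹.val * A 1 1 = d at *
  generalize δ⁻¹.val * A 1 0 = c at *
  generalize A 0 0 = a at *
  generalize A 0 1 = b at *
  obtain ⟨k, r, y, hr, hy⟩ := exists_pow_eq hm b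
  have hco : IsCoprime a b := ⟨d, -c, by linear_combination h⟩
  obtain ⟨t, ht⟩ : a ∣ b ^ r - 1 := (hco.pow_right (n := k)).dvd_of_dvd_mul_left (by
    rw [hy, nsmul_eq_mul]; exact ha.mul_right _)
  obtain ⟨r, rfl⟩ := Nat.exists_eq_add_one_of_ne_zero hr
  obtain ⟨c', d', h1, h2⟩ := menn_pow h r
  refine ⟨r + 1, hr, h2 ▸ ?_⟩
  have uY : IsUnit !![a, b ^ (r + 1); c', d'] := by
    rw [isUnit_iff_isUnit_det, det_fin_two]; simp [h1]
  obtain ⟨B, uB, eB, hB1, hB2⟩ := col_op uY 1 ![-t, 0] rfl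
  obtain ⟨C, uC, eC, hC1, hC2⟩ := col_op uB 0 ![0, 1 - a] rfl
  have hC : C 0 0 = 1 := by
    rw [hC1, Fin.sum_univ_two, hB1, hB2 0 0 (by simp)]
    simp
    linear_combination (1 - a) * ht
  obtain ⟨uE, eE⟩ := cl_pivot_fin uC 0 hC (of fun j k => _) (fun j k => rfl)
  rw [← eB, ← eC, eE]
  exact cl_fin_one_mem uE

theorem cl_three_red {n : ℕ} {A : Matrix (Fin (n + 3)) (Fin (n + 3)) R} (hA : IsUnit A) {m : ℕ}
    (hm : m ≠ 0) (ha : A 0 0 ∣ (m : R)) :
    ∃ B : Matrix (Fin (n + 2)) (Fin (n + 2)) R, IsUnit B ∧ cl A = cl B := by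
  obtain ⟨U, hU⟩ := id hA
  have h1 := congrFun (congrFun U.mul_inv 0) 0
  rw [hU, mul_apply, Fin.sum_univ_succ, Fin.sum_univ_succ, one_apply_eq] at h1
  obtain ⟨t, α, β, hco⟩ := exists_coprime hm ha h1
  obtain ⟨B, uB, eB, hB1, hB2⟩ := col_op hA 1
    (Fin.cons 0 (Fin.cons 0 fun k => t * (U⁻¹).val k.succ.succ 0)) rfl
  obtain ⟨C, uC, eC, hC1, hC2⟩ := col_op uB 2
    (Fin.cons ((1 - B 0 2) * α) (Fin.cons ((1 - B 0 2) * β) fun _ => 0)) rfl
  obtain ⟨D, uD, eD, hD1, hD2⟩ := col_op uC 0 (Pi.single 2 (1 - C 0 0)) (by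
    rw [Pi.single_eq_of_ne]; exact (Fin.succ_ne_zero (1 : Fin (n + 2))).symm)
  have hB00 : B 0 0 = A 0 0 := hB2 0 0 (Fin.ne_of_val_ne (by simp))
  have hB01 : α * B 0 0 + β * B 0 1 = 1 := by
    rw [hB00, hB1, ← hco, Fin.sum_univ_succ, Fin.sum_univ_succ, Finset.mul_sum]
    simp only [Fin.cons_zero, Fin.cons_succ, mul_zero, zero_add, mul_left_comm t]
    rfl
  have hC02 : C 0 2 = 1 := by
    rw [hC1, Fin.sum_univ_succ, Fin.sum_univ_succ]
    simp only [Fin.cons_zero, Fin.cons_succ, mul_zero, Finset.sum_const_zero]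
    rw [Fin.succ_zero_eq_one]
    linear_combination (1 - B 0 2) * hB01
  have hD : D 0 0 = 1 := by
    rw [hD1]
    simp [Pi.single_apply, hC02]
  obtain ⟨uE, eE⟩ := cl_pivot_fin uD 0 hD (of fun j k => _) (fun j k => rfl)
  exact ⟨_, uE, by rw [← eE, eD, eC, eB]⟩

variable [Module.Free ℤ R]

theorem cl_mem_sat_of {n : ℕ} (H : ∀ A : Matrix (Fin (n + 1)) (Fin (n + 1)) R, IsUnit A →
      ∀ m : ℕ, m ≠ 0 → A 0 0 ∣ (m : R) → cl A ∈ sat (uclHom R).range)
    {A : Matrix (Fin (n + 1)) (Fin (n + 1)) R} (hA : IsUnit A) :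
    cl A ∈ sat (uclHom R).range := by
  obtain ⟨r, Y, hr, hY⟩ := exists_pow_eq_one two_ne_zero hA
  obtain ⟨m, hm, hd⟩ := exists_dvd_nat (Y 0 0)
  refine sat_of_nsmul hr ?_
  rw [← cl_pow hA]
  refine H _ (hA.pow r) m hm ?_
  rw [hY, Matrix.add_apply, one_apply_eq]
  exact hd

theorem cl_mem_sat_fin (n : ℕ) {A : Matrix (Fin (n + 2)) (Fin (n + 2)) R} (hA : IsUnit A) :
    cl A ∈ sat (uclHom R).range := by
  induction n with
  | zero => exact cl_mem_sat_of (fun A hA m hm ha => cl_two_mem hA hm ha) hA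
  | succ n ih =>
    refine cl_mem_sat_of (fun A hA m hm ha => ?_) hA
    obtain ⟨B, hB, e⟩ := cl_three_red hA hm ha
    exact e ▸ ih hB

theorem mem_sat_units (x : K1 R) : x ∈ sat (uclHom R).range := by
  induction x using K1.induction_on with
  | mk n A =>
    rw [← cl_mk, ← cl_stab (κ := Fin 2), ← cl_reindex finSumFinEquiv]
    exact cl_mem_sat_fin n ((isUnit_reindex_iff _ _).2
      ((isUnit_diag_iff _ _).2 ⟨A.isUnit, isUnit_one⟩))
  | zero => exact zero_mem _
  | add x y hx hy => exact add_mem hx hy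
  | neg x hx => exact neg_mem hx

omit [Module.Finite ℤ R] [Module.Free ℤ R] in
variable (R) in
/-- The determinant on `K₁`. -/
noncomputable def detHom : K1 R →+ Additive Rˣ :=
  K1.lift (fun x => Additive.ofMul (Units.map detMonoidHom x.2))
    (fun n A B => by simp only [map_mul, ofMul_mul])
    (fun n A B h => congrArg _ (Units.ext (by simp [h, stab])))

omit [Module.Finite ℤ R] [Module.Free ℤ R] in
theorem detHom_cl {ι : Type*} [Fintype ι] [DecidableEq ι] {A : Matrix ι ι R} (hA : IsUnit A) :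
    (detHom R (cl A)).toMul.val = A.det := by
  rw [cl, dif_pos hA, detHom, K1.lift_mk]
  simp

/-- A multiple of the class of a matrix is the same multiple of the class of its determinant. -/
theorem cl_sub_det {ι : Type*} [Fintype ι] [DecidableEq ι] {A : Matrix ι ι R} (hA : IsUnit A) :
    cl A - ucl A.det ∈ sat (⊥ : AddSubgroup (K1 R)) := by
  obtain ⟨n, hn, u, hu⟩ := mem_sat_units (cl A)
  refine ⟨n, hn, ?_⟩
  have h1 : detHom R (uclHom R u) = u := by
    refine Additive.toMul.injective (Units.ext ?_)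
    change (detHom R (cl _)).toMul.val = _
    rw [detHom_cl (u.toMul.isUnit.map _)]
    simp
  have h2 : ucl A.det = uclHom R (detHom R (cl A)) := by
    rw [← detHom_cl hA]; rfl
  rw [AddSubgroup.mem_bot, smul_sub, h2, ← map_nsmul, ← map_nsmul, ← hu, h1, sub_self]

end CommRing

end Pool.Agent.WhDet
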