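import Pool.Agent.Lib.MP_63c928_gt.WH.Log
import Pool.Agent.Lib.MP_63c928_gt.WH.SK1

/-! The integral logarithm on `K₁(ℤG)` and on `Wh(G)`, via the Brandt monoid. -/

namespace Pool.Agent.WhDet

open Matrix hiding single smul_single
open MonoidAlgebra hiding mul_apply of of_apply

universe u v

/-- The Brandt monoid of matrix units, with zero and one adjoined. -/
inductive Br (ι : Type) (G : Type u) : Type u
  | one : Br ι G
  | zero : Br ι G
  | e (i : ι) (g : G) (j : ι) : Br ι G

namespace Br

variable {ι κ : Type} [DecidableEq ι] [DecidableEq κ] {G : Type u} {H : Type v} [Group G] [Group H]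

/-- Multiplication. -/
def mul : Br ι G → Br ι G → Br ι G
  | one, x => x
  | zero, _ => zero
  | e i g j, one => e i g j
  | e _ _ _, zero => zero
  | e i g j, e k h l => if j = k then e i (g * h) l else zero

instance : Monoid (Br ι G) where
  one := one
  mul := mul
  one_mul _ := rfl
  mul_one x := by cases x <;> rfl
  mul_assoc x y z := by
    change mul (mul x y) z = mul x (mul y z)
    cases x <;> cases y <;> cases z <;> simp only [mul] <;> split_ifs <;>
      simp_all [mul, mul_assoc]

theorem mul_def (x y : Br ι G) : x * y = mul x y := rfl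

instance {H : Type v} [CommGroup H] : CommMonoid (Br (Fin 1) H) where
  mul_comm x y := by
    cases x <;> cases y <;> simp [mul_def, mul, mul_comm, Subsingleton.elim _ (0 : Fin 1)]

/-- Functoriality. -/
def map (a : ι → κ) (ha : Function.Injective a) (φ : H →* G) : Br ι H →* Br κ G where
  toFun
    | one => one
    | zero => zero
    | e i g j => e (a i) (φ g) (a j)
  map_one' := rfl
  map_mul' x y := by
    cases x <;> cases y <;> simp only [mul_def, mul, ha.eq_iff]
    split_ifs <;> simp

/-- The trace attached to a function on `G`. -/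
def tr {R : Type*} [Zero R] (f : G → R) : Br ι G → R
  | one => 0
  | zero => 0
  | e i g j => if i = j then f g else 0

theorem tr_comm {R : Type*} [Zero R] {f : G → R} (hf : ∀ a b, f (a * b) = f (b * a))
    (x y : Br ι G) : tr f (x * y) = tr f (y * x) := by
  cases x <;> cases y <;> simp only [mul_def, mul, tr]
  split_ifs <;> simp_all [tr, eq_comm]

theorem tr_map {R : Type*} [Zero R] (f : G → R) (a : ι → κ) (ha : Function.Injective a)
    (φ : H →* G) (x : Br ι H) : tr f (map a ha φ x) = tr (f ∘ φ) x := by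
  cases x <;> simp [map, tr, ha.eq_iff]

/-- Matrix units. -/
noncomputable def eps (i j : ι) : ℤ[G] →ₗ[ℤ] ℤ[Br ι G] :=
  mapDomainLinearMap ℤ ℤ (fun g => e i g j) - mapDomainLinearMap ℤ ℤ fun _ => zero

theorem eps_single (i j : ι) (g : G) (c : ℤ) :
    eps i j (single g c) = single (e i g j) c - single zero c := by simp [eps]

theorem eps_mul (i j k l : ι) (a b : ℤ[G]) :
    eps i j a * eps k l b = if j = k then eps i l (a * b) else 0 := by
  induction a using MonoidAlgebra.induction_linear with
  | zero => simp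
  | add a a' ha ha' => rw [map_add, add_mul, ha, ha', add_mul, map_add]; split_ifs <;> simp
  | single g c =>
    induction b using MonoidAlgebra.induction_linear with
    | zero => simp
    | add a a' ha ha' => rw [map_add, mul_add, ha, ha', mul_add, map_add]; split_ifs <;> simp
    | single h d =>
      simp only [eps_single, mul_sub, sub_mul, single_mul_single, mul_def, mul]
      split_ifs <;> simp

theorem map_eps (a : ι → κ) (ha : Function.Injective a) (φ : H →* G) (i j : ι) (x : ℤ[H]) :
    mapDomainRingHom ℤ (map a ha φ) (eps i j x) = eps (a i) (a j) (mapDomainRingHom ℤ φ x) := by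
  induction x using MonoidAlgebra.induction_linear with
  | zero => simp only [map_zero]
  | add a a' ha ha' => simp only [map_add, ha, ha']
  | single g c =>
    simp only [eps_single, map_sub, mapDomainRingHom_apply, mapDomain_single]
    rfl

variable [Fintype ι] [Fintype κ]

/-- The unital embedding of matrices. -/
noncomputable def hat : Matrix ι ι ℤ[G] →* ℤ[Br ι G] where
  toFun A := 1 + ∑ i, ∑ j, eps i j ((A - 1) i j)
  map_one' := by simp
  map_mul' A B := by
    have h : (∑ i, ∑ j, eps i j ((A - 1) i j)) * ∑ i, ∑ j, eps i j ((B - 1) i j) =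
        ∑ i, ∑ j, eps i j (((A - 1) * (B - 1)) i j) := by
      generalize A - 1 = X
      generalize B - 1 = Y
      rw [Finset.sum_mul]
      refine Finset.sum_congr rfl fun i _ => ?_
      simp only [mul_apply, map_sum]
      rw [Finset.sum_mul]
      conv_rhs => rw [Finset.sum_comm]
      refine Finset.sum_congr rfl fun j _ => ?_
      simp only [Finset.mul_sum, eps_mul, Finset.sum_ite_irrel, Finset.sum_const_zero,
        Finset.sum_ite_eq, Finset.mem_univ, if_true]
    rw [show A * B - 1 = (B - 1) + ((A - 1) + (A - 1) * (B - 1)) by noncomm_ring, add_mul, one_mul,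
      mul_add, mul_one, h, add_assoc]
    simp only [Matrix.add_apply, map_add, Finset.sum_add_distrib]

theorem hat_apply (A : Matrix ι ι ℤ[G]) : hat A = 1 + ∑ i, ∑ j, eps i j ((A - 1) i j) := rfl

theorem hat_map (φ : H →* G) (A : Matrix ι ι ℤ[H]) :
    hat (A.map (mapDomainRingHom ℤ φ)) = mapDomain (map id Function.injective_id φ) (hat A) := by
  rw [← mapDomainRingHom_apply, hat_apply, hat_apply]
  simp only [map_add, map_one, map_sum, map_eps, id, Matrix.sub_apply, map_apply, map_sub,
    one_apply, apply_ite (mapDomainRingHom ℤ φ), map_zero]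

theorem hat_stab {n : ℕ} (A : Matrix (Fin n) (Fin n) ℤ[G]) :
    hat (stab A) = mapDomain (map (fun i => finSumFinEquiv (Sum.inl i))
      (finSumFinEquiv.injective.comp Sum.inl_injective) (MonoidHom.id G)) (hat A) := by
  rw [← mapDomainRingHom_apply, hat_apply, hat_apply]
  simp only [map_add, map_one, map_sum, map_eps, ← Equiv.sum_comp finSumFinEquiv,
    Fintype.sum_sum_type, stab]
  simp [-finSumFinEquiv_apply_left, -finSumFinEquiv_apply_right, one_apply]

end Br

variable {p k : ℕ} [hp : Fact p.Prime] (hodd : Odd p) {G : Type u} [Group G]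
  (f : G → ZMod (p ^ (k + 1))) (hf : ∀ a b, f (a * b) = f (b * a))

/-- The logarithm on `K₁(ℤG)`. -/
noncomputable def ell : K1 ℤ[G] →+ ZMod (p ^ (k + 1)) :=
  K1.lift (fun x => lg (Br.tr f) (Br.tr_comm hf) hodd (Units.map Br.hat x.2))
    (fun n A B => by rw [map_mul, lg_mul])
    (fun n A B h => lg_map _ _ hodd _ _ _ (fun x => Br.tr_map f _ _ (MonoidHom.id G) x) _ _ (by
      rw [Units.coe_map, Units.coe_map, h, Br.hat_stab]))

theorem ell_comm {H : Type v} [CommGroup H] (φ : H →* G) (u : ℤ[H]ˣ) (w : ℤ[H])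
    (hw : p ^ (k + 1) • w =
      u.val ^ p ^ (k + 1) * mapDomain (powMonoidHom p) (u⁻¹).val ^ p ^ k - 1) :
    ell hodd f hf (K1.map (mapDomainRingHom ℤ φ) (ucl u.val)) = lin (f ∘ φ) (red _ _ w) := by
  let j : ℤ[H] →* ℤ[Br (Fin 1) H] := Br.hat.comp (scalar (Fin 1)).toMonoidHom
  have hj : ∀ a, j a = 1 + Br.eps 0 0 (a - 1) := fun a => by simp [j, Br.hat_apply]
  have hΦ : ∀ a : ℤ[H], mapDomainRingHom ℤ (powMonoidHom p) (Br.eps (0 : Fin 1) 0 a) =
      Br.eps 0 0 (mapDomainRingHom ℤ (powMonoidHom p) a) := by
    obtain ⟨q, hq⟩ := Nat.exists_eq_add_one_of_ne_zero hp.out.ne_zero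
    have h1 : ∀ (n : ℕ) (g : H), Br.e (0 : Fin 1) g 0 ^ (n + 1) = Br.e 0 (g ^ (n + 1)) 0 := by
      intro n g
      induction n with
      | zero => simp
      | succ n ih => rw [pow_succ, ih, pow_succ g (n + 1)]; rfl
    have h2 : (Br.zero : Br (Fin 1) H) ^ (q + 1) = Br.zero := by rw [pow_succ']; rfl
    intro a
    induction a using MonoidAlgebra.induction_linear with
    | zero => simp only [map_zero]
    | add a a' ha ha' => simp only [map_add, ha, ha']
    | single g c =>
      simp only [Br.eps_single, map_sub, mapDomainRingHom_apply, mapDomain_single,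
        powMonoidHom_apply]
      rw [hq, h1, h2]
  let U : (Matrix (Fin 1) (Fin 1) ℤ[H])ˣ := Units.map (scalar (Fin 1)).toMonoidHom u
  rw [show ucl u.val = K1.mk U from cl_mk U, K1.map_mk, ell, K1.lift_mk]
  rw [lg_map (Br.tr (f ∘ φ)) (Br.tr_comm fun a b => by rw [mul_comm]) hodd _ _
    (Br.map id Function.injective_id φ) (Br.tr_map f _ _ φ) (Units.map j u) _ (Br.hat_map φ _),
    lg_comm hodd _ _ _ (Br.eps 0 0 w)]
  · clear hw
    induction w using MonoidAlgebra.induction_linear with
    | zero => simp
    | add a a' ha ha' => simp only [map_add, ha, ha']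
    | single g c => simp [Br.eps_single, lin_single, Br.tr]
  · have h3 : mapDomain (powMonoidHom p) (j (u⁻¹).val) =
        j (mapDomain (powMonoidHom p) (u⁻¹).val) := by
      simp only [← mapDomainRingHom_apply, hj, map_add, map_one, hΦ, map_sub]
    rw [← map_inv, Units.coe_map, Units.coe_map, h3, ← map_pow, ← map_pow, ← map_mul, hj, ← hw,
      map_nsmul, add_sub_cancel_left]

/-- The logarithm on `Wh(G)`. -/
noncomputable def ellWh : Wh G →+ ZMod (p ^ (k + 1)) :=
  QuotientAddGroup.lift _ (ell hodd f hf) (by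
    refine (AddSubgroup.closure_le (ell hodd f hf).ker).2 ?_
    rintro x ⟨g, A, hA, rfl⟩
    obtain ⟨c, hc, hA⟩ : ∃ c : ℤ, c * c = 1 ∧ A.val 0 0 = single g c := by
      rcases hA with h | h
      exacts [⟨1, rfl, h⟩, ⟨-1, rfl, h⟩]
    let h : Multiplicative ℤ := Multiplicative.ofAdd 1
    let u : ℤ[Multiplicative ℤ]ˣ := ⟨single h c, single h⁻¹ c,
      by simp [single_mul_single, hc, one_def], by simp [single_mul_single, hc, one_def]⟩
    have h1 := ell_comm hodd f hf (zpowersHom G g) u 0 (by
      obtain ⟨a, ha⟩ := hodd.pow (n := k + 1)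
      obtain ⟨b, hb⟩ := hodd.pow (n := k)
      simp only [u, Units.inv_mk, mapDomain_single, single_pow, single_mul_single,
        powMonoidHom_apply, ← pow_mul, ← pow_succ', ← mul_pow, mul_inv_cancel, one_pow]
      rw [ha, hb, smul_zero, eq_comm, sub_eq_zero, one_def]
      congr 1
      rw [show c ^ (2 * a + 1) * c ^ (2 * b + 1) = (c * c) ^ (a + b + 1) by ring, hc, one_pow])
    rw [ucl, cl_map _ (u.isUnit.map _), map_zero, map_zero] at h1
    rw [SetLike.mem_coe, AddMonoidHom.mem_ker, ← cl_mk, ← h1]
    congr 2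
    ext i j : 1
    fin_cases i; fin_cases j
    simp [hA, u, h])

theorem ellWh_comm {H : Type v} [CommGroup H] (φ : H →* G) (u : ℤ[H]ˣ) (w : ℤ[H])
    (hw : p ^ (k + 1) • w =
      u.val ^ p ^ (k + 1) * mapDomain (powMonoidHom p) (u⁻¹).val ^ p ^ k - 1) :
    ellWh hodd f hf (Wh.map φ (Wh.mk H (ucl u.val))) = lin (f ∘ φ) (red _ _ w) :=
  ell_comm hodd f hf φ u w hw

end Pool.Agent.WhDet
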