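import Pool.Agent.Lib.MP_63c928_gt.WH.Brandt
import Pool.Agent.Lib.MP_63c928_gt.WH.Artin

/-! The logarithm on the units of the group ring of a finite abelian group. -/

namespace Pool.Agent.WhDet

open Matrix hiding single smul_single
open MonoidAlgebra hiding mul_apply of of_apply

universe u v

variable {p : ℕ} [hp : Fact p.Prime] (hodd : Odd p) {H : Type u} [CommGroup H]

/-- The defining equation of the logarithm. -/
def IsW (p k : ℕ) (u : ℤ[H]ˣ) (w : ℤ[H]) : Prop :=
  p ^ (k + 1) • w = u.val ^ p ^ (k + 1) * mapDomain (powMonoidHom p) (u⁻¹).val ^ p ^ k - 1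

theorem nsmul_cancel {X : Type*} {n : ℕ} (hn : n ≠ 0) {a b : ℤ[X]} (h : n • a = n • b) :
    a = b := by
  ext x
  have := congrArg (fun t => t.coeff x) h
  simp only [coeff_smul_apply] at this
  exact nsmul_right_injective hn this

theorem red_nsmul {X : Type*} [Monoid X] (m : ℕ) (a : ℤ[X]) : red m X (m • a) = 0 := by
  rw [map_nsmul, ← Nat.cast_smul_eq_nsmul (ZMod m), ZMod.natCast_self, zero_smul]

theorem exists_of_red_eq_zero {X : Type*} [Monoid X] {m : ℕ} {a : ℤ[X]} (h : red m X a = 0) :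
    ∃ b, a = m • b := by
  refine ⟨ofCoeff (a.coeff.mapRange (· / (m : ℤ)) (by simp)), ?_⟩
  ext x
  have := congrArg (fun t => t.coeff x) h
  simp only [coeff_mapRingHom, eq_intCast, coeff_zero, Finsupp.coe_zero, Pi.zero_apply,
    ZMod.intCast_zmod_eq_zero_iff_dvd] at this
  rw [coeff_smul_apply, nsmul_eq_mul, Finsupp.mapRange_apply, Int.mul_ediv_cancel' this]

/-- The logarithm modulo `p ^ (k + 1)`. -/
noncomputable def lam0 (k : ℕ) (u : ℤ[H]ˣ) : (ZMod (p ^ (k + 1)))[H] :=
  red _ _ (exists_w (k := k) hodd u).choose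

theorem lam0_eq {k : ℕ} {u : ℤ[H]ˣ} {w : ℤ[H]} (h : IsW p k u w) : lam0 hodd k u = red _ _ w :=
  congrArg _ (nsmul_cancel (NeZero.ne _) ((exists_w (k := k) hodd u).choose_spec.trans h.symm))

/-- The logarithm as a homomorphism. -/
noncomputable def lam (k : ℕ) : Additive ℤ[H]ˣ →+ (ZMod (p ^ (k + 1)))[H] :=
  AddMonoidHom.mk' (fun u => lam0 hodd k u.toMul) fun u v => by
    obtain ⟨w, hw⟩ := exists_w (k := k) hodd u.toMul
    obtain ⟨z, hz⟩ := exists_w (k := k) hodd v.toMul
    have h : IsW p k (u.toMul * v.toMul) (w + z + p ^ (k + 1) • (w * z)) := by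
      rw [IsW, mul_inv, Units.val_mul, Units.val_mul, mapDomain_mul, mul_pow, mul_pow,
        mul_mul_mul_comm, eq_add_of_sub_eq hw.symm, eq_add_of_sub_eq hz.symm]
      simp only [nsmul_eq_mul]
      ring
    rw [toMul_add, lam0_eq hodd h, lam0_eq hodd hw, lam0_eq hodd hz, map_add, red_nsmul, add_zero,
      map_add]

theorem lam_eq {k : ℕ} {u : ℤ[H]ˣ} {w : ℤ[H]} (h : IsW p k u w) :
    lam hodd k (.ofMul u) = red _ _ w := lam0_eq hodd h

theorem ellWh_lam {G : Type v} [Group G] {k : ℕ} (f : G → ZMod (p ^ (k + 1)))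
    (hf : ∀ a b, f (a * b) = f (b * a)) (φ : H →* G) (u : Additive ℤ[H]ˣ) :
    ellWh hodd f hf (Wh.map φ (Wh.mk H (uclHom _ u))) = lin (f ∘ φ) (lam hodd k u) :=
  ellWh_comm hodd f hf φ _ _ (exists_w (k := k) hodd u.toMul).choose_spec

theorem lam_map {H' : Type v} [CommGroup H'] (φ : H →* H') (k : ℕ) (u : ℤ[H]ˣ) :
    lam hodd k (.ofMul (Units.map (mapDomainRingHom ℤ φ).toMonoidHom u)) =
      mapDomain φ (lam hodd k (.ofMul u)) := by
  obtain ⟨w, hw⟩ := exists_w (k := k) hodd u
  rw [lam_eq hodd hw, lam_eq hodd (w := mapDomain φ w), red_mapDomain, mapDomainAlgHom_apply]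
  have := congrArg (mapDomainRingHom ℤ φ) hw
  rw [map_nsmul, map_sub, map_mul, map_pow, map_pow, map_one] at this
  refine this.trans ?_
  rw [← map_inv]
  congr 3
  change mapDomain _ (mapDomain _ _) = mapDomain _ (mapDomain φ _)
  rw [mapDomain_comp', mapDomain_comp']
  congr 1
  ext x
  simp

theorem trace_twist {X : Type*} [Fintype X] [DecidableEq X] (ρ : H →* Matrix X X ℤ) (w : ℤ[H])
    (h : H) : (twist ρ w).trace.coeff h = (ρ h).trace * w.coeff h := by
  classical
  induction w using MonoidAlgebra.induction_linear with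
  | zero => simp
  | add a b ha hb => simp [ha, hb, mul_add]
  | single g c =>
    simp only [trace, diag_apply, twist_single, coeff_sum, Finsupp.finsetSum_apply, coeff_single,
      Finsupp.single_apply]
    split_ifs with hg
    · simp [hg, Finset.mul_sum, mul_comm]
    · simp

variable [Finite H] (hpH : (Nat.card H).Coprime p)

section Norm

variable (C : Subgroup H) [Fintype (H ⧸ C)] [DecidableEq (H ⧸ C)]

/-- The norm to a subgroup. -/
noncomputable def nrm : ℤ[H] →* ℤ[H] := detMonoidHom.comp (twist (perm H (H ⧸ C))).toMonoidHom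

include hpH in
theorem nrm_frob (a : ℤ[H]) :
    nrm C (mapDomain (powMonoidHom p) a) = mapDomain (powMonoidHom p) (nrm C a) := by
  let e : H ⧸ C ≃ H ⧸ C := powCoprime (hpH.coprime_dvd_left C.card_quotient_dvd_card)
  refine Eq.trans ?_ ((mapDomainRingHom ℤ (powMonoidHom (α := H) p)).map_det
    (twist (perm H (H ⧸ C)) a)).symm
  rw [← det_submatrix_equiv_self e.symm]
  change det (twist _ (mapDomainRingHom ℤ (powMonoidHom p) a)) = _
  congr 1
  ext x y : 1
  obtain ⟨x, rfl⟩ := e.surjective x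
  obtain ⟨y, rfl⟩ := e.surjective y
  simp only [submatrix_apply, Equiv.symm_apply_apply, RingHom.mapMatrix_apply, map_apply]
  change _ = mapDomainRingHom ℤ (powMonoidHom p) (twist _ a x y)
  induction a using MonoidAlgebra.induction_linear with
  | zero => simp only [map_zero, Matrix.zero_apply]
  | add a b ha hb => simp only [map_add, Matrix.add_apply, ha, hb]
  | single g c =>
    simp only [mapDomainRingHom_apply, mapDomain_single, twist_single, powMonoidHom_apply]
    have : g ^ p • e y = e (g • y) := by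
      obtain ⟨y, rfl⟩ := QuotientGroup.mk_surjective y
      change ((g ^ p * y ^ p : H) : H ⧸ C) = ((g * y : H) : H ⧸ C) ^ p
      rw [← mul_pow, QuotientGroup.mk_pow]
    simp [perm, this]

include hpH in
theorem lam_nrm (k : ℕ) (u : ℤ[H]ˣ) (h : H) :
    (lam hodd k (.ofMul (Units.map (nrm C) u))).coeff h =
      (perm H (H ⧸ C) h).trace * (lam hodd k (.ofMul u)).coeff h := by
  obtain ⟨w, hw⟩ := exists_w (k := k) hodd u
  obtain ⟨r, hr⟩ : ∃ r, nrm C (1 + p ^ (k + 1) • w) = 1 + (twist (perm H (H ⧸ C)) w).trace *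
      ((p ^ (k + 1) : ℕ) : ℤ[H]) + r * ((p ^ (k + 1) : ℕ) : ℤ[H]) ^ 2 := by
    refine ⟨_, Eq.trans ?_ (det_one_add_smul _ _)⟩
    change det (twist _ _) = _
    rw [map_add, map_one, map_nsmul, Nat.cast_smul_eq_nsmul]
  rw [lam_eq hodd hw, lam_eq hodd (w := (twist (perm H (H ⧸ C)) w).trace + p ^ (k + 1) • r),
    map_add, red_nsmul, add_zero, coeff_mapRingHom, coeff_mapRingHom, trace_twist]
  · simp
  · rw [IsW, ← map_inv, Units.coe_map, Units.coe_map, ← nrm_frob hpH, ← map_pow, ← map_pow,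
      ← map_mul, eq_add_of_sub_eq' hw.symm, hr]
    simp only [nsmul_eq_mul]
    ring

theorem ucl_nrm (u : ℤ[H]ˣ) :
    ucl (nrm C u.val) ∈ sat (K1.map (mapDomainRingHom ℤ C.subtype)).range := by
  have h1 := theta_quot_mem C (u.isUnit.map (scalar (Fin 1)))
  have h2 := cl_sub_det (u.isUnit.map (twist (perm H (H ⧸ C))))
  rw [← cl_reindex (Equiv.uniqueProd _ (Fin 1)), show reindex _ _ _ =
    twist (perm H (H ⧸ C)) u.val by ext x y : 1; simp [Psi_apply]] at h1
  rw [← sub_sub_cancel (cl (twist (perm H (H ⧸ C)) u.val)) (ucl (nrm C u.val))]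
  exact sub_mem (le_sat h1) (sat_map (AddMonoidHom.id _) (by simp) h2)

end Norm

include hpH in
theorem torsion_of_lam (u : ℤ[H]ˣ) (h : ∀ k, lam hodd k (.ofMul u) = 0) :
    ∃ n : ℕ, n ≠ 0 ∧ u ^ n = 1 := by
  set v := u.val ^ p * mapDomain (powMonoidHom p) (u⁻¹).val with hv
  have h1 : ∀ k, ∃ t : ℤ[H], v ^ p ^ k = 1 + p ^ (k + 1) • p ^ (k + 1) • t := fun k => by
    obtain ⟨w, hw⟩ := exists_w (k := k) hodd u
    obtain ⟨t, rfl⟩ := exists_of_red_eq_zero ((lam_eq hodd hw).symm.trans (h k))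
    exact ⟨t, by rw [hw, hv, mul_pow, ← pow_mul, ← pow_succ', add_sub_cancel]⟩
  have h2 : ∀ j, ∃ z : ℤ[H], v = 1 + (p : ℤ[H]) ^ (j + 1) * z := fun j => by
    induction j with
    | zero =>
      obtain ⟨t, ht⟩ := h1 0
      exact ⟨p * t, by simpa using ht⟩
    | succ j ih =>
      obtain ⟨z, hz⟩ := ih
      obtain ⟨t, ht⟩ := h1 (j + 1)
      have h3 : 3 ≤ p := hp.out.two_le.lt_of_ne fun h => by simp [← h] at hodd; norm_num at hodd
      obtain ⟨y, hy⟩ := ZMod.exists_one_add_mul_pow_prime_pow_eq (u := (p : ℤ[H]) ^ (j + 1))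
        (v := p) hp.out (dvd_pow_self _ (by omega)) (by
          rw [← pow_succ', ← pow_succ, ← pow_mul]
          exact pow_dvd_pow _ (by nlinarith)) z (j + 1)
      refine ⟨p * t - y, ?_⟩
      have h4 : z = p * (p * t - y) := by
        refine nsmul_cancel (n := p ^ (j + 1) * p ^ (j + 1))
          (mul_ne_zero (NeZero.ne _) (NeZero.ne _)) ?_
        rw [← hz, ht] at hy
        simp only [nsmul_eq_mul, Nat.cast_mul, Nat.cast_pow] at hy ⊢
        linear_combination -hy
      rw [hz, h4]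
      ring
  have h3 : v = 1 := by
    rw [← sub_eq_zero]
    ext x
    refine Int.eq_zero_of_dvd_of_natAbs_lt_natAbs
      (d := p ^ (((v - 1).coeff x).natAbs + 1)) ?_ ?_
    · obtain ⟨z, hz⟩ := h2 ((v - 1).coeff x).natAbs
      refine ⟨z.coeff x, ?_⟩
      generalize ((v - 1).coeff x).natAbs = n at *
      rw [hz, add_sub_cancel_left, ← Nat.cast_pow, ← nsmul_eq_mul, coeff_smul_apply, nsmul_eq_mul,
        Nat.cast_pow]
    · rw [Int.natAbs_pow, Int.natAbs_natCast]
      exact (Nat.lt_succ_self _).trans (Nat.lt_pow_self hp.out.one_lt)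
  have h4 : u.val ^ p = mapDomain (powMonoidHom p) u.val := by
    rw [← one_mul (mapDomain _ _), ← h3, hv, mul_assoc, ← mapDomain_mul, Units.inv_mul,
      mapDomain_one, mul_one]
  have h5 : ∀ i, u.val ^ p ^ i = mapDomain (fun h => h ^ p ^ i) u.val := fun i => by
    induction i with
    | zero =>
      simp only [pow_zero, pow_one]
      exact congrArg ofCoeff Finsupp.mapDomain_id.symm
    | succ i ih =>
      rw [pow_succ', pow_mul, h4, ← mapDomainRingHom_apply, ← map_pow, ih, mapDomainRingHom_apply,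
        mapDomain_comp']
      congr 1
      ext h
      simp [← pow_mul, mul_comm]
  have h6 : 0 < (Nat.card H).totient := Nat.totient_pos.2 Nat.card_pos
  refine ⟨p ^ (Nat.card H).totient - 1,
    Nat.sub_ne_zero_of_lt (Nat.one_lt_pow h6.ne' hp.out.one_lt), ?_⟩
  have h7 : u ^ p ^ (Nat.card H).totient = u := by
    refine Units.ext ?_
    have : (fun h : H => h ^ p ^ (Nat.card H).totient) = id := funext fun h => by
      rw [pow_eq_pow_iff_modEq.2 ((Nat.ModEq.pow_totient hpH.symm).of_dvd (orderOf_dvd_natCard h)),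
        pow_one, id]
    rw [Units.val_pow_eq_pow_val, h5, this]
    simp [mapDomain]
  rw [pow_sub _ (Nat.one_le_pow _ _ hp.out.pos), h7, pow_one, mul_inv_cancel]

/-- The subgroup generated by the images of the `K₁` of the proper subgroups. -/
noncomputable def propInd (H : Type u) [Group H] : AddSubgroup (K1 ℤ[H]) :=
  ⨆ C : {C : Subgroup H // C ≠ ⊤}, (K1.map (mapDomainRingHom ℤ C.1.subtype)).range

include hpH in
theorem mem_propInd (u : Additive ℤ[H]ˣ)
    (h : ∀ k c, (∀ x, x ∈ Subgroup.zpowers c) → (lam hodd k u).coeff c = 0) :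
    uclHom _ u ∈ sat (propInd H) := by
  classical
  have := Fintype.ofFinite {C : Subgroup H // C ≠ ⊤}
  have key : ∀ S : Finset {C : Subgroup H // C ≠ ⊤}, ∃ (v : Additive ℤ[H]ˣ) (N : ℕ), N ≠ 0 ∧
      uclHom _ v - N • uclHom _ u ∈ sat (propInd H) ∧ ∀ k c,
        ((∀ x, x ∈ Subgroup.zpowers c) ∨ ∃ C ∈ S, c ∈ C.1) → (lam hodd k v).coeff c = 0 := by
    intro S
    induction S using Finset.induction_on with
    | empty => exact ⟨u, 1, one_ne_zero, by simp, by simpa using h⟩
    | insert C S _ ih =>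
      obtain ⟨v, N, hN, h1, h2⟩ := ih
      have := Fintype.ofFinite (H ⧸ C.1)
      refine ⟨Fintype.card (H ⧸ C.1) • v - .ofMul (Units.map (nrm C.1) v.toMul),
        Fintype.card (H ⧸ C.1) * N, mul_ne_zero Fintype.card_ne_zero hN, ?_, fun k c hc => ?_⟩
      · rw [map_sub, map_nsmul, mul_smul, sub_right_comm, ← smul_sub]
        exact sub_mem (nsmul_mem h1 _) (sat_map (AddMonoidHom.id _)
          (fun x hx => le_sat (AddSubgroup.mem_iSup_of_mem C hx)) (ucl_nrm C.1 v.toMul))
      · rw [map_sub, map_nsmul, coeff_sub, Finsupp.sub_apply, lam_nrm hodd hpH, coeff_smul_apply,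
          ofMul_toMul]
        by_cases hC : c ∈ C.1
        · have : perm H (H ⧸ C.1) c = 1 := by
            ext x y
            obtain ⟨y, rfl⟩ := QuotientGroup.mk_surjective y
            have : c • (y : H ⧸ C.1) = y := by
              change ((c * y : H) : H ⧸ C.1) = y
              rw [mul_comm, QuotientGroup.mk_mul_of_mem _ hC]
            simp [perm, this, one_apply]
          simp [this]
        · rw [h2 k c (by simpa [hC] using hc)]
          simp
  obtain ⟨v, N, hN, h1, h2⟩ := key Finset.univ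
  obtain ⟨n, hn, hv⟩ := torsion_of_lam hodd hpH v.toMul fun k => by
    ext c
    refine h2 k c ?_
    by_cases hc : Subgroup.zpowers c = ⊤
    · exact Or.inl fun x => hc ▸ Subgroup.mem_top x
    · exact Or.inr ⟨⟨_, hc⟩, Finset.mem_univ _, Subgroup.mem_zpowers c⟩
  refine sat_of_nsmul hN ?_
  rw [← sub_sub_cancel (uclHom _ v) (N • uclHom _ u)]
  refine sub_mem ⟨n, hn, ?_⟩ h1
  rw [← map_nsmul, show n • v = 0 from hv, map_zero]
  exact zero_mem _

end Pool.Agent.WhDet
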