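import Mathlib

/-!
Definitions: `K1 R`, the Whitehead group `Wh G`, the colimit of the Whitehead groups of the
finite subgroups over the subgroup category, and the assembly map.
-/

namespace Pool.Agent.WhDet

open Matrix

universe u v w

/-- Invertible square matrices of all finite sizes. -/
abbrev Gen (R : Type u) [Ring R] : Type u := Σ n : ℕ, (Matrix (Fin n) (Fin n) R)ˣ

/-- Stabilisation `A ↦ diag(A, 1)`. -/
def stab {R : Type u} [Ring R] {n : ℕ} (A : Matrix (Fin n) (Fin n) R) :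
    Matrix (Fin (n + 1)) (Fin (n + 1)) R :=
  reindex finSumFinEquiv finSumFinEquiv (fromBlocks A 0 0 (1 : Matrix (Fin 1) (Fin 1) R))

/-- The relations `[AB] = [A] + [B]` and `[diag(A,1)] = [A]`. -/
def K1Rel (R : Type u) [Ring R] : Set (FreeAbelianGroup (Gen R)) :=
  {x | (∃ (n : ℕ) (A B : (Matrix (Fin n) (Fin n) R)ˣ),
        x = .of ⟨n, A * B⟩ - .of ⟨n, A⟩ - .of ⟨n, B⟩) ∨
      (∃ (n : ℕ) (A : (Matrix (Fin n) (Fin n) R)ˣ) (B : (Matrix (Fin (n + 1)) (Fin (n + 1)) R)ˣ),
        B.val = stab A.val ∧ x = .of ⟨n + 1, B⟩ - .of ⟨n, A⟩)}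

/-- `K₁(R) = GL(R)^{ab}`, written additively. -/
def K1 (R : Type u) [Ring R] : Type u :=
  FreeAbelianGroup (Gen R) ⧸ AddSubgroup.closure (K1Rel R)

noncomputable instance instAddCommGroupK1 (R : Type u) [Ring R] : AddCommGroup (K1 R) :=
  QuotientAddGroup.Quotient.addCommGroup _

/-- The class in `K₁(R)` of an invertible matrix. -/
def K1.mk {R : Type u} [Ring R] {n : ℕ} (A : (Matrix (Fin n) (Fin n) R)ˣ) : K1 R :=
  (QuotientAddGroup.mk (FreeAbelianGroup.of ⟨n, A⟩) :
    FreeAbelianGroup (Gen R) ⧸ AddSubgroup.closure (K1Rel R))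

/-- A family of homomorphisms `GL_n(R) → Q` compatible with stabilisation gives `K₁(R) → Q`. -/
noncomputable def K1.lift {R : Type u} [Ring R] {Q : Type v} [AddCommGroup Q] (f : Gen R → Q)
    (hmul : ∀ (n : ℕ) (A B : (Matrix (Fin n) (Fin n) R)ˣ), f ⟨n, A * B⟩ = f ⟨n, A⟩ + f ⟨n, B⟩)
    (hstab : ∀ (n : ℕ) (A : (Matrix (Fin n) (Fin n) R)ˣ)
      (B : (Matrix (Fin (n + 1)) (Fin (n + 1)) R)ˣ), B.val = stab A.val → f ⟨n + 1, B⟩ = f ⟨n, A⟩) :
    K1 R →+ Q :=
  QuotientAddGroup.lift _ (FreeAbelianGroup.lift f) (by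
    refine (AddSubgroup.closure_le (FreeAbelianGroup.lift f).ker).2 ?_
    rintro x (⟨n, A, B, rfl⟩ | ⟨n, A, B, h, rfl⟩)
    · simp [hmul]
    · simp [hstab n A B h])

theorem K1.lift_mk {R : Type u} [Ring R] {Q : Type v} [AddCommGroup Q] (f : Gen R → Q)
    (hmul hstab) {n : ℕ} (A : (Matrix (Fin n) (Fin n) R)ˣ) :
    K1.lift f hmul hstab (K1.mk A) = f ⟨n, A⟩ :=
  FreeAbelianGroup.lift_apply_of _ _

theorem K1.mk_mul {R : Type u} [Ring R] {n : ℕ} (A B : (Matrix (Fin n) (Fin n) R)ˣ) :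
    K1.mk (A * B) = K1.mk A + K1.mk B := by
  have h : (QuotientAddGroup.mk (.of ⟨n, A * B⟩ - .of ⟨n, A⟩ - .of ⟨n, B⟩) :
      FreeAbelianGroup (Gen R) ⧸ AddSubgroup.closure (K1Rel R)) = 0 :=
    (QuotientAddGroup.eq_zero_iff _).2 (AddSubgroup.subset_closure (Or.inl ⟨n, A, B, rfl⟩))
  rw [sub_sub, QuotientAddGroup.mk_sub, sub_eq_zero] at h
  exact h

theorem K1.mk_stab {R : Type u} [Ring R] {n : ℕ} (A : (Matrix (Fin n) (Fin n) R)ˣ)
    (B : (Matrix (Fin (n + 1)) (Fin (n + 1)) R)ˣ) (h : B.val = stab A.val) :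
    K1.mk B = K1.mk A := by
  have h : (QuotientAddGroup.mk (.of ⟨n + 1, B⟩ - .of ⟨n, A⟩) :
      FreeAbelianGroup (Gen R) ⧸ AddSubgroup.closure (K1Rel R)) = 0 :=
    (QuotientAddGroup.eq_zero_iff _).2 (AddSubgroup.subset_closure (Or.inr ⟨n, A, B, h, rfl⟩))
  rw [QuotientAddGroup.mk_sub, sub_eq_zero] at h
  exact h

theorem K1.hom_ext {R : Type u} [Ring R] {Q : Type v} [AddCommGroup Q] {f g : K1 R →+ Q}
    (h : ∀ (n : ℕ) (A : (Matrix (Fin n) (Fin n) R)ˣ), f (K1.mk A) = g (K1.mk A)) : f = g :=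
  QuotientAddGroup.addMonoidHom_ext _ (FreeAbelianGroup.lift_ext _ _ fun x => h x.1 x.2)

/-- A ring homomorphism applied to the entries of an invertible matrix. -/
def mapGL {R : Type u} {S : Type v} [Ring R] [Ring S] (φ : R →+* S) (n : ℕ) :
    (Matrix (Fin n) (Fin n) R)ˣ →* (Matrix (Fin n) (Fin n) S)ˣ :=
  Units.map φ.mapMatrix.toMonoidHom

theorem mapGL_val {R : Type u} {S : Type v} [Ring R] [Ring S] (φ : R →+* S) (n : ℕ)
    (A : (Matrix (Fin n) (Fin n) R)ˣ) : (mapGL φ n A).val = A.val.map φ := rfl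

/-- The map on `K₁` induced by a ring homomorphism. -/
noncomputable def K1.map {R : Type u} {S : Type v} [Ring R] [Ring S] (φ : R →+* S) :
    K1 R →+ K1 S :=
  K1.lift (fun x => K1.mk (mapGL φ x.1 x.2))
    (fun n A B => by simp only [map_mul, K1.mk_mul])
    (fun n A B h => K1.mk_stab _ _ (by
      simp only [mapGL_val, h, stab,
        reindex_apply, ← submatrix_map, fromBlocks_map, Matrix.map_zero _ (map_zero φ),
        Matrix.map_one _ (map_zero φ) (map_one φ)]))

theorem K1.map_mk {R : Type u} {S : Type v} [Ring R] [Ring S] (φ : R →+* S) {n : ℕ}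
    (A : (Matrix (Fin n) (Fin n) R)ˣ) : K1.map φ (K1.mk A) = K1.mk (mapGL φ n A) :=
  K1.lift_mk _ _ _ _

/-- The classes of the `1 × 1` matrices `(± g)`, `g ∈ G`. -/
def trivialUnits (G : Type u) [Group G] : Set (K1 (MonoidAlgebra ℤ G)) :=
  {x | ∃ (g : G) (A : (Matrix (Fin 1) (Fin 1) (MonoidAlgebra ℤ G))ˣ),
    (A.val 0 0 = .single g 1 ∨ A.val 0 0 = .single g (-1)) ∧ x = K1.mk A}

/-- The Whitehead group `Wh(G) = K₁(ℤG) / ⟨[± g]⟩`. -/
def Wh (G : Type u) [Group G] : Type u :=
  K1 (MonoidAlgebra ℤ G) ⧸ AddSubgroup.closure (trivialUnits G)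

noncomputable instance instAddCommGroupWh (G : Type u) [Group G] : AddCommGroup (Wh G) :=
  QuotientAddGroup.Quotient.addCommGroup _

/-- The projection `K₁(ℤG) → Wh(G)`. -/
noncomputable def Wh.mk (G : Type u) [Group G] : K1 (MonoidAlgebra ℤ G) →+ Wh G :=
  QuotientAddGroup.mk' _

/-- The map `Wh(H) → Wh(G)` induced by a group homomorphism. -/
noncomputable def Wh.map {H : Type u} {G : Type v} [Group H] [Group G] (φ : H →* G) :
    Wh H →+ Wh G :=
  QuotientAddGroup.map _ _ (K1.map (MonoidAlgebra.mapDomainRingHom ℤ φ)) (by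
    refine (AddSubgroup.closure_le _).2 ?_
    rintro x ⟨g, A, hA, rfl⟩
    refine AddSubgroup.subset_closure ⟨φ g, _, ?_, K1.map_mk _ A⟩
    rcases hA with hA | hA
    · left; simp [mapGL_val, hA]
    · right; simp only [mapGL_val, map_apply, hA,
        MonoidAlgebra.mapDomainRingHom_apply, MonoidAlgebra.mapDomain_single])

theorem Wh.map_mk {H : Type u} {G : Type v} [Group H] [Group G] (φ : H →* G)
    (x : K1 (MonoidAlgebra ℤ H)) :
    Wh.map φ (Wh.mk H x) = Wh.mk G (K1.map (MonoidAlgebra.mapDomainRingHom ℤ φ) x) := rfl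

theorem Wh.hom_ext {G : Type u} [Group G] {Q : Type v} [AddCommGroup Q] {f g : Wh G →+ Q}
    (h : ∀ (n : ℕ) (A : (Matrix (Fin n) (Fin n) (MonoidAlgebra ℤ G))ˣ),
      f (Wh.mk G (K1.mk A)) = g (Wh.mk G (K1.mk A))) : f = g :=
  QuotientAddGroup.addMonoidHom_ext _ (K1.hom_ext h)

/-- Homomorphisms that differ by an inner automorphism induce the same map. -/
theorem Wh.map_conj {H : Type u} {K : Type w} {G : Type v} [Group H] [Group K] [Group G]
    (φ : H →* K) (ψ : K →* G) (χ : H →* G) (g : G) (h : ∀ x, ψ (φ x) = g * χ x * g⁻¹) (a : Wh H) :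
    Wh.map ψ (Wh.map φ a) = Wh.map χ a := by
  refine DFunLike.congr_fun (f := (Wh.map ψ).comp (Wh.map φ)) (Wh.hom_ext fun n A => ?_) a
  simp only [AddMonoidHom.comp_apply, Wh.map_mk, K1.map_mk]
  congr 1
  let D : (Matrix (Fin n) (Fin n) (MonoidAlgebra ℤ G))ˣ :=
    ⟨diagonal fun _ => .single g 1, diagonal fun _ => .single g⁻¹ 1,
      by simp [diagonal_mul_diagonal, MonoidAlgebra.single_mul_single, ← MonoidAlgebra.one_def],
      by simp [diagonal_mul_diagonal, MonoidAlgebra.single_mul_single, ← MonoidAlgebra.one_def]⟩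
  have key : ∀ y : MonoidAlgebra ℤ H,
      MonoidAlgebra.mapDomainRingHom ℤ ψ (MonoidAlgebra.mapDomainRingHom ℤ φ y) * .single g 1 =
        .single g 1 * MonoidAlgebra.mapDomainRingHom ℤ χ y := by
    intro y
    induction y using MonoidAlgebra.induction_linear with
    | zero => simp
    | add y z hy hz => simp only [map_add, add_mul, mul_add, hy, hz]
    | single x c => simp [h, MonoidAlgebra.single_mul_single]
  refine add_right_cancel (b := K1.mk D) ?_
  rw [← K1.mk_mul, add_comm, ← K1.mk_mul]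
  congr 1
  ext i j : 2
  simp only [Units.val_mul, mapGL_val, D,
    mul_diagonal, diagonal_mul, map_apply, key]

/-- The finite subgroups of `G`. -/
abbrev FinSub (G : Type u) [Group G] : Type u := {H : Subgroup G // Finite H}

/-- The Whitehead group of a finite subgroup. -/
def WhF {G : Type u} [Group G] (H : FinSub G) : Type u := Wh H.1

noncomputable instance instAddCommGroupWhF {G : Type u} [Group G] (H : FinSub G) :
    AddCommGroup (WhF H) := instAddCommGroupWh H.1

/-- The direct sum of the Whitehead groups of the finite subgroups. -/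
def WhSum (G : Type u) [Group G] : Type u := DirectSum (FinSub G) WhF

noncomputable instance instAddCommGroupWhSum (G : Type u) [Group G] : AddCommGroup (WhSum G) :=
  (inferInstance : AddCommGroup (DirectSum (FinSub G) WhF))

open Classical in
/-- The inclusion of a summand. -/
noncomputable def WhSum.of {G : Type u} [Group G] (H : FinSub G) : Wh H.1 →+ WhSum G :=
  DirectSum.of WhF H

open Classical in
/-- The sum of the maps induced by the inclusions `H → G`. -/
noncomputable def WhSum.desc (G : Type u) [Group G] : WhSum G →+ Wh G :=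
  DirectSum.toAddMonoid (β := WhF) fun H => Wh.map H.1.subtype

open Classical in
theorem WhSum.desc_of {G : Type u} [Group G] (H : FinSub G) (a : Wh H.1) :
    WhSum.desc G (WhSum.of H a) = Wh.map H.1.subtype a :=
  DirectSum.toAddMonoid_of (β := WhF) (fun H => Wh.map H.1.subtype) H a

/-- The relations `c_* a = a` for the conjugation homomorphisms `c : H → K`, `c(h) = g h g⁻¹`,
between finite subgroups (for `g = 1` these are the inclusions). -/
def ColRel (G : Type u) [Group G] : Set (WhSum G) :=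
  {x | ∃ (H K : FinSub G) (g : G) (c : H.1 →* K.1), (∀ h, (c h : G) = g * h * g⁻¹) ∧
    ∃ a : Wh H.1, x = WhSum.of K (Wh.map c a) - WhSum.of H a}

/-- The colimit of `Wh(H)` over the finite subgroups `H` of `G` and the conjugation maps. -/
def Col (G : Type u) [Group G] : Type u := WhSum G ⧸ AddSubgroup.closure (ColRel G)

noncomputable instance instAddCommGroupCol (G : Type u) [Group G] : AddCommGroup (Col G) :=
  QuotientAddGroup.Quotient.addCommGroup _

/-- The map `colim Wh(H) → Wh(G)` induced by the inclusions `H → G`. -/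
noncomputable def assembly (G : Type u) [Group G] : Col G →+ Wh G :=
  QuotientAddGroup.lift _ (WhSum.desc G) (by
    refine (AddSubgroup.closure_le (WhSum.desc G).ker).2 ?_
    rintro x ⟨H, K, g, c, hc, a, rfl⟩
    simp only [SetLike.mem_coe, AddMonoidHom.mem_ker, map_sub, WhSum.desc_of]
    rw [Wh.map_conj c K.1.subtype H.1.subtype g hc, sub_self])

end Pool.Agent.WhDet
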