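import Pool.Agent.Lib.MP_63c928_gt.WH.Cyc

/-! Rational injectivity of the assembly map on the colimit of the finite Whitehead groups. -/

namespace Pool.Agent.WhDet

open MonoidAlgebra

universe u v w

variable {G : Type u} [Group G]

/-- The structure map of the colimit. -/
noncomputable def colIn (H : FinSub G) : Wh H.1 →+ Col G :=
  (QuotientAddGroup.mk' _).comp (WhSum.of H)

theorem colIn_map {H K : FinSub G} (g : G) (c : H.1 →* K.1) (hc : ∀ h, (c h : G) = g * h * g⁻¹)
    (a : Wh H.1) : colIn K (Wh.map c a) = colIn H a := by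
  rw [← sub_eq_zero]
  exact (QuotientAddGroup.eq_zero_iff _).2 (AddSubgroup.subset_closure ⟨H, K, g, c, hc, a, rfl⟩)

/-- The map to the colimit induced by a homomorphism from a finite group. -/
noncomputable def colOf {H : Type v} [Group H] [Finite H] (φ : H →* G) : Wh H →+ Col G :=
  (colIn ⟨φ.range, Finite.of_surjective _ φ.rangeRestrict_surjective⟩).comp
    (Wh.map φ.rangeRestrict)

theorem colOf_conj {H : Type v} {H' : Type w} [Group H] [Finite H] [Group H'] [Finite H']
    (φ : H →* G) (φ' : H' →* G) (ψ : H →* H') (g : G) (h : ∀ x, φ' (ψ x) = g * φ x * g⁻¹)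
    (a : Wh H) : colOf φ' (Wh.map ψ a) = colOf φ a := by
  let c : φ.range →* φ'.range := ((MulAut.conj g).toMonoidHom.comp φ.range.subtype).codRestrict _
    (by rintro ⟨_, x, rfl⟩; exact ⟨ψ x, h x⟩)
  simp only [colOf, AddMonoidHom.comp_apply]
  rw [← colIn_map (H := ⟨φ.range, Finite.of_surjective _ φ.rangeRestrict_surjective⟩)
    (K := ⟨φ'.range, Finite.of_surjective _ φ'.rangeRestrict_surjective⟩) g c (fun _ => rfl),
    Wh.map_conj _ c (c.comp φ.rangeRestrict) 1 (by simp),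
    Wh.map_conj ψ _ (c.comp φ.rangeRestrict) 1 (fun x => by
      rw [one_mul, inv_one, mul_one]; exact Subtype.ext (h x))]

theorem assembly_colOf {H : Type v} [Group H] [Finite H] (φ : H →* G) (a : Wh H) :
    assembly G (colOf φ a) = Wh.map φ a := by
  refine Eq.trans ?_ (Wh.map_conj φ.rangeRestrict φ.range.subtype φ 1 (by simp) a)
  exact WhSum.desc_of _ _

theorem colIn_eq (H : FinSub G) (a : Wh H.1) :
    haveI := H.2; colIn H a = colOf H.1.subtype a :=
  haveI := H.2
  (colIn_map (K := ⟨H.1.subtype.range,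
    Finite.of_surjective _ H.1.subtype.rangeRestrict_surjective⟩) 1 H.1.subtype.rangeRestrict
      (fun h => by rw [one_mul, inv_one, mul_one]; rfl) a).symm

/-- The cyclic group of order `n + 1`. -/
abbrev Zc (n : ℕ) : Type := Multiplicative (ZMod (n + 1))

variable (G) in
/-- Classes of units of cyclic subgroups of order at most `d`. -/
noncomputable def V (d : ℕ) : AddSubgroup (Col G) :=
  AddSubgroup.closure {x | ∃ n < d, ∃ φ : Zc n →* G, Function.Injective φ ∧
    ∃ u, x = colOf φ (Wh.mk _ (uclHom _ u))}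

theorem V_mono {d e : ℕ} (h : d ≤ e) : V G d ≤ V G e :=
  AddSubgroup.closure_mono fun _ ⟨n, hn, hx⟩ => ⟨n, hn.trans_le h, hx⟩

theorem cyc_mem {C : Type v} [Group C] [Finite C] [IsCyclic C] (φ : C →* G)
    (hφ : Function.Injective φ) {d : ℕ} (hd : Nat.card C ≤ d) (x : K1 ℤ[C]) :
    colOf φ (Wh.mk C x) ∈ sat (V G d) := by
  obtain ⟨n, hn⟩ := Nat.exists_eq_add_one_of_ne_zero (Nat.card_pos (α := C)).ne'
  obtain ⟨e⟩ : Nonempty (Zc n ≃* C) := ⟨mulEquivOfCyclicCardEq (by simp [hn])⟩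
  rw [← colOf_conj φ (φ.comp e.toMonoidHom) e.symm.toMonoidHom 1 (by simp), Wh.map_mk]
  generalize K1.map (mapDomainRingHom ℤ e.symm.toMonoidHom) x = y
  have hy : y ∈ sat (uclHom ℤ[Zc n]).range := mem_sat_units y
  refine sat_map ((colOf (φ.comp e.toMonoidHom)).comp (Wh.mk (Zc n))) ?_ hy
  rintro _ ⟨u, rfl⟩
  exact le_sat (AddSubgroup.subset_closure
    ⟨n, by omega, φ.comp e.toMonoidHom, hφ.comp e.injective, u, rfl⟩)

theorem sub_mem_sat {H : Type v} [Group H] [Finite H] (φ : H →* G) (hφ : Function.Injective φ)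
    {ι : Type*} (C : ι → Subgroup H) {d : ℕ} (hC : ∀ i, IsCyclic (C i) ∧ Nat.card (C i) ≤ d)
    {x : K1 ℤ[H]} (hx : x ∈ sat (⨆ i, (K1.map (mapDomainRingHom ℤ (C i).subtype)).range)) :
    colOf φ (Wh.mk H x) ∈ sat (V G d) := by
  refine sat_map ((colOf φ).comp (Wh.mk H)) (fun y hy => ?_) hx
  induction hy using AddSubgroup.iSup_induction' with
  | hp i y hy =>
    obtain ⟨y, rfl⟩ := hy
    have := (hC i).1
    rw [AddMonoidHom.comp_apply, ← Wh.map_mk,
      colOf_conj (φ.comp (C i).subtype) φ (C i).subtype 1 (by simp)]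
    exact cyc_mem (φ.comp (C i).subtype) (hφ.comp (C i).subtype_injective) (hC i).2 y
  | h1 => rw [map_zero]; exact zero_mem _
  | hadd x y _ _ hx hy => rw [map_add]; exact add_mem hx hy

theorem exists_mem_sat (x : Col G) : ∃ d, x ∈ sat (V G d) := by
  classical
  induction x using QuotientAddGroup.induction_on with
  | H z =>
  induction z using DirectSum.induction_on with
  | zero => exact ⟨0, zero_mem _⟩
  | of H a =>
    have := H.2
    obtain ⟨y, rfl⟩ := QuotientAddGroup.mk_surjective a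
    refine ⟨Nat.card H.1, ?_⟩
    have h := sub_mem_sat H.1.subtype H.1.subtype_injective Subgroup.zpowers (d := Nat.card H.1)
      (fun c => ⟨inferInstance, Subgroup.card_le_card_group _⟩) (artin y)
    rw [← colIn_eq] at h
    convert h
    rfl
  | add x y hx hy =>
    obtain ⟨d, hd⟩ := hx
    obtain ⟨e, he⟩ := hy
    exact ⟨max d e, add_mem
      (sat_map (AddMonoidHom.id _) (fun _ h => le_sat (V_mono (le_max_left _ _) h)) hd)
      (sat_map (AddMonoidHom.id _) (fun _ h => le_sat (V_mono (le_max_right _ _) h)) he)⟩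

theorem orderOf_of_isConj {A : Type v} {B : Type w} [Group A] [Group B] {φ : A →* G} {ψ : B →* G}
    (hφ : Function.Injective φ) (hψ : Function.Injective ψ) {a : A} {b : B}
    (h : IsConj (φ a) (ψ b)) : orderOf a = orderOf b := by
  obtain ⟨g, hg⟩ := h
  rw [← orderOf_injective φ hφ, ← orderOf_injective ψ hψ, hg.orderOf_eq]

theorem exists_aut {Z : Type v} [Group Z] [Finite Z] {φ ψ : Z →* G} (hφ : Function.Injective φ)
    (hψ : Function.Injective ψ) {c h : Z} (hc : ∀ x, x ∈ Subgroup.zpowers c)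
    (hh : IsConj (φ h) (ψ c)) : ∃ α : Z ≃* Z, α h = c ∧ ∃ g, ∀ x, ψ (α x) = g * φ x * g⁻¹ := by
  have ho := orderOf_of_isConj hφ hψ hh
  have hgen : ∀ x, x ∈ Subgroup.zpowers h := fun x => by
    rw [Subgroup.eq_top_of_card_eq (Subgroup.zpowers h)
      (by rw [Nat.card_zpowers, ho, orderOf_eq_card_of_forall_mem_zpowers hc])]
    trivial
  obtain ⟨g, hg⟩ := isConj_iff.1 hh
  refine ⟨mulEquivOfOrderOfEq hgen hc ho, mulEquivOfOrderOfEq_apply_gen _ _ _, g, fun x => ?_⟩
  obtain ⟨i, rfl⟩ := Subgroup.mem_zpowers_iff.1 (hgen x)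
  rw [map_zpow, mulEquivOfOrderOfEq_apply_gen, map_zpow, map_zpow, ← hg, conj_zpow]

theorem map_uclHom {R S : Type*} [Ring R] [Ring S] (φ : R →+* S) (u : Rˣ) :
    K1.map φ (uclHom R (.ofMul u)) = uclHom S (.ofMul (Units.map φ.toMonoidHom u)) := by
  change K1.map φ (cl (Matrix.scalar (Fin 1) u.val)) = cl (Matrix.scalar (Fin 1) (φ u.val))
  rw [cl_map _ (u.isUnit.map _)]
  congr 1
  ext i j : 1
  fin_cases i; fin_cases j
  simp

variable {p : ℕ} [hp : Fact p.Prime] (hodd : Odd p)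

open Classical in
theorem top_mem {d : ℕ} (hd : d + 1 < p) (φ : Zc d →* G) (hφ : Function.Injective φ)
    (u : Additive ℤ[Zc d]ˣ) (h : ∀ k c, (∀ x, x ∈ Subgroup.zpowers c) →
      lin ((fun g => if IsConj g (φ c) then 1 else 0) ∘ φ) (lam hodd k u) = 0) :
    colOf φ (Wh.mk _ (uclHom _ u)) ∈ sat (V G d) := by
  have : Fintype (Zc d ≃* Zc d) := Fintype.ofFinite _
  let W : Finset (Zc d ≃* Zc d) := {α | ∃ g, ∀ x, φ (α x) = g * φ x * g⁻¹}
  have hW : W.card ≠ 0 := Finset.card_ne_zero_of_mem (a := MulEquiv.refl _) (by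
    simp only [W, Finset.mem_filter, Finset.mem_univ, true_and]; exact ⟨1, by simp⟩)
  let v : Additive ℤ[Zc d]ˣ :=
    ∑ α ∈ W, .ofMul (Units.map (mapDomainRingHom ℤ α.toMonoidHom).toMonoidHom u.toMul)
  have h1 : colOf φ (Wh.mk _ (uclHom _ v)) = W.card • colOf φ (Wh.mk _ (uclHom _ u)) := by
    simp only [v, map_sum]
    refine Finset.sum_eq_card_nsmul fun α hα => ?_
    obtain ⟨g, hg⟩ := (Finset.mem_filter.1 hα).2
    rw [← map_uclHom, ← Wh.map_mk, colOf_conj φ φ α.toMonoidHom g hg]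
    rfl
  refine sat_of_nsmul hW (h1 ▸ sub_mem_sat φ hφ (fun C : {C : Subgroup (Zc d) // C ≠ ⊤} => C.1)
    (fun C => ⟨inferInstance, ?_⟩) (mem_propInd hodd ?_ v fun k c hc => ?_))
  · have h2 : Nat.card C.1 ≠ Nat.card (Zc d) := fun h => C.2 (Subgroup.eq_top_of_card_eq _ h)
    have h3 := Subgroup.card_le_card_group C.1
    have h4 : Nat.card (Zc d) = d + 1 := by simp
    omega
  · have h4 : Nat.card (Zc d) = d + 1 := by simp
    rw [h4]
    exact (Nat.coprime_of_lt_prime (by omega) hd hp.out).symm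
  · rw [← h k c hc]
    simp only [v, map_sum, lam_map, coeff_sum, Finsupp.finsetSum_apply, ofMul_toMul]
    generalize lam hodd k u = t
    rw [lin, LinearMap.comp_apply, Finsupp.linearCombination_apply,
      Finsupp.sum_fintype _ _ (by simp)]
    simp only [Function.comp_apply, smul_eq_mul, mul_ite, mul_one, mul_zero]
    rw [← Finset.sum_filter]
    refine Finset.sum_bij (fun α _ => α.symm c) (fun α hα => ?_) (fun α _ β _ hαβ => ?_)
      (fun x hx => ?_) fun α _ => ?_
    · obtain ⟨g, hg⟩ := (Finset.mem_filter.1 hα).2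
      exact Finset.mem_filter.2 ⟨Finset.mem_univ _, isConj_iff.2 ⟨g, by rw [← hg]; simp⟩⟩
    · exact MulEquiv.symm_bijective.1 ((MulEquiv.eq_iff_eq_on_generator hc _ _).2 hαβ)
    · obtain ⟨α, h1, h2⟩ := exists_aut hφ hφ hc (Finset.mem_filter.1 hx).2
      exact ⟨α, Finset.mem_filter.2 ⟨Finset.mem_univ _, h2⟩, by rw [← h1]; simp⟩
    · exact Finsupp.mapDomain_equiv_apply (f := α.toEquiv) _ _

theorem lin_zero {M R : Type*} [CommRing R] {f : M → R} (hf : ∀ x, f x = 0) (t : R[M]) :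
    lin f t = 0 := by
  rw [show f = 0 from funext hf]; simp [lin]

theorem torsion_of_mem (d : ℕ) (hd : d < p) : ∀ x ∈ V G d,
    (∀ k f hf, ellWh (k := k) hodd f hf (assembly G x) = 0) → x ∈ sat (⊥ : AddSubgroup (Col G)) := by
  classical
  induction d with
  | zero =>
    intro x hx _
    refine le_sat ?_
    simpa [V] using hx
  | succ d ih =>
    intro x hx hZ
    suffices h : x ∈ sat (V G d) by
      obtain ⟨n, hn, h⟩ := h
      exact sat_of_nsmul hn (ih (by omega) _ h fun k f hf => by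
        rw [map_nsmul, map_nsmul, hZ, smul_zero])
    let s : Setoid {φ : Zc d →* G // Function.Injective φ} :=
      ⟨fun φ ψ => ∃ α : Zc d ≃* Zc d, ∃ g, ∀ x, ψ.1 (α x) = g * φ.1 x * g⁻¹,
        fun φ => ⟨MulEquiv.refl _, 1, by simp⟩,
        fun ⟨α, g, h⟩ => ⟨α.symm, g⁻¹, fun x => by
          have := h (α.symm x)
          rw [MulEquiv.apply_symm_apply] at this
          simp [this, mul_assoc]⟩,
        fun ⟨α, g, h⟩ ⟨β, g', h'⟩ => ⟨α.trans β, g' * g, fun x => by simp [h, h', mul_assoc]⟩⟩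
    let F : (Quotient s →₀ Additive ℤ[Zc d]ˣ) →+ Col G :=
      Finsupp.liftAddHom fun q => (colOf q.out.1).comp ((Wh.mk _).comp (uclHom _))
    have hle : V G (d + 1) ≤ V G d ⊔ F.range := by
      refine (AddSubgroup.closure_le _).2 ?_
      rintro _ ⟨n, hn, φ, hφ, u, rfl⟩
      rcases (Nat.le_of_lt_succ hn).lt_or_eq with hn | rfl
      · exact AddSubgroup.mem_sup_left (AddSubgroup.subset_closure ⟨n, hn, φ, hφ, u, rfl⟩)
      · obtain ⟨α, g, h⟩ := s.symm (Quotient.mk_out (s := s) ⟨φ, hφ⟩)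
        refine AddSubgroup.mem_sup_right ⟨Finsupp.single (Quotient.mk s ⟨φ, hφ⟩)
          (.ofMul (Units.map (mapDomainRingHom ℤ α.toMonoidHom).toMonoidHom u.toMul)), ?_⟩
        simp only [F, Finsupp.liftAddHom_apply_single, AddMonoidHom.comp_apply]
        rw [← map_uclHom, ← Wh.map_mk, colOf_conj φ _ α.toMonoidHom g h]
        rfl
    obtain ⟨y, hy, _, ⟨t, rfl⟩, rfl⟩ := AddSubgroup.mem_sup.1 (hle hx)
    refine add_mem (le_sat hy) ?_
    rw [Finsupp.liftAddHom_apply]
    refine sum_mem fun q _ => top_mem hodd hd q.out.1 q.out.2 (t q) fun k c hc => ?_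
    have hf : ∀ a b : G, (if IsConj (a * b) (q.out.1 c) then (1 : ZMod (p ^ (k + 1))) else 0) =
        if IsConj (b * a) (q.out.1 c) then 1 else 0 := fun a b => by
      have : IsConj (a * b) (b * a) := isConj_iff.2 ⟨b, by simp [mul_assoc]⟩
      exact if_congr ⟨this.symm.trans, this.trans⟩ rfl rfl
    have h1 := hZ k (fun g => if IsConj g (q.out.1 c) then 1 else 0) hf
    have h2 : ellWh hodd (fun g => if IsConj g (q.out.1 c) then 1 else 0) hf (assembly G y) = 0 := by
      refine (AddSubgroup.closure_le ((ellWh hodd _ hf).comp (assembly G)).ker).2 ?_ hy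
      rintro _ ⟨n, hn, φ, hφ, u, rfl⟩
      rw [SetLike.mem_coe, AddMonoidHom.mem_ker, AddMonoidHom.comp_apply, assembly_colOf,
        ellWh_lam]
      refine lin_zero (fun x => if_neg fun h => ?_) _
      have h3 := orderOf_of_isConj hφ q.out.2 h
      have h4 := orderOf_le_card (x := x)
      rw [orderOf_eq_card_of_forall_mem_zpowers hc] at h3
      simp at h3 h4
      omega
    rw [map_add, map_add, h2, zero_add, Finsupp.liftAddHom_apply, Finsupp.sum, map_sum, map_sum,
      Finset.sum_eq_single q] at h1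
    · simpa only [AddMonoidHom.comp_apply, assembly_colOf, ellWh_lam] using h1
    · intro q' _ hq
      simp only [AddMonoidHom.comp_apply, assembly_colOf, ellWh_lam]
      refine lin_zero (fun x => if_neg fun h => hq ?_) _
      obtain ⟨α, -, h⟩ := exists_aut q'.out.2 q.out.2 hc h
      exact Quotient.out_equiv_out.1 ⟨α, h⟩
    · intro hq
      rw [Finsupp.notMem_support_iff.1 hq, map_zero, map_zero, map_zero]

theorem torsion_of_assembly (x : Col G) (hx : assembly G x = 0) : ∃ n : ℕ, n ≠ 0 ∧ n • x = 0 := by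
  obtain ⟨d, n, hn, h⟩ := exists_mem_sat x
  obtain ⟨p, hd, hp⟩ := Nat.exists_infinite_primes (d + 3)
  have := Fact.mk hp
  exact sat_of_nsmul (V := ⊥) hn (torsion_of_mem (hp.odd_of_ne_two (by omega)) d (by omega) _ h
    fun k f hf => by rw [map_nsmul, hx, smul_zero, map_zero])

theorem injective_lTensor {A B : Type*} [AddCommGroup A] [AddCommGroup B] (f : A →+ B)
    (h : ∀ x, f x = 0 → ∃ n : ℕ, n ≠ 0 ∧ n • x = 0) :
    Function.Injective (f.toIntLinearMap.lTensor ℚ) := by
  rw [injective_iff_map_eq_zero]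
  intro t ht
  obtain ⟨⟨a, s⟩, hs⟩ := IsLocalizedModule.surj (nonZeroDivisors ℤ) (TensorProduct.mk ℤ ℚ A 1) t
  have h1 : TensorProduct.mk ℤ ℚ B 1 (f a) = 0 := by
    have := congrArg (f.toIntLinearMap.lTensor ℚ) hs
    rw [Submonoid.smul_def, map_smul, ht, smul_zero] at this
    exact this.symm
  obtain ⟨r, hr⟩ := (IsLocalizedModule.eq_zero_iff (nonZeroDivisors ℤ) _).1 h1
  obtain ⟨n, hn, h2⟩ := h (r.1 • a) (by rw [map_zsmul]; exact hr)
  have h3 : TensorProduct.mk ℤ ℚ A 1 a = 0 :=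
    (IsLocalizedModule.eq_zero_iff (nonZeroDivisors ℤ) _).2
      ⟨⟨n, mem_nonZeroDivisors_of_ne_zero (Nat.cast_ne_zero.2 hn)⟩ * r, by
        rw [mul_smul]; exact (natCast_zsmul _ n).trans h2⟩
  exact IsLocalizedModule.smul_injective (TensorProduct.mk ℤ ℚ A 1) s
    (hs.trans (h3.trans (smul_zero s).symm))

end Pool.Agent.WhDet
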