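import Pool.Agent.Lib.MP_63c928_gt.WH.Defs

/-! Toolkit for `K1`: the class `cl A` of a matrix with an arbitrary finite index type. -/

namespace Pool.Agent.WhDet

open Matrix

universe u v

variable {R : Type u} [Ring R]

theorem K1.mk_one (n : ℕ) : K1.mk (1 : (Matrix (Fin n) (Fin n) R)ˣ) = 0 := by
  have h := K1.mk_mul (1 : (Matrix (Fin n) (Fin n) R)ˣ) 1
  rw [mul_one] at h
  exact left_eq_add.1 h

theorem K1.mk_perm {n : ℕ} (σ : Fin n ≃ Fin n) (A B : (Matrix (Fin n) (Fin n) R)ˣ)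
    (h : B.val = reindex σ σ A.val) : K1.mk B = K1.mk A := by
  let P : (Matrix (Fin n) (Fin n) R)ˣ :=
    ⟨σ.toPEquiv.toMatrix, σ.symm.toPEquiv.toMatrix,
      by rw [← PEquiv.toMatrix_trans, ← Equiv.toPEquiv_trans]; simp,
      by rw [← PEquiv.toMatrix_trans, ← Equiv.toPEquiv_trans]; simp⟩
  refine add_left_cancel (a := K1.mk P) ?_
  rw [← K1.mk_mul, add_comm, ← K1.mk_mul]
  congr 1
  apply Units.ext
  simp only [Units.val_mul, P, h, PEquiv.toMatrix_toPEquiv_mul, PEquiv.mul_toMatrix_toPEquiv,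
    reindex_apply, submatrix_submatrix]
  simp

theorem K1.induction_on {P : K1 R → Prop} (x : K1 R)
    (mk : ∀ (n : ℕ) (A : (Matrix (Fin n) (Fin n) R)ˣ), P (K1.mk A)) (zero : P 0)
    (add : ∀ x y, P x → P y → P (x + y)) (neg : ∀ x, P x → P (-x)) : P x := by
  induction x using QuotientAddGroup.induction_on with
  | H z =>
    induction z using FreeAbelianGroup.induction_on with
    | zero => exact zero
    | of x => exact mk x.1 x.2
    | neg x hx => exact neg _ hx
    | add x y hx hy => exact add _ _ hx hy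

variable {ι κ μ : Type*} [Fintype ι] [DecidableEq ι] [Fintype κ] [DecidableEq κ]
  [Fintype μ] [DecidableEq μ]

open Classical in
/-- The class of a matrix (zero when it is not invertible). -/
noncomputable def cl (A : Matrix ι ι R) : K1 R :=
  if h : IsUnit A then
    K1.mk (Units.map (reindexRingEquiv R (Fintype.equivFin ι)).toMonoidHom h.unit) else 0

theorem isUnit_reindex_iff (e : ι ≃ κ) (A : Matrix ι ι R) : IsUnit (reindex e e A) ↔ IsUnit A :=
  MulEquiv.isUnit_map (reindexRingEquiv R e) (x := A)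

theorem cl_eq {n : ℕ} (e : ι ≃ Fin n) (A : Matrix ι ι R) (B : (Matrix (Fin n) (Fin n) R)ˣ)
    (h : B.val = reindex e e A) : cl A = K1.mk B := by
  have hA : IsUnit A := (isUnit_reindex_iff e A).1 (h ▸ B.isUnit)
  obtain rfl : n = Fintype.card ι := by simpa using (Fintype.card_congr e).symm
  rw [cl, dif_pos hA]
  refine (K1.mk_perm ((Fintype.equivFin ι).symm.trans e) _ _ ?_).symm
  rw [h]
  ext i j
  simp

theorem cl_mk {n : ℕ} (B : (Matrix (Fin n) (Fin n) R)ˣ) : cl B.val = K1.mk B :=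
  cl_eq (Equiv.refl _) _ B (by simp)

theorem cl_of_not {A : Matrix ι ι R} (h : ¬ IsUnit A) : cl A = 0 := by
  rw [cl, dif_neg h]

theorem cl_mul {A B : Matrix ι ι R} (hA : IsUnit A) (hB : IsUnit B) :
    cl (A * B) = cl A + cl B := by
  rw [cl, cl, cl, dif_pos hA, dif_pos hB, dif_pos (hA.mul hB), ← K1.mk_mul, ← map_mul]
  congr 2
  exact Units.ext (by simp)

theorem cl_one : cl (1 : Matrix ι ι R) = 0 := by
  have h := cl_mul (isUnit_one (M := Matrix ι ι R)) isUnit_one
  rw [mul_one] at h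
  exact left_eq_add.1 h

theorem cl_pow {A : Matrix ι ι R} (hA : IsUnit A) (s : ℕ) : cl (A ^ s) = s • cl A := by
  induction s with
  | zero => simp [cl_one]
  | succ s ih => rw [pow_succ, cl_mul (hA.pow s) hA, ih, succ_nsmul]

theorem cl_reindex (e : ι ≃ κ) (A : Matrix ι ι R) : cl (reindex e e A) = cl A := by
  by_cases hA : IsUnit A
  · have h2 : IsUnit (reindex (Fintype.equivFin ι) (Fintype.equivFin ι) A) :=
      (isUnit_reindex_iff _ A).2 hA
    rw [cl_eq (Fintype.equivFin ι) A h2.unit (by simp),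
      cl_eq (e.symm.trans (Fintype.equivFin ι)) _ h2.unit (by ext i j; simp)]
  · rw [cl_of_not hA, cl_of_not (mt (isUnit_reindex_iff e A).1 hA)]

theorem cl_map {S : Type v} [Ring S] (φ : R →+* S) {A : Matrix ι ι R} (hA : IsUnit A) :
    K1.map φ (cl A) = cl (A.map φ) := by
  have h2 : IsUnit (reindex (Fintype.equivFin ι) (Fintype.equivFin ι) A) :=
    (isUnit_reindex_iff _ A).2 hA
  rw [cl_eq (Fintype.equivFin ι) A h2.unit (by simp), K1.map_mk]
  exact (cl_eq (Fintype.equivFin ι) _ _ (by ext i j; simp [mapGL_val])).symm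

theorem isUnit_diag_iff (A : Matrix ι ι R) (D : Matrix κ κ R) :
    IsUnit (fromBlocks A 0 0 D) ↔ IsUnit A ∧ IsUnit D := by
  constructor
  · rintro ⟨U, hU⟩
    have h1 := U.mul_inv
    have h2 := U.inv_mul
    rw [hU, ← fromBlocks_toBlocks (U⁻¹).val, fromBlocks_multiply, ← fromBlocks_one,
      fromBlocks_inj] at h1 h2
    simp only [Matrix.zero_mul, Matrix.mul_zero, add_zero, zero_add] at h1 h2
    exact ⟨⟨⟨A, _, h1.1, h2.1⟩, rfl⟩, ⟨⟨D, _, h1.2.2.2, h2.2.2.2⟩, rfl⟩⟩
  · rintro ⟨⟨U, rfl⟩, ⟨V, rfl⟩⟩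
    exact ⟨⟨fromBlocks U.val 0 0 V.val, fromBlocks (U⁻¹).val 0 0 (V⁻¹).val,
      by simp [fromBlocks_multiply], by simp [fromBlocks_multiply]⟩, rfl⟩

theorem cl_stab_fin_one (A : Matrix ι ι R) :
    cl (fromBlocks A 0 0 (1 : Matrix (Fin 1) (Fin 1) R)) = cl A := by
  by_cases hA : IsUnit A
  · let e := Fintype.equivFin ι
    have h2 : IsUnit (reindex e e A) := (isUnit_reindex_iff _ A).2 hA
    have h3 : IsUnit (stab (reindex e e A)) :=
      (isUnit_reindex_iff _ _).2 ((isUnit_diag_iff _ _).2 ⟨h2, isUnit_one⟩)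
    rw [cl_eq e A h2.unit (by simp), ← K1.mk_stab h2.unit h3.unit (by simp)]
    refine cl_eq ((e.sumCongr (Equiv.refl _)).trans finSumFinEquiv) _ _ ?_
    simp only [IsUnit.unit_spec, stab]
    ext i j
    obtain ⟨i, rfl⟩ := finSumFinEquiv.surjective i
    obtain ⟨j, rfl⟩ := finSumFinEquiv.surjective j
    rcases i with i | i <;> rcases j with j | j <;> simp [-finSumFinEquiv_apply_left,
      -finSumFinEquiv_apply_right]
  · rw [cl_of_not hA, cl_of_not (fun h => hA ((isUnit_diag_iff _ _).1 h).1)]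

theorem cl_stab_fin (k : ℕ) (A : Matrix ι ι R) :
    cl (fromBlocks A 0 0 (1 : Matrix (Fin k) (Fin k) R)) = cl A := by
  induction k with
  | zero =>
    rw [← cl_reindex (Equiv.sumEmpty ι (Fin 0))]
    congr 1
  | succ k ih =>
    rw [← ih, ← cl_stab_fin_one (fromBlocks A 0 0 (1 : Matrix (Fin k) (Fin k) R)),
      ← cl_reindex ((Equiv.sumAssoc ι (Fin k) (Fin 1)).trans
        ((Equiv.refl ι).sumCongr finSumFinEquiv))]
    congr 1
    ext i j
    obtain ⟨i, rfl⟩ := ((Equiv.sumAssoc ι (Fin k) (Fin 1)).trans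
        ((Equiv.refl ι).sumCongr finSumFinEquiv)).surjective i
    obtain ⟨j, rfl⟩ := ((Equiv.sumAssoc ι (Fin k) (Fin 1)).trans
        ((Equiv.refl ι).sumCongr finSumFinEquiv)).surjective j
    simp only [reindex_apply, submatrix_apply, Equiv.symm_apply_apply]
    rcases i with (i | i) | i <;> rcases j with (j | j) | j <;>
      simp [-finSumFinEquiv_apply_left, -finSumFinEquiv_apply_right, one_apply]

theorem cl_stab (A : Matrix ι ι R) : cl (fromBlocks A 0 0 (1 : Matrix κ κ R)) = cl A := by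
  rw [← cl_stab_fin (Fintype.card κ) A,
    ← cl_reindex ((Equiv.refl ι).sumCongr (Fintype.equivFin κ))]
  congr 1
  ext i j
  rcases i with i | i <;> rcases j with j | j <;> simp [one_apply]

theorem cl_stab' (D : Matrix κ κ R) : cl (fromBlocks (1 : Matrix ι ι R) 0 0 D) = cl D := by
  rw [← cl_stab (κ := ι) D, ← cl_reindex (Equiv.sumComm ι κ)]
  congr 1
  ext i j
  rcases i with i | i <;> rcases j with j | j <;> simp

theorem cl_diag {A : Matrix ι ι R} {D : Matrix κ κ R} (hA : IsUnit A) (hD : IsUnit D) :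
    cl (fromBlocks A 0 0 D) = cl A + cl D := by
  rw [← cl_stab (κ := κ) A, ← cl_stab' (ι := ι) D, ← cl_mul
    ((isUnit_diag_iff _ _).2 ⟨hA, isUnit_one⟩) ((isUnit_diag_iff _ _).2 ⟨isUnit_one, hD⟩)]
  simp [fromBlocks_multiply]

theorem isUnit_upper (v : Matrix ι κ R) :
    IsUnit (fromBlocks (1 : Matrix ι ι R) v 0 (1 : Matrix κ κ R)) :=
  ⟨⟨fromBlocks 1 v 0 1, fromBlocks 1 (-v) 0 1, by simp [fromBlocks_multiply],
    by simp [fromBlocks_multiply]⟩, rfl⟩

theorem isUnit_lower (w : Matrix κ ι R) :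
    IsUnit (fromBlocks (1 : Matrix ι ι R) 0 w (1 : Matrix κ κ R)) :=
  ⟨⟨fromBlocks 1 0 w 1, fromBlocks 1 0 (-w) 1, by simp [fromBlocks_multiply],
    by simp [fromBlocks_multiply]⟩, rfl⟩

theorem isUnit_mul_iff_right {S : Type*} [Monoid S] {a b : S} (h : IsUnit a) :
    IsUnit (a * b) ↔ IsUnit b := by
  obtain ⟨u, rfl⟩ := h
  exact Units.isUnit_units_mul u b

theorem isUnit_mul_iff_left {S : Type*} [Monoid S] {a b : S} (h : IsUnit b) :
    IsUnit (a * b) ↔ IsUnit a := by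
  obtain ⟨u, rfl⟩ := h
  exact Units.isUnit_mul_units a u

theorem swap_aux (v : Matrix ι κ R) (w : Matrix κ ι R) :
    fromBlocks (1 : Matrix ι ι R) 0 w 1 * fromBlocks 1 0 0 (1 + w * v) * fromBlocks 1 (-v) 0 1 =
      fromBlocks 1 (-v) 0 1 * fromBlocks (1 + v * w) 0 0 1 * fromBlocks 1 0 w 1 := by
  simp [fromBlocks_multiply]

theorem isUnit_swap {v : Matrix ι κ R} {w : Matrix κ ι R} (h : IsUnit (1 + w * v)) :
    IsUnit (1 + v * w) := by
  have h1 : IsUnit (fromBlocks (1 : Matrix ι ι R) 0 w 1 * fromBlocks 1 0 0 (1 + w * v) *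
      fromBlocks 1 (-v) 0 1) :=
    ((isUnit_lower w).mul ((isUnit_diag_iff _ _).2 ⟨isUnit_one, h⟩)).mul (isUnit_upper _)
  rw [swap_aux, isUnit_mul_iff_left (isUnit_lower w), isUnit_mul_iff_right (isUnit_upper _)] at h1
  exact ((isUnit_diag_iff _ _).1 h1).1

theorem cl_swap (v : Matrix ι κ R) (w : Matrix κ ι R) : cl (1 + v * w) = cl (1 + w * v) := by
  by_cases h : IsUnit (1 + w * v)
  · have h' := isUnit_swap h
    have h1 := congrArg cl (swap_aux v w)
    have a1 : IsUnit (fromBlocks (1 : Matrix ι ι R) 0 0 (1 + w * v)) :=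
      (isUnit_diag_iff _ _).2 ⟨isUnit_one, h⟩
    have a2 : IsUnit (fromBlocks (1 + v * w) 0 0 (1 : Matrix κ κ R)) :=
      (isUnit_diag_iff _ _).2 ⟨h', isUnit_one⟩
    rw [cl_mul ((isUnit_lower w).mul a1) (isUnit_upper _), cl_mul (isUnit_lower w) a1,
      cl_mul ((isUnit_upper _).mul a2) (isUnit_lower _), cl_mul (isUnit_upper _) a2,
      cl_stab, cl_stab'] at h1
    refine add_left_cancel (a := cl (fromBlocks (1 : Matrix ι ι R) 0 w 1) +
      cl (fromBlocks (1 : Matrix ι ι R) (-v) 0 1)) (Eq.symm ?_)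
    rw [add_right_comm, h1]
    abel
  · rw [cl_of_not h, cl_of_not (mt isUnit_swap h)]

theorem isUnit_elem {v : Matrix ι κ R} {w : Matrix κ ι R} (h : w * v = 0) :
    IsUnit (1 + v * w) := isUnit_swap (by rw [h, add_zero]; exact isUnit_one)

theorem cl_elem {v : Matrix ι κ R} {w : Matrix κ ι R} (h : w * v = 0) : cl (1 + v * w) = 0 := by
  rw [cl_swap, h, add_zero, cl_one]

theorem cl_upper (v : Matrix ι κ R) : cl (fromBlocks (1 : Matrix ι ι R) v 0 1) = 0 := by
  rw [← cl_elem (v := fromRows v (0 : Matrix κ κ R)) (w := fromCols (0 : Matrix κ ι R) 1)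
    (by simp [fromCols_mul_fromRows])]
  congr 1
  rw [fromRows_mul_fromCols, ← fromBlocks_one, fromBlocks_add]
  simp

theorem cl_lower (w : Matrix κ ι R) : cl (fromBlocks (1 : Matrix ι ι R) 0 w 1) = 0 := by
  rw [← cl_elem (v := fromRows (0 : Matrix ι ι R) w) (w := fromCols 1 (0 : Matrix ι κ R))
    (by simp [fromCols_mul_fromRows])]
  congr 1
  rw [fromRows_mul_fromCols, ← fromBlocks_one, fromBlocks_add]
  simp

/-- Pivoting on an identity block. -/
theorem cl_pivot (b : Matrix ι κ R) (c : Matrix κ ι R) (d : Matrix κ κ R)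
    (h : IsUnit (fromBlocks 1 b c d)) :
    IsUnit (d - c * b) ∧ cl (fromBlocks 1 b c d) = cl (d - c * b) := by
  have e : fromBlocks 1 b c d = fromBlocks (1 : Matrix ι ι R) 0 c 1 *
      fromBlocks 1 0 0 (d - c * b) * fromBlocks 1 b 0 1 := by simp [fromBlocks_multiply]
  have h1 := h
  rw [e, isUnit_mul_iff_left (isUnit_upper _), isUnit_mul_iff_right (isUnit_lower _)] at h1
  refine ⟨((isUnit_diag_iff _ _).1 h1).2, ?_⟩
  rw [e, cl_mul ((isUnit_lower _).mul h1) (isUnit_upper _), cl_mul (isUnit_lower _) h1,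
    cl_upper, cl_lower, cl_stab', zero_add, add_zero]

end Pool.Agent.WhDet
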