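import Mathlib

/-! Tate cohomology of permutation modules of a finite cyclic group. -/

namespace Pool.Agent.WhDet

open MonoidAlgebra

variable {I X : Type*} [AddCommGroup I] [AddAction I X]

/-- A representative of the orbit. -/
noncomputable def rep (I : Type*) {X : Type*} [AddCommGroup I] [AddAction I X] (x : X) : X :=
  (Quotient.mk (AddAction.orbitRel I X) x).out

theorem exists_rep (x : X) : ∃ j : I, x = j +ᵥ rep I x := by
  obtain ⟨j, hj⟩ := (AddAction.orbitRel I X).symm
    (Quotient.mk_out (s := AddAction.orbitRel I X) x)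
  exact ⟨j, hj.symm⟩

theorem rep_vadd (i : I) (x : X) : rep I (i +ᵥ x) = rep I x :=
  congrArg Quotient.out (Quotient.sound ⟨i, rfl⟩)

theorem rep_rep (x : X) : rep I (rep I x) = rep I x := by
  obtain ⟨j, hj⟩ := exists_rep (I := I) x
  rw [← rep_vadd j, ← hj]

theorem coeff_shift (i : I) (t : ℤ[X]) (x : X) :
    (mapDomain (fun x : X => i +ᵥ x) t).coeff x = t.coeff (-i +ᵥ x) :=
  Finsupp.mapDomain_equiv_apply (f := AddAction.toPerm i) _ _

variable [Fintype I]

theorem coeff_norm_of_rep (w : ℤ[X]) (hw : ∀ x, w.coeff x ≠ 0 → rep I x = x) (x : X) :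
    (∑ i : I, mapDomain (fun x : X => i +ᵥ x) w).coeff x =
      Nat.card (AddAction.stabilizer I (rep I x)) * w.coeff (rep I x) := by
  classical
  obtain ⟨j, hj⟩ := exists_rep (I := I) x
  rw [coeff_sum, Finsupp.finsetSum_apply, ← Equiv.sum_comp (Equiv.subLeft j)]
  have : ∀ i : I, (mapDomain (fun x : X => Equiv.subLeft j i +ᵥ x) w).coeff x =
      if i ∈ AddAction.stabilizer I (rep I x) then w.coeff (rep I x) else 0 := fun i => by
    have h1 : -(Equiv.subLeft j i) +ᵥ x = i +ᵥ rep I x := by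
      conv_lhs => rw [hj]
      simp [vadd_vadd]
    rw [coeff_shift, h1]
    split_ifs with h
    · rw [AddAction.mem_stabilizer_iff.1 h]
    · by_contra h2
      have h3 := hw _ h2
      rw [rep_vadd, rep_rep] at h3
      exact h h3.symm
  simp only [this]
  rw [Finset.sum_ite, Finset.sum_const_zero, add_zero, Finset.sum_const, nsmul_eq_mul,
    Nat.card_eq_fintype_card, Fintype.card_subtype]

theorem exists_norm_eq (t : ℤ[X]) (ht : ∀ i : I, mapDomain (fun x : X => i +ᵥ x) t = t)
    (hd : ∀ x, (Nat.card (AddAction.stabilizer I x) : ℤ) ∣ t.coeff x) :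
    ∃ y : ℤ[X], ∑ i : I, mapDomain (fun x : X => i +ᵥ x) y = t := by
  classical
  refine ⟨ofCoeff (Finsupp.onFinset t.coeff.support (fun x => if rep I x = x then
    t.coeff x / Nat.card (AddAction.stabilizer I x) else 0) fun x hx => ?_), ?_⟩
  · rw [Finsupp.mem_support_iff]
    intro h
    simp [h] at hx
  · ext x
    rw [coeff_norm_of_rep _ (fun x hx => by
      by_contra h
      simp [h] at hx)]
    simp only [Finsupp.onFinset_apply, rep_rep, if_true]
    rw [Int.mul_ediv_cancel' (hd _)]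
    obtain ⟨j, hj⟩ := exists_rep (I := I) x
    conv_rhs => rw [← ht j, coeff_shift, hj, neg_vadd_vadd]

theorem exists_sub_of_norm_eq_zero (g : I) (hg : ∀ i : I, ∃ n : ℕ, i = n • g) (y : ℤ[X])
    (hy : ∑ i : I, mapDomain (fun x : X => i +ᵥ x) y = 0) :
    ∃ z : ℤ[X], y = mapDomain (fun x : X => g +ᵥ x) z - z := by
  classical
  let B : ℤ[X] →ₗ[ℤ] ℤ[X] := mapDomainLinearMap ℤ ℤ (fun x : X => g +ᵥ x) - LinearMap.id
  let N : ℤ[X] →ₗ[ℤ] ℤ[X] := ∑ i : I, mapDomainLinearMap ℤ ℤ (fun x : X => i +ᵥ x)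
  have hN : ∀ y, N y = ∑ i : I, mapDomain (fun x : X => i +ᵥ x) y := fun y =>
    LinearMap.sum_apply _ _ _
  have h1 : ∀ (n : ℕ) (x : X) (c : ℤ), single (n • g +ᵥ x) c - single x c ∈ B.range := by
    intro n x c
    induction n with
    | zero => simp
    | succ n ih =>
      have := add_mem (LinearMap.mem_range_self B (single (n • g +ᵥ x) c)) ih
      simpa [B, succ_nsmul', add_vadd] using this
  have h2 : ∀ y : ℤ[X], y - mapDomain (rep I) y ∈ B.range ∧ N (mapDomain (rep I) y) = N y := by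
    intro y
    induction y using MonoidAlgebra.induction_linear with
    | zero => simp [mapDomain_zero]
    | add a b ha hb =>
      rw [mapDomain_add, add_sub_add_comm, map_add, map_add, ha.2, hb.2]
      exact ⟨add_mem ha.1 hb.1, rfl⟩
    | single x c =>
      obtain ⟨j, hj⟩ := exists_rep (I := I) x
      obtain ⟨n, hn⟩ := hg j
      rw [mapDomain_single]
      refine ⟨by conv => enter [2, 1]; rw [hj, hn]
                 exact h1 _ _ _, ?_⟩
      rw [hN, hN, ← Equiv.sum_comp (Equiv.addRight j)]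
      refine Finset.sum_congr rfl fun i _ => ?_
      rw [mapDomain_single, mapDomain_single, Equiv.coe_addRight, add_vadd, ← hj]
  have h3 : ∀ x, (mapDomain (rep I) y).coeff x ≠ 0 → rep I x = x := fun x hx => by
    obtain ⟨x', rfl⟩ := Finsupp.mem_range_of_mapDomain_ne_zero hx
    exact rep_rep _
  have h4 : mapDomain (rep I) y = 0 := by
    ext x
    by_contra hx
    have h5 := coeff_norm_of_rep _ h3 x
    rw [← hN, (h2 y).2, hN, hy, h3 x hx] at h5
    exact mul_ne_zero (Nat.cast_ne_zero.2 Nat.card_pos.ne') hx h5.symm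
  obtain ⟨z, hz⟩ := (h2 y).1
  exact ⟨z, by rw [h4, sub_zero] at hz; exact hz.symm⟩

theorem prod_of_invariant {A : Type*} [CommMonoid A] (K : AddSubgroup I) [Fintype (I ⧸ K)]
    (g : I → A) (hg : ∀ i, ∀ κ ∈ K, g (i + κ) = g i) :
    ∏ i, g i = (∏ q : I ⧸ K, g q.out) ^ Nat.card K := by
  have := Fintype.ofFinite K
  have hb : Function.Bijective fun z : (I ⧸ K) × K => z.1.out + z.2.1 := by
    constructor
    · rintro ⟨q, κ⟩ ⟨q', κ'⟩ h
      have h1 := congrArg (QuotientAddGroup.mk (s := K)) h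
      simp only [QuotientAddGroup.mk_add_of_mem _ κ.2, QuotientAddGroup.mk_add_of_mem _ κ'.2,
        QuotientAddGroup.out_eq'] at h1
      subst h1
      exact Prod.ext rfl (Subtype.ext (add_left_cancel h))
    · intro i
      exact ⟨⟨i, -(i : I ⧸ K).out + i, QuotientAddGroup.eq.1 (QuotientAddGroup.out_eq' _)⟩,
        by simp⟩
  rw [← hb.prod_comp, Fintype.prod_prod_type, ← Finset.prod_pow]
  refine Finset.prod_congr rfl fun q _ => ?_
  simp [hg]

end Pool.Agent.WhDet
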