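import Pool.Agent.Lib.MP_63c928_gt.WH.Orb

/-! The tensor power operation on monoid rings. -/

namespace Pool.Agent.WhDet

open MonoidAlgebra

variable {M M' J : Type*} [Fintype J]

open Classical in
/-- The tensor power `a ⊗ ⋯ ⊗ a`. -/
noncomputable def Pw (J : Type*) [Fintype J] (a : ℤ[M]) : ℤ[J → M] :=
  ∑ x ∈ Fintype.piFinset fun _ : J => a.coeff.support, single x (∏ j, a.coeff (x j))

theorem coeff_Pw (a : ℤ[M]) (x : J → M) : (Pw J a).coeff x = ∏ j, a.coeff (x j) := by
  classical
  rw [Pw, coeff_sum, Finsupp.finsetSum_apply]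
  simp only [coeff_single, Finsupp.single_apply, Finset.sum_ite_eq']
  split_ifs with h
  · rfl
  · simp only [Fintype.mem_piFinset, Finsupp.mem_support_iff, not_forall, not_not] at h
    obtain ⟨j, hj⟩ := h
    exact (Finset.prod_eq_zero (Finset.mem_univ j) hj).symm

open Classical in
theorem Pw_sum {α : Type*} (S : Finset α) (φ : α → M) (c : α → ℤ) :
    Pw J (∑ i ∈ S, single (φ i) (c i)) =
      ∑ y ∈ Fintype.piFinset fun _ : J => S, single (φ ∘ y) (∏ j, c (y j)) := by
  ext x
  simp only [coeff_Pw, coeff_sum, Finsupp.finsetSum_apply, coeff_single, Finsupp.single_apply]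
  rw [Finset.prod_univ_sum]
  refine Finset.sum_congr rfl fun y _ => ?_
  rw [Fintype.prod_ite_zero]
  exact if_congr (funext_iff (f := φ ∘ y)).symm rfl rfl

theorem eq_sum_support (a : ℤ[M]) : a = ∑ g ∈ a.coeff.support, single g (a.coeff g) :=
  a.sum_coeff_single.symm

theorem mapDomain_finsum {R α : Type*} [Semiring R] (φ : M → M') (S : Finset α) (v : α → R[M]) :
    mapDomain φ (∑ i ∈ S, v i) = ∑ i ∈ S, mapDomain φ (v i) :=
  map_sum (mapDomainLinearMap R R φ) _ _

theorem mapDomain_comp' {R M'' : Type*} [Semiring R] (φ : M → M') (ψ : M' → M'') (a : R[M]) :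
    mapDomain ψ (mapDomain φ a) = mapDomain (ψ ∘ φ) a :=
  congrArg ofCoeff Finsupp.mapDomain_comp.symm

theorem Pw_mapDomain (φ : M → M') (a : ℤ[M]) :
    Pw J (mapDomain φ a) = mapDomain (fun x => φ ∘ x) (Pw J a) := by
  conv_lhs => rw [eq_sum_support a]
  simp only [mapDomain_finsum, mapDomain_single, Pw_sum]
  simp only [mapDomain_finsum, mapDomain_single, Pw]

theorem Pw_reindex (e : J ≃ J) (a : ℤ[M]) : mapDomain (fun x => x ∘ e) (Pw J a) = Pw J a := by
  ext x
  refine (Finsupp.mapDomain_equiv_apply (f := e.symm.arrowCongr (Equiv.refl M)) _ _).trans ?_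
  rw [coeff_Pw, coeff_Pw, ← Equiv.prod_comp e]
  simp

section Monoid

variable [Monoid M]

theorem Pw_one : Pw J (1 : ℤ[M]) = 1 := by
  classical
  have := Pw_sum (J := J) ({()} : Finset Unit) (fun _ => (1 : M)) fun _ => 1
  rw [Finset.sum_singleton, Fintype.piFinset_singleton, Finset.sum_singleton,
    Finset.prod_const_one] at this
  exact this

theorem Pw_mul (a b : ℤ[M]) : Pw J (a * b) = Pw J a * Pw J b := by
  classical
  conv_lhs => rw [eq_sum_support a, eq_sum_support b, Finset.sum_mul_sum, ← Finset.sum_product']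
  simp only [single_mul_single]
  rw [Pw_sum, Pw, Pw, Finset.sum_mul_sum, ← Finset.sum_product']
  refine Finset.sum_equiv (Equiv.arrowProdEquivProdArrow J (fun _ => M) fun _ => M) ?_ ?_
  · intro y
    simp [forall_and]
  · intro y _
    rw [single_mul_single, Finset.prod_mul_distrib]
    rfl

end Monoid

theorem mapDomain_prod_Pw [CommMonoid M] (a : ℤ[M]) :
    mapDomain (fun x : J → M => ∏ j, x j) (Pw J a) = a ^ Fintype.card J := by
  classical
  conv_rhs => rw [← Finset.card_univ, ← Finset.prod_const, eq_sum_support a, Finset.prod_univ_sum]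
  simp only [Pw, mapDomain_finsum, mapDomain_single, prod_single]

variable {I : Type*} [AddCommGroup I]

/-- The shift on `I → M`. -/
def sh [Monoid M] (i : I) : (I → M) →* (I → M) where
  toFun x j := x (j + i)
  map_one' := rfl
  map_mul' _ _ := rfl

/-- The shift as an action. -/
@[reducible] def shAct (I M : Type*) [AddCommGroup I] : AddAction I (I → M) where
  vadd i x j := x (j + i)
  zero_vadd x := funext fun j => congrArg x (add_zero j)
  add_vadd i k x := funext fun j => congrArg x (add_assoc j i k).symm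

/-- Inflation along a quotient. -/
def infl [Monoid M] (K : AddSubgroup I) : (I ⧸ K → M) →* (I → M) where
  toFun z i := z i
  map_one' := rfl
  map_mul' _ _ := rfl

variable [Fintype I] [Monoid M] (K : AddSubgroup I) [Fintype (I ⧸ K)]

/-- The inflated tensor power. -/
noncomputable def Dg (a : ℤ[M]) : ℤ[I → M] := mapDomain (infl K) (Pw (I ⧸ K) a)

omit [Fintype I] in
theorem Dg_one : Dg K (1 : ℤ[M]) = 1 := by rw [Dg, Pw_one, mapDomain_one]

omit [Fintype I] in
theorem Dg_mul (a b : ℤ[M]) : Dg K (a * b) = Dg K a * Dg K b := by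
  rw [Dg, Pw_mul, mapDomain_mul]; rfl

omit [Fintype I] in
theorem Dg_mapDomain [Monoid M'] (φ : M → M') (a : ℤ[M]) :
    Dg K (mapDomain φ a) = mapDomain (fun x => φ ∘ x) (Dg K a) := by
  rw [Dg, Dg, Pw_mapDomain, mapDomain_comp', mapDomain_comp']
  rfl

theorem sh_Pw (i : I) (a : ℤ[M]) : mapDomain (sh i) (Pw I a) = Pw I a :=
  Pw_reindex (Equiv.addRight i) a

omit [Fintype I] in
theorem sh_Dg (i : I) (a : ℤ[M]) : mapDomain (sh i) (Dg K a) = Dg K a := by
  conv_rhs => rw [Dg, ← Pw_reindex (Equiv.addRight (i : I ⧸ K))]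
  rw [Dg, mapDomain_comp', mapDomain_comp']
  rfl

theorem exists_norm_Pw_sub_Dg {p : ℕ} (hp : p.Prime) (hodd : Odd p) (hK : Nat.card K = p)
    (hI : ∀ L : AddSubgroup I, L ≠ ⊥ → K ≤ L ∧ ∃ r, Nat.card L = p ^ (r + 1)) (a : ℤ[M]) :
    ∃ y : ℤ[I → M], ∑ i : I, mapDomain (sh i) y = Pw I a - Dg K a := by
  let := shAct I M
  refine exists_norm_eq (I := I) _ (fun i => ?_) fun x => ?_
  · change mapDomainRingHom ℤ (sh (M := M) i) _ = _
    rw [map_sub, mapDomainRingHom_apply, mapDomainRingHom_apply, sh_Pw, sh_Dg]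
  by_cases h : AddAction.stabilizer I x = ⊥
  · simp [h]
  obtain ⟨hle, r, hr⟩ := hI _ h
  have := Fintype.ofFinite (I ⧸ AddAction.stabilizer I x)
  have hinv : ∀ i, ∀ κ ∈ AddAction.stabilizer I x, a.coeff (x (i + κ)) = a.coeff (x i) :=
    fun i κ hκ => congrArg a.coeff (congrFun (AddAction.mem_stabilizer_iff.1 hκ) i)
  have h1 := prod_of_invariant _ (fun i => a.coeff (x i)) hinv
  have h2 := prod_of_invariant K (fun i => a.coeff (x i)) fun i κ hκ => hinv i κ (hle hκ)
  have h3 : (Dg K a).coeff x = ∏ q : I ⧸ K, a.coeff (x q.out) := by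
    have hx : x = infl K fun q => x q.out := by
      funext i
      obtain ⟨κ, hκ⟩ := QuotientAddGroup.mk_out_eq_add K i
      change x i = x (i : I ⧸ K).out
      rw [hκ]
      exact (congrFun (AddAction.mem_stabilizer_iff.1 (hle κ.2)) i).symm
    have hinj : Function.Injective (infl (M := M) K) := fun z w hzw => funext fun q => by
      obtain ⟨i, rfl⟩ := QuotientAddGroup.mk_surjective q
      exact congrFun hzw i
    rw [← coeff_Pw]
    conv_lhs => rw [hx]
    exact Finsupp.mapDomain_apply hinj _ _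
  rw [coeff_sub, Finsupp.sub_apply, coeff_Pw, h3, hr]
  generalize ∏ q : I ⧸ AddAction.stabilizer I x, a.coeff (x q.out) = d at h1
  rw [h1, hr, hK, pow_succ, pow_mul, hodd.pow_inj] at h2
  rw [h1, hr, ← h2, pow_succ' p r, pow_mul, ← pow_succ', Nat.cast_pow]
  refine dvd_sub_pow_of_dvd_sub ?_ r
  have := Fact.mk hp
  rw [← ZMod.intCast_zmod_eq_zero_iff_dvd]
  simp

theorem exists_sub_of_sum_sh (g : I) (hg : ∀ i : I, ∃ n : ℕ, i = n • g) (y : ℤ[I → M])
    (hy : ∑ i : I, mapDomain (sh i) y = 0) : ∃ z : ℤ[I → M], y = mapDomain (sh g) z - z := by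
  let := shAct I M
  exact exists_sub_of_norm_eq_zero g hg y hy

end Pool.Agent.WhDet
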